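import Pool.Agent.LibFS55.Bool

/-! Complete subalgebras. -/

set_option autoImplicit false

namespace Pool.Agent.LibFS55

variable {B : Type} [CompleteBooleanAlgebra B] {C : Set B}

theorem IsSub.iSup (hC : IsSub C) {ι : Sort*} {a : ι → B} (h : ∀ i, a i ∈ C) : ⨆ i, a i ∈ C := by
  refine hC.sSup _ ?_
  rintro _ ⟨i, rfl⟩
  exact h i

theorem IsSub.iInf (hC : IsSub C) {ι : Sort*} {a : ι → B} (h : ∀ i, a i ∈ C) : ⨅ i, a i ∈ C := by
  have h1 : ⨅ i, a i = (⨆ i, (a i)ᶜ)ᶜ := by simp [compl_iSup]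
  rw [h1]
  exact hC.compl _ (hC.iSup fun i => hC.compl _ (h i))

theorem IsSub.bot (hC : IsSub C) : ⊥ ∈ C := by
  have h := hC.sSup ∅ (Set.empty_subset _)
  rwa [sSup_empty] at h

theorem IsSub.top (hC : IsSub C) : ⊤ ∈ C := by
  have h := hC.compl _ hC.bot
  rwa [compl_bot] at h

theorem IsSub.sup (hC : IsSub C) {a b : B} (ha : a ∈ C) (hb : b ∈ C) : a ⊔ b ∈ C := by
  have h := hC.sSup {a, b} (by
    rintro x (rfl | rfl)
    · exact ha
    · exact hb)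
  rwa [sSup_pair] at h

theorem IsSub.inf (hC : IsSub C) {a b : B} (ha : a ∈ C) (hb : b ∈ C) : a ⊓ b ∈ C := by
  have h := hC.compl _ (hC.sup (hC.compl _ ha) (hC.compl _ hb))
  rwa [compl_sup, compl_compl, compl_compl] at h

theorem IsSub.himp (hC : IsSub C) {a b : B} (ha : a ∈ C) (hb : b ∈ C) : a ⇨ b ∈ C := by
  rw [himp_eq]
  exact hC.sup hb (hC.compl _ ha)

theorem IsSub.ls (hC : IsSub C) {a : ℕ → B} (h : ∀ k, a k ∈ C) : LibFS55.ls a ∈ C :=
  hC.iInf fun _ => hC.iSup fun k => hC.iSup fun _ => h k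

theorem IsSub.li (hC : IsSub C) {a : ℕ → B} (h : ∀ k, a k ∈ C) : LibFS55.li a ∈ C :=
  hC.iSup fun _ => hC.iInf fun k => hC.iInf fun _ => h k

theorem isSub_univ : IsSub (Set.univ : Set B) := ⟨fun _ _ => trivial, fun _ _ => trivial⟩

end Pool.Agent.LibFS55
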