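import Pool.Agent.LibFS55.A7

/-! The base step, which codes are favored. -/

set_option autoImplicit false

namespace Pool.Agent.LibFS55

variable {B : Type} [CompleteBooleanAlgebra B] {C C' : Set B} {st : List ℕ → B} {ι : Type}

theorem dv_mem (h : Step C C' st) (hC' : IsSub C') (m l : ℕ) : dv st m l ∈ C' := by
  exact hC'.iSup fun _ => hC'.iSup fun _ => h.mem _

theorem dv_st (h : Step C C' st) {t : List ℕ} {m l : ℕ} (hm : m < t.length)
    (hl : t[m] ≠ l) : dv st m l ⊓ st t = ⊥ := by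
  rw [eq_bot_iff, dv]
  simp only [iSup_inf_eq]
  refine iSup_le fun v => iSup_le fun hv => le_of_eq ?_
  have h1 : ¬ (v ++ [l]) <+: t := by
    rintro ⟨w, rfl⟩
    apply hl
    subst hv
    simp
  refine h.st_disj h1 ?_
  rintro ⟨w, hw⟩
  have h2 : w = [] := by
    have h3 := congrArg List.length hw
    simp only [List.length_append, List.length_singleton] at h3
    exact List.eq_nil_of_length_eq_zero (by omega)
  rw [h2, List.append_nil] at hw
  exact h1 ⟨[], by rw [List.append_nil, hw]⟩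

theorem dv_disj (h : Step C C' st) (m : ℕ) {k l : ℕ} (hkl : k ≠ l) :
    dv st m k ⊓ dv st m l = ⊥ := by
  rw [eq_bot_iff]
  conv_lhs => rw [dv.eq_1 st m l]
  simp only [inf_iSup_eq]
  refine iSup_le fun v => iSup_le fun hv => le_of_eq ?_
  refine dv_st h (t := v ++ [l]) (by simp [hv]) ?_
  subst hv
  simpa using hkl.symm

theorem dv_tot (h : Step C C' st) (m : ℕ) : ⨆ l, dv st m l = ⊤ := by
  rw [eq_top_iff, ← h.nil]
  refine (h.st_le [] m).trans (iSup_le fun u => iSup_le fun hu => ?_)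
  rw [List.nil_append]
  refine (h.tot u).trans (iSup_le fun l => ?_)
  refine le_trans ?_ (le_iSup _ l)
  exact le_iSup_of_le u (le_iSup_of_le hu le_rfl)

/-- The generic real is above `l` at `m ≥ |t|` if the tree demands it. -/
theorem tr_dv (h : Step C C' st) {t : List ℕ} {g : List ℕ → ℕ → B} {m l : ℕ}
    (hm : t.length ≤ m) (hg : ∀ v, v.length = m → g v l = ⊥) :
    tr st t g ⊓ dv st m l = ⊥ := by
  rw [eq_bot_iff, dv]
  simp only [inf_iSup_eq]
  refine iSup_le fun v => iSup_le fun hv => ?_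
  by_cases hp : t <+: v
  · obtain ⟨u, rfl⟩ := hp
    have h1 := tr_obey st t (u ++ [l]) g
    rw [path_snoc, hg _ hv, inf_bot_eq] at h1
    rw [List.append_assoc]
    exact h1
  · have h1 : ¬ t <+: v ++ [l] := by
      intro h2
      exact hp (List.prefix_of_prefix_length_le h2 (List.prefix_append v [l]) (by omega))
    have h2 : ¬ (v ++ [l]) <+: t := by
      intro h3
      have h4 := h3.length_le
      simp only [List.length_append, List.length_singleton] at h4
      omega
    refine (inf_le_inf_right _ (tr_le _ _ _)).trans (le_of_eq ?_)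
    exact h.st_disj h1 h2

private theorem A10_fav {A : ℕ → B} {e : B} (he : e ∈ C) {t : List ℕ} {g : List ℕ → ℕ → B}
    (hg : Fn C g) {k : ℕ} (h : e ⊓ tr st t g ⊓ A k = ⊥) : e ⊓ fav C st A t k = ⊥ := by
  have h1 : e ≤ sSup {c | c ∈ C ∧ ∃ g, Fn C g ∧ c ⊓ tr st t g ⊓ A k = ⊥} :=
    le_sSup ⟨he, g, hg, h⟩
  rw [fav, eq_bot_iff]
  exact (inf_le_inf_right _ h1).trans (le_of_eq (inf_compl_self _))

/-- Suppose `e ⊓ tr st t g` forces: if `k ∈ A` then `d(m) = l` and `w`. Then `t` does not favor `k` if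
`|t| ≤ m`. -/
theorem fav_high (h : Step C C' st) (hC : IsSub C) {A : ℕ → B} {e : B} (he : e ∈ C)
    {t : List ℕ} {g : List ℕ → ℕ → B} (hg : Fn C g) {k m l : ℕ}
    (h0 : e ⊓ tr st t g ⊓ A k ≤ dv st m l) (hm : t.length ≤ m) : e ⊓ fav C st A t k = ⊥ := by
  have h1 := Fn.above hC hg (l + 1)
  have h2 : e ⊓ tr st t (fun t k => if l + 1 ≤ k then g t k else ⊥) ≤ tr st t g := by
    refine tr_mono st (fun t k => ?_) t
    refine inf_le_right.trans ?_
    split_ifs
    · exact le_rfl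
    · exact bot_le
  have h3 : tr st t (fun t k => if l + 1 ≤ k then g t k else ⊥) ⊓ dv st m l = ⊥ := by
    refine tr_dv h hm fun v _ => ?_
    rw [if_neg (by omega)]
  have h4 : e ⊓ tr st t (fun t k => if l + 1 ≤ k then g t k else ⊥) ⊓ A k = ⊥ := by
    refine le_bot_iff.mp (le_trans (le_inf (inf_le_left.trans inf_le_right) (le_trans ?_ h0))
      (le_of_eq h3))
    exact inf_le_inf_right _ (le_inf inf_le_left h2)
  exact A10_fav he h1 h4

theorem fav_low (h : Step C C' st) (hC : IsSub C) {A : ℕ → B} {e : B} (he : e ∈ C)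
    {t : List ℕ} {g : List ℕ → ℕ → B} (hg : Fn C g) {k m l : ℕ}
    (h0 : e ⊓ tr st t g ⊓ A k ≤ dv st m l) (hm : m < t.length) (hl : t[m] ≠ l) :
    e ⊓ fav C st A t k = ⊥ := by
  refine A10_fav he hg ?_
  rw [eq_bot_iff, ← dv_st h hm hl]
  exact le_inf h0 (inf_le_left.trans (inf_le_right.trans (tr_le _ _ _)))

theorem fav_le (h : Step C C' st) (hC : IsSub C) {A : ℕ → B} {e w : B} (he : e ∈ C)
    (hw : w ∈ C) {t : List ℕ} {g : List ℕ → ℕ → B} (hg : Fn C g) {k : ℕ}
    (h0 : e ⊓ tr st t g ⊓ A k ≤ w) : e ⊓ fav C st A t k ≤ w := by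
  have h1 : e ⊓ tr st t g ⊓ A k ⊓ wᶜ = ⊥ := by
    rw [eq_bot_iff, ← inf_compl_self w]
    exact inf_le_inf_right _ h0
  have h2 := fav_forced h hC he (hC.compl w hw) hg h1 []
  rw [path, inf_top_eq, List.append_nil] at h2
  rw [← disjoint_compl_right_iff, disjoint_iff, ← h2, inf_right_comm]

end Pool.Agent.LibFS55
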