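import Pool.Agent.LibFS55.A1

/-! Finitely many different reals. -/

set_option autoImplicit false

namespace Pool.Agent.LibFS55

variable {B : Type} [CompleteBooleanAlgebra B] {C C' : Set B} {st : List ℕ → B} {ι : Type}

theorem nb_mem (hC : IsSub C) {y : ℕ → B} (hy : ∀ k, y k ∈ C) (l : ℕ) (v : Finset ℕ) :
    nb y l v ∈ C := by
  unfold nb
  refine hC.iInf fun k => hC.iInf fun _ => ?_
  split_ifs
  · exact hy k
  · exact hC.compl _ (hy k)

theorem A11a_top {P : Type} (s : Finset P) (f : P → ℕ → B) (hm : ∀ p, Monotone (f p))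
    (ht : ∀ p ∈ s, ⨆ n, f p n = ⊤) : ⨆ n, ⨅ p ∈ s, f p n = ⊤ := by
  classical
  induction s using Finset.induction_on with
  | empty => simp
  | insert a s _ ih =>
    have h1 := ih fun p hp => ht p (Finset.mem_insert_of_mem hp)
    have h2 : ∀ n, ⨅ p ∈ insert a s, f p n = f a n ⊓ ⨅ p ∈ s, f p n := by
      intro n
      rw [Finset.iInf_insert]
    simp only [h2]
    rw [iSup_inf_of_monotone (hm a), h1, ht a (Finset.mem_insert_self a s), inf_top_eq]
    intro n n' hn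
    exact iInf_mono fun p => iInf_mono fun _ => hm p hn

theorem A11a_df_mono (x y : ℕ → B) : Monotone (df x y) := by
  intro l l' hl
  unfold df
  exact iSup_mono fun k => iSup_le fun hk => le_iSup (fun _ : k < l' =>
    (x k ⊓ (y k)ᶜ ⊔ (x k)ᶜ ⊓ y k)) (hk.trans_le hl)

theorem A11a_df_sup (x y : ℕ → B) : ⨆ n, df x y n = dif x y := by
  apply le_antisymm
  · exact iSup_le fun n => iSup_mono fun k => iSup_le fun _ => le_rfl
  · refine iSup_le fun k => ?_
    refine le_iSup_of_le (k + 1) ?_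
    exact le_iSup_of_le k (le_iSup_of_le (Nat.lt_succ_self k) le_rfl)

theorem A11a_nb_df (x y : ℕ → B) (l : ℕ) (v : Finset ℕ) :
    nb x l v ⊓ nb y l v ⊓ df x y l = ⊥ := by
  rw [← le_bot_iff]
  unfold df
  rw [inf_iSup_eq]
  refine iSup_le fun k => ?_
  rw [inf_iSup_eq]
  refine iSup_le fun hk => ?_
  have h1 : nb x l v ≤ if k ∈ v then x k else (x k)ᶜ := by
    unfold nb
    exact iInf₂_le k hk
  have h2 : nb y l v ≤ if k ∈ v then y k else (y k)ᶜ := by
    unfold nb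
    exact iInf₂_le k hk
  refine (inf_le_inf_right _ (inf_le_inf h1 h2)).trans ?_
  split_ifs
  · rw [inf_sup_left]
    refine sup_le ?_ ?_
    · calc x k ⊓ y k ⊓ (x k ⊓ (y k)ᶜ) ≤ y k ⊓ (y k)ᶜ :=
            inf_le_inf inf_le_right inf_le_right
        _ ≤ ⊥ := (inf_compl_eq_bot).le
    · calc x k ⊓ y k ⊓ ((x k)ᶜ ⊓ y k) ≤ x k ⊓ (x k)ᶜ :=
            inf_le_inf inf_le_left inf_le_left
        _ ≤ ⊥ := (inf_compl_eq_bot).le
  · rw [inf_sup_left]
    refine sup_le ?_ ?_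
    · calc (x k)ᶜ ⊓ (y k)ᶜ ⊓ (x k ⊓ (y k)ᶜ) ≤ (x k)ᶜ ⊓ x k :=
            inf_le_inf inf_le_left inf_le_left
        _ ≤ ⊥ := (compl_inf_eq_bot).le
    · calc (x k)ᶜ ⊓ (y k)ᶜ ⊓ ((x k)ᶜ ⊓ y k) ≤ (y k)ᶜ ⊓ y k :=
            inf_le_inf inf_le_right inf_le_right
        _ ≤ ⊥ := (compl_inf_eq_bot).le

/-- Finitely many different reals are different below `n` for large `n`, and then finitely many
subsets of `n` contain at most as many of them. -/
theorem separate (F : Finset ι) {y : ι → ℕ → B} (hy : ∀ i j, i ≠ j → dif (y i) (y j) = ⊤) :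
    (⨆ n : ℕ, ⨅ n' : ℕ, ⨅ (_ : n ≤ n'), ⨅ U : Finset (Finset ℕ), ⨅ (_ : U.card < F.card),
      (⨅ i ∈ F, ⨆ v ∈ U, nb (y i) n' v)ᶜ) = ⊤ := by
  classical
  have h1 : ⨆ n, ⨅ p ∈ F.offDiag, df (y p.1) (y p.2) n = ⊤ := by
    refine A11a_top F.offDiag (fun p n => df (y p.1) (y p.2) n)
      (fun p => A11a_df_mono _ _) fun p hp => ?_
    rw [A11a_df_sup]
    exact hy _ _ (Finset.mem_offDiag.1 hp).2.2
  rw [← top_le_iff, ← h1]
  refine iSup_mono fun n => ?_
  refine le_iInf₂ fun n' hn => le_iInf₂ fun U hU => ?_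
  rw [le_compl_iff_disjoint_right, disjoint_iff_inf_le]
  have h2 : (⨅ i ∈ F, ⨆ v ∈ U, nb (y i) n' v) =
      (F.pi fun _ => U).sup fun g => F.attach.inf fun i => nb (y i.1) n' (g i.1 i.2) := by
    have h3 : (⨅ i ∈ F, ⨆ v ∈ U, nb (y i) n' v) = F.inf fun i => U.sup fun v => nb (y i) n' v := by
      rw [Finset.inf_eq_iInf]
      simp only [Finset.sup_eq_iSup]
    rw [h3]
    exact Finset.inf_sup F (fun _ => U) (fun i v => nb (y i) n' v)
  rw [h2, inf_comm, Finset.sup_inf_distrib_right]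
  refine Finset.sup_le fun g hg => ?_
  rw [Finset.mem_pi] at hg
  obtain ⟨i, -, j, -, hij, he⟩ := Finset.exists_ne_map_eq_of_card_lt_of_maps_to
    (s := F.attach) (t := U) (f := fun i => g i.1 i.2) (by rwa [Finset.card_attach])
    (fun i _ => hg i.1 i.2)
  have h3 : (F.attach.inf fun i => nb (y i.1) n' (g i.1 i.2)) ≤
      nb (y i.1) n' (g i.1 i.2) ⊓ nb (y j.1) n' (g i.1 i.2) := by
    refine le_inf (Finset.inf_le (Finset.mem_attach _ i)) ?_
    have h4 := Finset.inf_le (f := fun i : {x // x ∈ F} => nb (y i.1) n' (g i.1 i.2))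
      (Finset.mem_attach _ j)
    have he' : g i.1 i.2 = g j.1 j.2 := he
    rw [he']
    exact h4
  have h5 : (⨅ p ∈ F.offDiag, df (y p.1) (y p.2) n) ≤ df (y i.1) (y j.1) n' := by
    refine le_trans ?_ (A11a_df_mono _ _ hn)
    refine iInf₂_le (i.1, j.1) (Finset.mem_offDiag.2 ⟨i.2, j.2, fun h => hij (Subtype.ext h)⟩)
  exact (inf_le_inf h3 h5).trans (A11a_nb_df _ _ _ _).le

end Pool.Agent.LibFS55
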