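import Pool.Agent.LibFS55.Bool

/-! Good codes. -/

set_option autoImplicit false

namespace Pool.Agent.LibFS55

/-- There are only finitely many numbers of good codes with given first two components. -/
theorem good_finite (m l : ℕ) : {k | Good (code k) ∧ (code k).1 = m ∧ (code k).2.1 = l}.Finite := by
  have hinj : Function.Injective code := (Denumerable.eqv Cd).symm.injective
  refine Set.Finite.of_finite_image (f := code) ?_ hinj.injOn
  have h1 : (Set.range fun U : {U // U ∈ (Finset.range l).powerset.powerset} =>
      ((m, l, U.1) : Cd)).Finite := Set.finite_range _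
  refine h1.subset ?_
  rintro _ ⟨k, ⟨hg, h2, h3⟩, rfl⟩
  refine ⟨⟨(code k).2.2, ?_⟩, ?_⟩
  · rw [Finset.mem_powerset]
    intro v hv
    rw [Finset.mem_powerset, ← h3]
    exact hg.2 v hv
  · simp only
    rw [← h2, ← h3]

end Pool.Agent.LibFS55
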