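import Pool.Agent.LibFS55.A3
import Pool.Agent.LibFS55.A10
import Pool.Agent.LibFS55.A11a
import Pool.Agent.LibFS55.A12a

/-! The base step, one node. -/

set_option autoImplicit false

namespace Pool.Agent.LibFS55

variable {B : Type} [CompleteBooleanAlgebra B] {C C' : Set B} {st : List ℕ → B} {ι : Type}

/-- The set of the numbers of the good codes with first component `≥ M`. -/
def RM (M : ℕ) : Set ℕ := {k | Good (code k) ∧ M ≤ (code k).1}

theorem A11_top {P : Type} (s : Finset P) (f : P → ℕ → B) (hm : ∀ p ∈ s, Monotone (f p))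
    (ht : ∀ p ∈ s, ⨆ n, f p n = ⊤) : ⨆ n, ⨅ p ∈ s, f p n = ⊤ := by
  classical
  induction s using Finset.induction_on with
  | empty => simp
  | insert a s _ ih =>
    have h1 := ih (fun p hp => hm p (Finset.mem_insert_of_mem hp))
      fun p hp => ht p (Finset.mem_insert_of_mem hp)
    have h2 : ∀ n, ⨅ p ∈ insert a s, f p n = f a n ⊓ ⨅ p ∈ s, f p n := by
      intro n
      rw [Finset.iInf_insert]
    simp only [h2]
    rw [iSup_inf_of_monotone (hm a (Finset.mem_insert_self a s)), h1,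
      ht a (Finset.mem_insert_self a s), inf_top_eq]
    intro n n' hn
    exact iInf_mono fun p => iInf_mono fun hp => hm p (Finset.mem_insert_of_mem hp) hn

theorem A11_Tfin (t : List ℕ) :
    {k | Good (code k) ∧ ∃ hm : (code k).1 < t.length, t[(code k).1] = (code k).2.1}.Finite := by
  have h1 : {k | Good (code k) ∧ ∃ hm : (code k).1 < t.length, t[(code k).1] = (code k).2.1} ⊆
      ⋃ j : Fin t.length, {k | Good (code k) ∧ (code k).1 = j.1 ∧ (code k).2.1 = t[j.1]} := by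
    rintro k ⟨hk, hm, hl⟩
    exact Set.mem_iUnion.2 ⟨⟨(code k).1, hm⟩, hk, rfl, hl.symm⟩
  exact (Set.finite_iUnion fun j : Fin t.length => good_finite j.1 _).subset h1

/-- The part of the argument below one element `w`. -/
theorem A11_core (h : Step C C' st) (hC : IsSub C) {y : ι → ℕ → B}
    (hy : ∀ i k, y i k ∈ C) (A : ℕ → B) (M : ℕ) (s : List ℕ) (c : ι → B)
    (g : ι → List ℕ → ℕ → B) (F : Finset ι) (hF : F.Nonempty)
    (hc : ∀ i ∈ F, c i ∈ C) (hg : ∀ i ∈ F, Fn C (g i))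
    (hf : ∀ i ∈ F, ∀ k ∈ RM M, c i ⊓ tr st s (g i) ⊓ A k ≤
      dv st (code k).1 (code k).2.1 ⊓ ⨆ v ∈ (code k).2.2, nb (y i) (code k).2.1 v)
    (u : List ℕ) (hcard : (s ++ u).length + 1 < F.card) (n₁ n : ℕ) (hn : n₁ ≤ n) (w : B)
    (hw1 : ∀ i ∈ F, w ≤ c i ⊓ path (g i) s u) (hw2 : ∀ i ∈ F, w ≤ g i (s ++ u) n₁)
    (hw3 : ∀ U : Finset (Finset ℕ), U.card < F.card → w ≤ (⨅ i ∈ F, ⨆ v ∈ U, nb (y i) n v)ᶜ)
    (k : ℕ) (hk : k ∈ RM M)
    (hk' : ¬ ∃ hm : (code k).1 < (s ++ u).length, (s ++ u)[(code k).1] = (code k).2.1) :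
    w ⊓ fav C st A (s ++ u ++ [n]) k = ⊥ := by
  have hE : ∀ i ∈ F, c i ⊓ path (g i) s (u ++ [n]) ∈ C := fun i hi =>
    hC.inf (hc i hi) (path_mem hC (hg i hi).mem _ _)
  have hwE : ∀ i ∈ F, w ≤ c i ⊓ path (g i) s (u ++ [n]) := by
    intro i hi
    rw [path_snoc]
    refine le_inf ((hw1 i hi).trans inf_le_left) (le_inf ((hw1 i hi).trans inf_le_right) ?_)
    exact (hw2 i hi).trans ((hg i hi).mono _ hn)
  have h0 : ∀ i ∈ F, c i ⊓ path (g i) s (u ++ [n]) ⊓ tr st (s ++ u ++ [n]) (g i) ⊓ A k ≤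
      dv st (code k).1 (code k).2.1 ⊓ ⨆ v ∈ (code k).2.2, nb (y i) (code k).2.1 v := by
    intro i hi
    refine le_trans ?_ (hf i hi k hk)
    refine inf_le_inf_right _ ?_
    rw [inf_assoc]
    refine inf_le_inf_left _ ?_
    have h1 := h.tr_enter s (u ++ [n]) (g i)
    rwa [← List.append_assoc] at h1
  obtain ⟨i₀, hi₀⟩ := hF
  rcases le_or_gt ((s ++ u ++ [n]).length) (code k).1 with hm | hm
  · have h1 := fav_high h hC (hE i₀ hi₀) (hg i₀ hi₀) ((h0 i₀ hi₀).trans inf_le_left) hm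
    exact le_bot_iff.1 ((inf_le_inf_right _ (hwE i₀ hi₀)).trans h1.le)
  · by_cases hl : (s ++ u ++ [n])[(code k).1] = (code k).2.1
    · -- then the first component is `|t|`
      have hlen : (code k).1 = (s ++ u).length := by
        have h1 : (code k).1 ≤ (s ++ u).length := by
          rw [List.length_append, List.length_singleton] at hm
          omega
        rcases h1.lt_or_eq with h2 | h2
        · exfalso
          apply hk'
          refine ⟨h2, ?_⟩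
          rw [← hl, List.getElem_append_left h2]
        · exact h2
      have hln : (code k).2.1 = n := by
        rw [← hl]
        rw [List.getElem_append_right (by omega)]
        simp [hlen]
      have h1 : ∀ i ∈ F, w ⊓ fav C st A (s ++ u ++ [n]) k ≤
          ⨆ v ∈ (code k).2.2, nb (y i) n v := by
        intro i hi
        refine (inf_le_inf_right _ (hwE i hi)).trans ?_
        have h2 := h0 i hi
        rw [hln] at h2
        exact fav_le h hC (hE i hi) (hC.iSup fun v => hC.iSup fun _ => nb_mem hC (hy i) n v)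
          (hg i hi) (h2.trans inf_le_right)
      have h2 : w ≤ (⨅ i ∈ F, ⨆ v ∈ (code k).2.2, nb (y i) n v)ᶜ := by
        refine hw3 _ (lt_of_le_of_lt hk.1.1 ?_)
        rw [hlen]
        exact hcard
      have h3 : w ⊓ fav C st A (s ++ u ++ [n]) k ≤ ⨅ i ∈ F, ⨆ v ∈ (code k).2.2, nb (y i) n v :=
        le_iInf₂ h1
      rw [← le_bot_iff]
      calc w ⊓ fav C st A (s ++ u ++ [n]) k ≤ (⨅ i ∈ F, ⨆ v ∈ (code k).2.2, nb (y i) n v)ᶜ ⊓
            ⨅ i ∈ F, ⨆ v ∈ (code k).2.2, nb (y i) n v := le_inf (inf_le_left.trans h2) h3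
        _ = ⊥ := compl_inf_eq_bot
        _ ≤ ⊥ := le_rfl
    · have h1 := fav_low h hC (hE i₀ hi₀) (hg i₀ hi₀) ((h0 i₀ hi₀).trans inf_le_left) hm hl
      exact le_bot_iff.1 ((inf_le_inf_right _ (hwE i₀ hi₀)).trans h1.le)

theorem base_node (hB : CCB B) (h : Step C C' st) (hC : IsSub C) {y : ι → ℕ → B}
    (hy : ∀ i k, y i k ∈ C) (hd : ∀ i j, i ≠ j → dif (y i) (y j) = ⊤) (A : ℕ → B)
    (I : Set ι) (M : ℕ) (s : List ℕ) (c : ι → B) (g : ι → List ℕ → ℕ → B)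
    (hc : ∀ i ∈ I, c i ∈ C) (hg : ∀ i ∈ I, Fn C (g i))
    (hf : ∀ i ∈ I, ∀ k ∈ RM M, c i ⊓ tr st s (g i) ⊓ A k ≤
      dv st (code k).1 (code k).2.1 ⊓ ⨆ v ∈ (code k).2.2, nb (y i) (code k).2.1 v)
    (u : List ℕ) (hM : M ≤ (s ++ u).length) :
    {i ∈ I | c i ⊓ path (g i) s u ⊓ (Qv C st A (RM M) (s ++ u) ⊓
      ls (fun n => (Qv C st A (RM M) (s ++ u ++ [n]))ᶜ)) ≠ ⊥}.Countable := by
  classical
  obtain ⟨b, hb⟩ : ∃ b, b = Qv C st A (RM M) (s ++ u) ⊓
      ls (fun n => (Qv C st A (RM M) (s ++ u ++ [n]))ᶜ) := ⟨_, rfl⟩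
  rw [← hb]
  have hset : {i ∈ I | c i ⊓ path (g i) s u ⊓ b ≠ ⊥} =
      {i | (if i ∈ I then c i ⊓ path (g i) s u ⊓ b else ⊥) ≠ ⊥} := by
    ext i
    simp only [Set.mem_ofPred_eq]
    by_cases hi : i ∈ I
    · simp [hi]
    · simp [hi]
  rw [hset]
  refine countable_of_meet hB _ ((s ++ u).length + 2) fun F hcard => ?_
  by_cases hFI : ∀ i ∈ F, i ∈ I
  swap
  · push Not at hFI
    obtain ⟨i, hi, hi'⟩ := hFI
    rw [← le_bot_iff]
    refine (iInf₂_le i hi).trans ?_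
    rw [if_neg hi']
  have hFne : F.Nonempty := by
    rw [← Finset.card_pos]
    omega
  obtain ⟨w, hw⟩ : ∃ w, w = ⨅ i ∈ F, if i ∈ I then c i ⊓ path (g i) s u ⊓ b else ⊥ := ⟨_, rfl⟩
  rw [← hw]
  have hwi : ∀ i ∈ F, w ≤ c i ⊓ path (g i) s u ⊓ b := by
    intro i hi
    rw [hw]
    refine (iInf₂_le i hi).trans ?_
    rw [if_pos (hFI i hi)]
  have hwb : w ≤ b := by
    obtain ⟨i, hi⟩ := hFne
    exact (hwi i hi).trans inf_le_right
  have h1 : ⨆ n, ⨅ i ∈ F, g i (s ++ u) n = ⊤ :=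
    A11_top F (fun i n => g i (s ++ u) n) (fun i hi => (hg i (hFI i hi)).mono _)
      fun i hi => (hg i (hFI i hi)).top _
  have h2 := separate F hd
  have h3 : (⨆ n, (⨅ i ∈ F, g i (s ++ u) n) ⊓ ⨅ n' : ℕ, ⨅ (_ : n ≤ n'),
      ⨅ U : Finset (Finset ℕ), ⨅ (_ : U.card < F.card),
        (⨅ i ∈ F, ⨆ v ∈ U, nb (y i) n' v)ᶜ) = ⊤ := by
    rw [iSup_inf_of_monotone, h1, h2, inf_top_eq]
    · intro n n' hn
      exact iInf₂_mono fun i hi => (hg i (hFI i hi)).mono _ hn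
    · intro n n' hn
      exact le_iInf₂ fun k hk => iInf₂_le k (hn.trans hk)
  have h4 : w = w ⊓ ⊤ := (inf_top_eq w).symm
  rw [h4, ← h3, inf_iSup_eq, iSup_eq_bot]
  intro n₁
  obtain ⟨w', hw'⟩ : ∃ w', w' = w ⊓ ((⨅ i ∈ F, g i (s ++ u) n₁) ⊓ ⨅ n' : ℕ, ⨅ (_ : n₁ ≤ n'),
      ⨅ U : Finset (Finset ℕ), ⨅ (_ : U.card < F.card),
        (⨅ i ∈ F, ⨆ v ∈ U, nb (y i) n' v)ᶜ) := ⟨_, rfl⟩
  rw [← hw']
  have hww : w' ≤ w := hw' ▸ inf_le_left
  have hfin : ({k | Good (code k) ∧ ∃ hm : (code k).1 < (s ++ u).length,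
      (s ++ u)[(code k).1] = (code k).2.1} ∩ RM M).Finite := (A11_Tfin (s ++ u)).inter_of_left _
  have hkey : ∀ n, n₁ ≤ n → (Qv C st A (RM M) (s ++ u ++ [n]))ᶜ ⊓ w' ≤
      ⨆ k ∈ hfin.toFinset, fav C st A (s ++ u ++ [n]) k := by
    intro n hn
    have h5 : (Qv C st A (RM M) (s ++ u ++ [n]))ᶜ =
        ⨆ k, ⨆ (_ : k ∈ RM M), fav C st A (s ++ u ++ [n]) k := by
      unfold Qv
      simp only [compl_iInf, compl_compl]
    rw [h5, iSup_inf_eq]
    refine iSup_le fun k => ?_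
    rw [iSup_inf_eq]
    refine iSup_le fun hk => ?_
    by_cases hk' : ∃ hm : (code k).1 < (s ++ u).length, (s ++ u)[(code k).1] = (code k).2.1
    · refine inf_le_left.trans ?_
      exact le_iSup₂_of_le k (hfin.mem_toFinset.2 ⟨⟨hk.1, hk'⟩, hk⟩) le_rfl
    · rw [inf_comm, A11_core h hC hy A M s c g F hFne (fun i hi => hc i (hFI i hi))
        (fun i hi => hg i (hFI i hi)) (fun i hi => hf i (hFI i hi)) u (by omega) n₁ n hn w'
        (fun i hi => hww.trans ((hwi i hi).trans inf_le_left)) (fun i hi => ?_) (fun U hU => ?_)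
        k hk hk']
      · exact bot_le
      · rw [hw']
        exact (inf_le_right.trans inf_le_left).trans (iInf₂_le i hi)
      · rw [hw']
        refine (inf_le_right.trans inf_le_right).trans ?_
        exact (iInf₂_le n hn).trans (iInf₂_le U hU)
  have h6 : w' ≤ ls (fun n => (Qv C st A (RM M) (s ++ u ++ [n]))ᶜ ⊓ w') := by
    rw [ls_inf_const]
    refine le_inf ?_ le_rfl
    exact (hww.trans hwb).trans (hb ▸ inf_le_right)
  have h7 : w' ≤ (Qv C st A (RM M) (s ++ u))ᶜ := by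
    refine h6.trans ((ls_mono' n₁ hkey).trans ?_)
    rw [ls_finset]
    refine iSup₂_le fun k hk => ?_
    refine (fav_limsup h hC A (s ++ u) k).trans ?_
    have h8 : (Qv C st A (RM M) (s ++ u))ᶜ =
        ⨆ k, ⨆ (_ : k ∈ RM M), fav C st A (s ++ u) k := by
      unfold Qv
      simp only [compl_iInf, compl_compl]
    rw [h8]
    exact le_iSup₂_of_le k (hfin.mem_toFinset.1 hk).2 le_rfl
  have h9 : w' ≤ Qv C st A (RM M) (s ++ u) :=
    (hww.trans hwb).trans (hb ▸ inf_le_left)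
  rw [← le_bot_iff]
  calc w' ≤ Qv C st A (RM M) (s ++ u) ⊓ (Qv C st A (RM M) (s ++ u))ᶜ := le_inf h9 h7
    _ = ⊥ := inf_compl_eq_bot
    _ ≤ ⊥ := le_rfl

end Pool.Agent.LibFS55
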