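import Pool.Agent.LibFS55.A8
import Pool.Agent.LibFS55.A11
import Pool.Agent.LibFS55.A12a

/-! The base step. -/

set_option autoImplicit false

namespace Pool.Agent.LibFS55

variable {B : Type} [CompleteBooleanAlgebra B] {C C' : Set B} {st : List ℕ → B} {ι : Type}

private theorem A12_Zd_good (st : List ℕ → B) (y : ℕ → B) {k : ℕ} (hk : Good (code k)) :
    Zd st y k = (dv st (code k).1 (code k).2.1 ⊓
      ⨆ v ∈ (code k).2.2, nb y (code k).2.1 v)ᶜ := by
  unfold Zd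
  exact if_pos hk

private theorem A12_Zd_not (st : List ℕ → B) (y : ℕ → B) {k : ℕ} (hk : ¬ Good (code k)) :
    Zd st y k = ⊤ := by
  unfold Zd
  exact if_neg hk

private theorem A12_Zd_mem (h : Step C C' st) (hC' : IsSub C') {y : ℕ → B}
    (hy : ∀ k, y k ∈ C) (k : ℕ) : Zd st y k ∈ C' := by
  by_cases hk : Good (code k)
  · rw [A12_Zd_good st y hk]
    refine hC'.compl _ (hC'.inf (dv_mem h hC' _ _) ?_)
    exact hC'.iSup fun v => hC'.iSup fun _ => nb_mem hC' (fun k => h.le (hy k)) _ _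
  · rw [A12_Zd_not st y hk]
    exact hC'.top

/-- Nodes of each length in a tree. -/
private theorem A12_node (s : List ℕ) {g : List ℕ → ℕ → B} (hg : Fn C g) {c : B} (h0 : c ≠ ⊥)
    (n : ℕ) : ∃ u : List ℕ, u.length = n ∧ c ⊓ path g s u ≠ ⊥ := by
  induction n with
  | zero => exact ⟨[], rfl, by simpa [path] using h0⟩
  | succ n ih =>
    obtain ⟨u, hu, hc⟩ := ih
    have h1 : ∃ k, c ⊓ path g s u ⊓ g (s ++ u) k ≠ ⊥ := by
      by_contra hcon
      apply hc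
      have h2 : Disjoint (c ⊓ path g s u) (⨆ k, g (s ++ u) k) := by
        rw [disjoint_iSup_iff]
        intro k
        rw [disjoint_iff]
        by_contra h3
        exact hcon ⟨k, h3⟩
      rw [hg.top] at h2
      exact disjoint_top.1 h2
    obtain ⟨k, hk⟩ := h1
    refine ⟨u ++ [k], by simp [hu], ?_⟩
    rw [path_snoc, ← inf_assoc]
    exact hk

/-- Consequences of `dense` for `ls (A ⊓ Z) ≠ ⊤`. -/
private theorem A12_dense (h : Step C C' st) (hC' : IsSub C') {A Z : ℕ → B}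
    (hA : ∀ k, A k ∈ C') (hZ : ∀ k, Z k ∈ C') (hne : ls (fun k => A k ⊓ Z k) ≠ ⊤) :
    ∃ (m : ℕ) (s : List ℕ) (c : B) (g : List ℕ → ℕ → B), c ∈ C ∧ c ≠ ⊥ ∧ Fn C g ∧
      ∀ k, m ≤ k → c ⊓ tr st s g ⊓ A k ⊓ Z k = ⊥ := by
  have h1 : ∃ m : ℕ, (⨆ k : ℕ, ⨆ (_ : m ≤ k), A k ⊓ Z k) ≠ ⊤ := by
    by_contra hcon
    apply hne
    rw [← top_le_iff]
    refine le_ls fun m => ?_
    by_contra h2
    exact hcon ⟨m, fun h3 => h2 (by rw [h3])⟩
  obtain ⟨m, hm⟩ := h1
  set b := ⨆ k : ℕ, ⨆ (_ : m ≤ k), A k ⊓ Z k with hb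
  have hbC : b ∈ C' := hC'.iSup fun k => hC'.iSup fun _ => hC'.inf (hA k) (hZ k)
  have hb0 : bᶜ ≠ ⊥ := by
    intro h2
    exact hm (compl_eq_bot.1 h2)
  obtain ⟨c, hc, hc0, s, g, hg, hle⟩ := h.dense bᶜ (hC'.compl _ hbC) hb0
  refine ⟨m, s, c, g, hc, hc0, hg, fun k hk => ?_⟩
  have h3 : A k ⊓ Z k ≤ b := le_iSup₂_of_le (f := fun k (_ : m ≤ k) => A k ⊓ Z k) k hk le_rfl
  have h4 : c ⊓ tr st s g ⊓ A k ⊓ Z k ≤ bᶜ ⊓ b := by
    rw [inf_assoc]
    exact inf_le_inf hle h3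
  rw [compl_inf_self] at h4
  exact le_bot_iff.1 h4

theorem step_base (hB : CCB B) (h : Step C C' st) (hC : IsSub C) (hC' : IsSub C')
    {y : ι → ℕ → B} (hy : ∀ i k, y i k ∈ C) (hd : ∀ i j, i ≠ j → dif (y i) (y j) = ⊤) :
    Star C' (fun i => Zd st (y i)) := by
  classical
  intro A hA hls
  by_contra hunc
  set J : Set ι := {i | ls (fun k => A k ⊓ Zd st (y i) k) ≠ ⊤} with hJ
  have hex : ∀ i, ∃ (m : ℕ) (s : List ℕ) (c : B) (g : List ℕ → ℕ → B), i ∈ J →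
      (c ∈ C ∧ c ≠ ⊥ ∧ Fn C g ∧
      ∀ k, m ≤ k → c ⊓ tr st s g ⊓ A k ⊓ Zd st (y i) k = ⊥) := by
    intro i
    by_cases hi : i ∈ J
    · obtain ⟨m, s, c, g, hh⟩ := A12_dense h hC' hA
        (fun k => A12_Zd_mem h hC' (hy i) k) hi
      exact ⟨m, s, c, g, fun _ => hh⟩
    · exact ⟨0, [], ⊥, fun _ _ => ⊥, fun hi' => absurd hi' hi⟩
  choose m s c g hmain using hex
  obtain ⟨K, s₀, hI⟩ : ∃ (K : ℕ) (s₀ : List ℕ), ¬ {i | i ∈ J ∧ m i = K ∧ s i = s₀}.Countable := by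
    by_contra hcon
    apply hunc
    have h1 : J ⊆ ⋃ p : ℕ × List ℕ, {i | i ∈ J ∧ m i = p.1 ∧ s i = p.2} := by
      intro i hi
      exact Set.mem_iUnion.2 ⟨(m i, s i), hi, rfl, rfl⟩
    refine Set.Countable.mono h1 (Set.countable_iUnion fun p => ?_)
    by_contra h2
    exact hcon ⟨p.1, p.2, h2⟩
  set I : Set ι := {i | i ∈ J ∧ m i = K ∧ s i = s₀} with hIdef
  have hmainI : ∀ i ∈ I, c i ∈ C ∧ c i ≠ ⊥ ∧ Fn C (g i) ∧
      ∀ k, K ≤ k → c i ⊓ tr st s₀ (g i) ⊓ A k ⊓ Zd st (y i) k = ⊥ := by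
    rintro i ⟨hi, hK, hs⟩
    have := hmain i hi
    rw [hK, hs] at this
    exact this
  -- the bound `M`
  obtain ⟨M, hMs, hMK⟩ : ∃ M : ℕ, s₀.length ≤ M ∧ ∀ k, k < K → (code k).1 < M := by
    refine ⟨max s₀.length ((Finset.range K).sup fun k => (code k).1 + 1), le_max_left _ _,
      fun k hk => ?_⟩
    have h1 : (code k).1 + 1 ≤ (Finset.range K).sup fun k => (code k).1 + 1 :=
      Finset.le_sup (f := fun k => (code k).1 + 1) (Finset.mem_range.2 hk)
    have h2 := le_max_right s₀.length ((Finset.range K).sup fun k => (code k).1 + 1)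
    omega
  have hRK : ∀ k ∈ RM M, K ≤ k := by
    rintro k ⟨_, hk⟩
    by_contra h1
    have := hMK k (not_le.1 h1)
    omega
  have hf : ∀ i ∈ I, ∀ k, K ≤ k → Good (code k) → c i ⊓ tr st s₀ (g i) ⊓ A k ≤
      dv st (code k).1 (code k).2.1 ⊓ ⨆ v ∈ (code k).2.2, nb (y i) (code k).2.1 v := by
    intro i hi k hk hG
    have h1 := (hmainI i hi).2.2.2 k hk
    rw [A12_Zd_good st (y i) hG] at h1
    have h2 := disjoint_iff.2 h1
    rwa [disjoint_compl_right_iff] at h2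
  have hf0 : ∀ i ∈ I, ∀ k, K ≤ k → ¬ Good (code k) → c i ⊓ tr st s₀ (g i) ⊓ A k = ⊥ := by
    intro i hi k hk hG
    have h1 := (hmainI i hi).2.2.2 k hk
    rwa [A12_Zd_not st (y i) hG, inf_top_eq] at h1
  -- the choice of `i`
  obtain ⟨i, hi, hiu⟩ : ∃ i ∈ I, ∀ u, M ≤ (s₀ ++ u).length →
      c i ⊓ path (g i) s₀ u ⊓ (Qv C st A (RM M) (s₀ ++ u) ⊓
      ls (fun n => (Qv C st A (RM M) (s₀ ++ u ++ [n]))ᶜ)) = ⊥ := by
    by_contra hcon
    apply hI
    have h1 : I ⊆ ⋃ u : List ℕ, ⋃ (_ : M ≤ (s₀ ++ u).length),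
        {i ∈ I | c i ⊓ path (g i) s₀ u ⊓ (Qv C st A (RM M) (s₀ ++ u) ⊓
          ls (fun n => (Qv C st A (RM M) (s₀ ++ u ++ [n]))ᶜ)) ≠ ⊥} := by
      intro i hi
      by_contra h2
      apply hcon
      refine ⟨i, hi, fun u hu => ?_⟩
      by_contra h3
      exact h2 (Set.mem_iUnion₂.2 ⟨u, hu, hi, h3⟩)
    refine Set.Countable.mono h1 (Set.countable_iUnion fun u => Set.countable_iUnion fun hu => ?_)
    exact base_node hB h hC hy hd A I M s₀ c g (fun i hi => (hmainI i hi).1)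
      (fun i hi => (hmainI i hi).2.2.1) (fun i hi k hk => hf i hi k (hRK k hk) hk.1) u hu
  obtain ⟨hciC, hci0, hgi, -⟩ := hmainI i hi
  obtain ⟨u, hulen, hc'0⟩ := A12_node s₀ hgi hci0 (M - s₀.length)
  have htlen : (s₀ ++ u).length = M := by
    rw [List.length_append, hulen]
    omega
  set t := s₀ ++ u with ht
  set c' := c i ⊓ path (g i) s₀ u with hc'
  have hc'C : c' ∈ C := hC.inf hciC (path_mem hC hgi.mem s₀ u)
  have hpass : c' ⊓ tr st t (g i) ≤ c i ⊓ tr st s₀ (g i) := by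
    rw [hc', inf_assoc]
    exact inf_le_inf le_rfl (h.tr_enter s₀ u (g i))
  have hQ : c' ≤ Qv C st A (RM M) t := by
    unfold Qv
    refine le_iInf₂ fun k hk => ?_
    rw [le_compl_iff_disjoint_right, disjoint_iff]
    refine fav_high h hC hc'C hgi (m := (code k).1) (l := (code k).2.1) ?_ (by
      rw [htlen]; exact hk.2)
    exact ((inf_le_inf hpass le_rfl).trans (hf i hi k (hRK k hk) hk.1)).trans inf_le_left
  obtain ⟨g', hg', hg'g, hg'R⟩ := closure_arg h hC hC' hA (RM M) hc'C hgi hQ (by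
    intro u'
    have h1 := hiu (u ++ u') (by
      rw [← List.append_assoc, ← ht, List.length_append, htlen]
      omega)
    rw [path_append, ← List.append_assoc, ← ht, ← inf_assoc, ← inf_assoc, ← hc'] at h1
    have h2 := disjoint_iff.2 h1
    rw [← le_compl_iff_disjoint_right, compl_ls] at h2
    simpa only [compl_compl] using h2)
  have hpass' : c' ⊓ tr st t g' ≤ c' ⊓ tr st t (g i) :=
    le_inf inf_le_left (tr_mono st (fun t k => inf_le_right.trans (hg'g t k)) t)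
  -- the exceptional numbers
  obtain ⟨K', hK'⟩ : ∃ K' : ℕ, ∀ k, K' ≤ k → K ≤ k ∧ (Good (code k) → ∀ hm : (code k).1 < M,
      t[(code k).1]'(by rw [htlen]; exact hm) ≠ (code k).2.1) := by
    have hfin : (⋃ p ∈ (Finset.univ : Finset (Fin M)),
        {k | Good (code k) ∧ (code k).1 = p.1 ∧ (code k).2.1 = t[p.1]'(by
          rw [htlen]; exact p.2)}).Finite := by
      refine Set.Finite.biUnion (Finset.finite_toSet _) fun p _ => good_finite _ _
    obtain ⟨N, hN⟩ := hfin.bddAbove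
    refine ⟨max K (N + 1), fun k hk => ⟨(le_max_left _ _).trans hk, fun hG hm hl => ?_⟩⟩
    have h1 : k ∈ ⋃ p ∈ (Finset.univ : Finset (Fin M)),
        {k | Good (code k) ∧ (code k).1 = p.1 ∧ (code k).2.1 = t[p.1]'(by
          rw [htlen]; exact p.2)} :=
      Set.mem_biUnion (Finset.mem_coe.2 (Finset.mem_univ (⟨(code k).1, hm⟩ : Fin M))) ⟨hG, rfl, hl.symm⟩
    have h2 := hN h1
    have h3 := (le_max_right K (N + 1)).trans hk
    omega
  have hfinal : ∀ k, K' ≤ k → A k ⊓ (c' ⊓ tr st t g') = ⊥ := by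
    intro k hk
    obtain ⟨hKk, hex⟩ := hK' k hk
    rw [inf_comm]
    by_cases hG : Good (code k)
    · by_cases hm : (code k).1 < M
      · have h1 : c' ⊓ tr st t g' ⊓ A k ≤ dv st (code k).1 (code k).2.1 ⊓ st t := by
          refine le_inf ?_ ?_
          · refine (inf_le_inf (hpass'.trans hpass) le_rfl).trans ?_
            exact (hf i hi k hKk hG).trans inf_le_left
          · exact inf_le_left.trans (inf_le_right.trans (tr_le st t g'))
        rw [dv_st h (by rw [htlen]; exact hm) (hex hG hm)] at h1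
        exact le_bot_iff.1 h1
      · exact hg'R k ⟨hG, not_lt.1 hm⟩
    · have h1 : c' ⊓ tr st t g' ⊓ A k ≤ c i ⊓ tr st s₀ (g i) ⊓ A k :=
        inf_le_inf (hpass'.trans hpass) le_rfl
      rw [hf0 i hi k hKk hG] at h1
      exact le_bot_iff.1 h1
  have h1 : ls (fun k => A k ⊓ (c' ⊓ tr st t g')) = ⊥ := ls_eq_bot_of K' hfinal
  rw [ls_inf_const, hls, top_inf_eq] at h1
  exact h.ind c' hc'C hc'0 t g' hg' h1

end Pool.Agent.LibFS55
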