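import Pool.Agent.LibFS55.A2

/-! The limit step. -/

set_option autoImplicit false

namespace Pool.Agent.LibFS55

variable {B : Type} [CompleteBooleanAlgebra B] {ι : Type}

private theorem A13_uncountable {ι κ : Type} [Countable κ] {I : Set ι} (hI : ¬ I.Countable)
    (f : ι → κ) : ∃ x, ¬ {i ∈ I | f i = x}.Countable := by
  by_contra h
  push Not at h
  apply hI
  have h1 : I = ⋃ x, {i ∈ I | f i = x} := by
    ext i
    simp
  rw [h1]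
  exact Set.countable_iUnion h

theorem lim_star {J : Type} [LinearOrder J] {CC : J → Set B} {C' : Set B}
    (hsub : ∀ j, IsSub (CC j)) (hmono : ∀ i j, i ≤ j → CC i ⊆ CC j) (hC' : IsSub C')
    (hle : ∀ j, CC j ⊆ C')
    (hd : ∀ b ∈ C', b ≠ ⊥ → ∃ j, ∃ c ∈ CC j, c ≠ ⊥ ∧ c ≤ b)
    (hcof : (∃ D : Set J, D.Countable ∧ ∀ j, ∃ d ∈ D, j ≤ d) ∨
      ∀ A : ℕ → B, (∀ k, A k ∈ C') → ∃ j, ∀ k, A k ∈ CC j)
    {Z : ι → ℕ → B} (hZ : ∀ j i k, Z i k ∈ CC j) (h : ∀ j, Star (CC j) Z) : Star C' Z := by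
  intro A hA hlA
  rcases hcof with ⟨D, hD, hDc⟩ | hcof
  swap
  · obtain ⟨j, hj⟩ := hcof A hA
    exact h j A hj hlA
  by_contra hunc
  have h1 : ∀ i : ι, ls (fun k => A k ⊓ Z i k) ≠ ⊤ → ∃ m : ℕ, ∃ j : D, ∃ c ∈ CC j.1, c ≠ ⊥ ∧
      ∀ k, m ≤ k → A k ⊓ Z i k ⊓ c = ⊥ := by
    intro i hi
    obtain ⟨m, hm⟩ : ∃ m : ℕ, (⨆ k, ⨆ (_ : m ≤ k), A k ⊓ Z i k) ≠ ⊤ := by
      by_contra hcon
      push Not at hcon
      apply hi
      unfold ls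
      simp only [hcon, iInf_top]
    have hmem : (⨆ k, ⨆ (_ : m ≤ k), A k ⊓ Z i k)ᶜ ∈ C' := by
      refine hC'.compl _ (hC'.iSup fun k => hC'.iSup fun _ => ?_)
      have hne : Nonempty J := by
        obtain ⟨j, -⟩ := hd ⊤ hC'.top (by
          intro htb
          apply hi
          exact eq_top_of_bot_eq_top htb.symm _)
        exact ⟨j⟩
      exact hC'.inf (hA k) (hle (Classical.arbitrary J) (hZ _ i k))
    have hne : (⨆ k, ⨆ (_ : m ≤ k), A k ⊓ Z i k)ᶜ ≠ ⊥ := by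
      intro h2
      exact hm (compl_eq_bot.1 h2)
    obtain ⟨j, c, hc, hc0, hcle⟩ := hd _ hmem hne
    obtain ⟨d, hd', hjd⟩ := hDc j
    refine ⟨m, ⟨d, hd'⟩, c, hmono j d hjd hc, hc0, fun k hk => ?_⟩
    rw [← le_bot_iff]
    have h3 : A k ⊓ Z i k ≤ ⨆ k, ⨆ (_ : m ≤ k), A k ⊓ Z i k :=
      le_iSup₂ (f := fun k (_ : m ≤ k) => A k ⊓ Z i k) k hk
    exact (inf_le_inf h3 hcle).trans (inf_compl_self _).le
  have h1' : ∀ i : {i : ι | ls (fun k => A k ⊓ Z i k) ≠ ⊤}, ∃ m : ℕ, ∃ j : D, ∃ c ∈ CC j.1,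
      c ≠ ⊥ ∧ ∀ k, m ≤ k → A k ⊓ Z i k ⊓ c = ⊥ := fun i => h1 i.1 i.2
  choose m j c hc hc0 hcZ using h1'
  have : Countable D := hD.to_subtype
  have hunc' : ¬ (Set.univ : Set {i : ι | ls (fun k => A k ⊓ Z i k) ≠ ⊤}).Countable := by
    rw [Set.countable_univ_iff]
    exact fun hcon => hunc hcon
  obtain ⟨⟨m₀, j₀⟩, hI⟩ := A13_uncountable hunc' (fun i => (m i, j i))
  set I := {i ∈ (Set.univ : Set {i : ι | ls (fun k => A k ⊓ Z i k) ≠ ⊤}) |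
    (m i, j i) = (m₀, j₀)} with hIdef
  let A' : ℕ → B := fun k => sInf {x | x ∈ CC j₀.1 ∧ A k ≤ x}
  have hA'm : ∀ k, A' k ∈ CC j₀.1 := by
    intro k
    have h2 : A' k = ⨅ x : {x | x ∈ CC j₀.1 ∧ A k ≤ x}, x.1 := sInf_eq_iInf' _
    rw [h2]
    exact (hsub j₀.1).iInf fun x => x.2.1
  have hAA' : ∀ k, A k ≤ A' k := fun k => le_sInf fun x hx => hx.2
  have hlA' : ls A' = ⊤ := top_le_iff.1 (hlA ▸ ls_mono hAA')
  have h2 := h j₀.1 A' hA'm hlA'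
  obtain ⟨i, hiI, hi⟩ : ∃ i ∈ I, ls (fun k => A' k ⊓ Z i k) = ⊤ := by
    by_contra hcon
    push Not at hcon
    apply hI
    have h5 : (Subtype.val '' I).Countable := h2.mono (by
      rintro _ ⟨i, hi, rfl⟩
      exact hcon i hi)
    exact Set.countable_of_injective_of_countable_image Subtype.val_injective.injOn h5
  obtain ⟨-, hi2⟩ := hiI
  obtain ⟨hm, hj⟩ := Prod.mk.inj hi2
  have hci := hc i
  rw [hj] at hci
  have h3 : ∀ k, m₀ ≤ k → A' k ⊓ Z i k ⊓ c i = ⊥ := by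
    intro k hk
    have h4 := hcZ i k (hm ▸ hk)
    have h5 : A k ≤ (Z i k ⊓ c i)ᶜ := by
      rw [inf_assoc] at h4
      exact (disjoint_iff.2 h4).le_compl_right
    have h6 : A' k ≤ (Z i k ⊓ c i)ᶜ :=
      sInf_le ⟨(hsub _).compl _ ((hsub _).inf (hZ _ i k) hci), h5⟩
    rw [inf_assoc, ← le_bot_iff]
    exact (inf_le_inf_right _ h6).trans (compl_inf_self _).le
  have h4 : ls (fun k => A' k ⊓ Z i k) ⊓ c i = ⊥ := by
    rw [← ls_inf_const]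
    exact ls_eq_bot_of m₀ h3
  rw [hi, top_inf_eq] at h4
  exact hc0 i h4

end Pool.Agent.LibFS55
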