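import Pool.Agent.LibFS55.A14z
import Pool.Agent.LibFS55.A12a

/-! From the codes to the separation property. -/

set_option autoImplicit false

namespace Pool.Agent.LibFS55

variable {B : Type} [CompleteBooleanAlgebra B] {C C' : Set B} {st : List ℕ → B} {ι : Type}

private theorem A14b_nb (x y : ℕ → B) (l : ℕ) (v : Finset ℕ) :
    nb x l v ⊓ (nb y l v)ᶜ ≤ df y x l := by
  classical
  have h1 : (nb y l v)ᶜ = ⨆ k : ℕ, ⨆ (_ : k < l), (if k ∈ v then y k else (y k)ᶜ)ᶜ := by
    unfold nb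
    simp only [compl_iInf]
  rw [h1]
  simp only [inf_iSup_eq]
  refine iSup_le fun k => iSup_le fun hk => ?_
  have h2 : nb x l v ≤ if k ∈ v then x k else (x k)ᶜ := by
    unfold nb
    exact (iInf_le _ k).trans (iInf_le _ hk)
  refine (inf_le_inf_right _ h2).trans ?_
  have h3 : (y k ⊓ (x k)ᶜ ⊔ (y k)ᶜ ⊓ x k) ≤ df y x l := by
    unfold df
    exact le_iSup_of_le k (le_iSup_of_le hk le_rfl)
  refine le_trans ?_ h3
  split_ifs
  · rw [inf_comm]
    exact le_sup_right
  · rw [compl_compl, inf_comm]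
    exact le_sup_left

theorem cap_Zd (E : ℕ → B) (x : ℕ → ℕ → ℕ → B) (y : ℕ → B) (k : ℕ) :
    cap st E x k ⊓ Zd st y k ≤ E (code k).1 ⊓ esc (dv st) x y (code k).1 := by
  classical
  by_cases hG : Good (code k)
  · unfold cap Zd
    rw [if_pos hG, if_pos hG]
    generalize (code k).1 = m
    generalize (code k).2.1 = l
    generalize (code k).2.2 = U
    refine le_inf (inf_le_left.trans (inf_le_left.trans inf_le_left)) ?_
    unfold esc
    refine le_iInf fun j => le_iInf fun hj => ?_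
    refine le_iSup_of_le l ?_
    refine le_inf (inf_le_left.trans (inf_le_left.trans inf_le_right)) ?_
    have h1 : E m ⊓ dv st m l ⊓ (⨅ j : ℕ, ⨅ (_ : j ≤ m), ⨆ v ∈ U, nb (x m j) l v) ⊓
        (dv st m l ⊓ ⨆ v ∈ U, nb y l v)ᶜ ≤ ⨆ v ∈ U, nb (x m j) l v :=
      inf_le_left.trans (inf_le_right.trans ((iInf_le _ j).trans (iInf_le _ hj)))
    have h2 : E m ⊓ dv st m l ⊓ (⨅ j : ℕ, ⨅ (_ : j ≤ m), ⨆ v ∈ U, nb (x m j) l v) ⊓
        (dv st m l ⊓ ⨆ v ∈ U, nb y l v)ᶜ ≤ (⨆ v ∈ U, nb y l v)ᶜ := by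
      have h3 : E m ⊓ dv st m l ⊓ (⨅ j : ℕ, ⨅ (_ : j ≤ m), ⨆ v ∈ U, nb (x m j) l v) ⊓
        (dv st m l ⊓ ⨆ v ∈ U, nb y l v)ᶜ ≤ dv st m l ⊓ (dv st m l ⊓ ⨆ v ∈ U, nb y l v)ᶜ :=
        inf_le_inf_right _ (inf_le_left.trans inf_le_right)
      refine h3.trans ?_
      rw [compl_inf, inf_sup_left, inf_compl_self, bot_sup_eq]
      exact inf_le_right
    refine (le_inf h1 h2).trans ?_
    simp only [iSup_inf_eq]
    refine iSup_le fun v => iSup_le fun hv => ?_
    refine le_trans (inf_le_inf_left _ ?_) (A14b_nb (x m j) y l v)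
    exact compl_le_compl (le_iSup_of_le v (le_iSup_of_le hv le_rfl))
  · unfold cap
    rw [if_neg hG, bot_inf_eq]
    exact bot_le

private theorem A14b_cap_le {E : ℕ → B} {x : ℕ → ℕ → ℕ → B} {k : ℕ} (hG : Good (code k)) :
    cap st E x k ≤ dv st (code k).1 (code k).2.1 := by
  unfold cap
  rw [if_pos hG]
  exact inf_le_left.trans inf_le_right

open Classical in
private noncomputable def A14b_r (st : List ℕ → B) (m k : ℕ) : B :=
  if Good (code k) ∧ (code k).1 = m then dv st m (code k).2.1 else ⊥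

private theorem A14b_ls_r (h : Step C C' st) (m : ℕ) : ls (A14b_r st m) = ⊥ := by
  classical
  rw [eq_bot_iff, ← ls_disj (a := dv st m) fun k l hkl => dv_disj h m hkl]
  refine le_ls fun l₀ => ?_
  have hfin : (⋃ l ∈ Set.Iio l₀,
      {k | Good (code k) ∧ (code k).1 = m ∧ (code k).2.1 = l}).Finite :=
    (Set.finite_Iio l₀).biUnion fun l _ => good_finite m l
  obtain ⟨K, hK⟩ := hfin.bddAbove
  refine (ls_le _ (K + 1)).trans (iSup_le fun k => iSup_le fun hk => ?_)
  unfold A14b_r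
  split_ifs with hG
  · have h1 : l₀ ≤ (code k).2.1 := by
      by_contra hcon
      have h2 : k ∈ ⋃ l ∈ Set.Iio l₀,
          {k | Good (code k) ∧ (code k).1 = m ∧ (code k).2.1 = l} := by
        simp only [Set.mem_iUnion]
        exact ⟨(code k).2.1, by simpa using hcon, hG.1, hG.2, rfl⟩
      have h3 := hK h2
      omega
    exact le_iSup_of_le _ (le_iSup_of_le h1 le_rfl)
  · exact bot_le

theorem ls_esc (h : Step C C' st) (E : ℕ → B) (x : ℕ → ℕ → ℕ → B) (y : ℕ → B) :
    ls (fun k => cap st E x k ⊓ Zd st y k) ≤ ls fun m => E m ⊓ esc (dv st) x y m := by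
  classical
  refine le_ls fun m₀ => ?_
  have h1 : ls (fun k => cap st E x k ⊓ Zd st y k) ≤
      ls (fun k => (if m₀ ≤ (code k).1 then cap st E x k ⊓ Zd st y k else ⊥) ⊔
        ⨆ m ∈ Finset.range m₀, A14b_r st m k) := by
    refine ls_mono fun k => ?_
    by_cases hm : m₀ ≤ (code k).1
    · rw [if_pos hm]
      exact le_sup_left
    · refine le_trans ?_ le_sup_right
      by_cases hG : Good (code k)
      · refine le_iSup_of_le (code k).1 (le_iSup_of_le (Finset.mem_range.mpr (by omega)) ?_)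
        unfold A14b_r
        rw [if_pos ⟨hG, rfl⟩]
        exact inf_le_left.trans (A14b_cap_le hG)
      · unfold cap
        rw [if_neg hG, bot_inf_eq]
        exact bot_le
  refine h1.trans ?_
  rw [ls_sup, ls_finset]
  refine sup_le ?_ ?_
  · refine (ls_le _ 0).trans (iSup_le fun k => iSup_le fun _ => ?_)
    split_ifs with hm
    · exact le_iSup_of_le (code k).1 (le_iSup_of_le hm (cap_Zd E x y k))
    · exact bot_le
  · refine iSup_le fun m => iSup_le fun _ => ?_
    rw [A14b_ls_r h m]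
    exact bot_le

end Pool.Agent.LibFS55
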