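import Pool.Agent.LibFS55.A14a
import Pool.Agent.LibFS55.A14b

/-! From `Star` to the separation property. -/

set_option autoImplicit false

namespace Pool.Agent.LibFS55

variable {B : Type} [CompleteBooleanAlgebra B] {C C' : Set B} {st : List ℕ → B} {ι : Type}

theorem sep_of_star (h : Step C C' st) {y : ι → ℕ → B}
    (hS : Star (Set.univ : Set B) (fun i => Zd st (y i))) (E : ℕ → B) (x : ℕ → ℕ → ℕ → B) :
    {i | ¬ ls E ≤ ls fun m => E m ⊓ esc (dv st) x (y i) m}.Countable := by
  have h1 := hS.rel isSub_univ (A := cap st E x) (fun _ => trivial)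
  refine h1.mono ?_
  intro i hi hcon
  exact hi ((ls_cap h E x).trans (hcon.trans (ls_esc h E x (y i))))

end Pool.Agent.LibFS55
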