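import Pool.Agent.LibFS55.A14z

/-! The name of the set of the codes is infinite. -/

set_option autoImplicit false

namespace Pool.Agent.LibFS55

variable {B : Type} [CompleteBooleanAlgebra B] {C C' : Set B} {st : List ℕ → B} {ι : Type}

/-- Every subset of `ℕ` has some trace on `l`. -/
theorem A14a_nb_top (y : ℕ → B) (l : ℕ) :
    (⊤ : B) ≤ ⨆ v : Finset ℕ, ⨆ (_ : v ⊆ Finset.range l), nb y l v := by
  induction l with
  | zero =>
    refine le_iSup₂_of_le ∅ (Finset.empty_subset _) ?_
    refine le_iInf₂ fun k hk => ?_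
    exact absurd hk (Nat.not_lt_zero k)
  | succ l ih =>
    have h1 : (⊤ : B) ≤ (⨆ v : Finset ℕ, ⨆ (_ : v ⊆ Finset.range l), nb y l v) ⊓
        (y l ⊔ (y l)ᶜ) := le_inf ih (by rw [sup_compl_eq_top])
    refine h1.trans ?_
    rw [iSup_inf_eq]
    refine iSup_le fun v => ?_
    rw [iSup_inf_eq]
    refine iSup_le fun hv => ?_
    have hlv : l ∉ v := fun h => by
      have := hv h
      simp at this
    rw [inf_sup_left]
    refine sup_le ?_ ?_
    · refine le_iSup₂_of_le (insert l v) ?_ ?_
      · intro k hk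
        rw [Finset.mem_insert] at hk
        rw [Finset.mem_range]
        rcases hk with rfl | hk
        · exact Nat.lt_succ_self _
        · exact Nat.lt_succ_of_lt (Finset.mem_range.mp (hv hk))
      · refine le_iInf₂ fun k hk => ?_
        rcases Nat.lt_succ_iff_lt_or_eq.mp hk with hk' | rfl
        · refine inf_le_left.trans ((iInf₂_le k hk').trans ?_)
          by_cases hkv : k ∈ v
          · rw [if_pos hkv, if_pos (Finset.mem_insert_of_mem hkv)]
          · have : k ∉ insert l v := by
              rw [Finset.mem_insert]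
              rintro (rfl | h)
              · exact lt_irrefl _ hk'
              · exact hkv h
            rw [if_neg hkv, if_neg this]
        · rw [if_pos (Finset.mem_insert_self _ _)]
          exact inf_le_right
    · refine le_iSup₂_of_le v ?_ ?_
      · intro k hk
        rw [Finset.mem_range]
        exact Nat.lt_succ_of_lt (Finset.mem_range.mp (hv hk))
      · refine le_iInf₂ fun k hk => ?_
        rcases Nat.lt_succ_iff_lt_or_eq.mp hk with hk' | rfl
        · exact inf_le_left.trans (iInf₂_le k hk')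
        · rw [if_neg hlv]
          exact inf_le_right

/-- For finitely many subsets of `ℕ` some set `U` of at most as many finite sets captures the traces. -/
theorem A14a_capt (z : ℕ → ℕ → B) (l n : ℕ) :
    (⊤ : B) ≤ ⨆ U : Finset (Finset ℕ), ⨆ (_ : U.card ≤ n ∧ ∀ v ∈ U, v ⊆ Finset.range l),
      ⨅ j : ℕ, ⨅ (_ : j < n), ⨆ v ∈ U, nb (z j) l v := by
  classical
  induction n with
  | zero =>
    refine le_iSup₂_of_le ∅ ⟨by simp, fun v hv => by simp at hv⟩ ?_
    refine le_iInf₂ fun k hk => ?_
    exact absurd hk (Nat.not_lt_zero k)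
  | succ n ih =>
    have h1 := le_inf ih (A14a_nb_top (z n) l)
    refine h1.trans ?_
    rw [iSup_inf_eq]
    refine iSup_le fun U => ?_
    rw [iSup_inf_eq]
    refine iSup_le fun hU => ?_
    rw [inf_iSup_eq]
    refine iSup_le fun w => ?_
    rw [inf_iSup_eq]
    refine iSup_le fun hw => ?_
    refine le_iSup₂_of_le (insert w U) ⟨?_, ?_⟩ ?_
    · exact (Finset.card_insert_le _ _).trans (Nat.succ_le_succ hU.1)
    · intro v hv
      rw [Finset.mem_insert] at hv
      rcases hv with rfl | hv
      · exact hw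
      · exact hU.2 v hv
    · refine le_iInf₂ fun j hj => ?_
      rcases Nat.lt_succ_iff_lt_or_eq.mp hj with hj' | rfl
      · refine inf_le_left.trans ((iInf₂_le j hj').trans ?_)
        refine iSup₂_le fun v hv => ?_
        exact le_iSup₂_of_le v (Finset.mem_insert_of_mem hv) le_rfl
      · exact inf_le_right.trans (le_iSup₂_of_le w (Finset.mem_insert_self _ _) le_rfl)

theorem A14a_row (h : Step C C' st) (E : ℕ → B) (x : ℕ → ℕ → ℕ → B) (m : ℕ) :
    E m ≤ ⨆ k, ⨆ (_ : (code k).1 = m), cap st E x k := by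
  have h1 : E m ≤ E m ⊓ ⨆ l, dv st m l := le_inf le_rfl (by rw [dv_tot h]; exact le_top)
  refine h1.trans ?_
  rw [inf_iSup_eq]
  refine iSup_le fun l => ?_
  have h2 : E m ⊓ dv st m l ≤ (E m ⊓ dv st m l) ⊓
      ⨆ U : Finset (Finset ℕ), ⨆ (_ : U.card ≤ m + 1 ∧ ∀ v ∈ U, v ⊆ Finset.range l),
      ⨅ j : ℕ, ⨅ (_ : j < m + 1), ⨆ v ∈ U, nb (x m j) l v :=
    le_inf le_rfl (le_top.trans (A14a_capt (x m) l (m + 1)))
  refine h2.trans ?_
  rw [inf_iSup_eq]
  refine iSup_le fun U => ?_
  rw [inf_iSup_eq]
  refine iSup_le fun hU => ?_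
  obtain ⟨k, hc⟩ : ∃ k, code k = (m, l, U) :=
    ⟨@Encodable.encode Cd Denumerable.toEncodable (m, l, U), by
      unfold code; exact Denumerable.ofNat_encode _⟩
  refine le_iSup₂_of_le k (by rw [hc]) ?_
  have hg : Good (code k) := by
    rw [hc]
    exact hU
  unfold cap
  rw [if_pos hg, hc]
  refine inf_le_inf le_rfl ?_
  refine le_iInf₂ fun j hj => ?_
  exact iInf₂_le j (Nat.lt_succ_of_le hj)

theorem ls_cap (h : Step C C' st) (E : ℕ → B) (x : ℕ → ℕ → ℕ → B) : ls E ≤ ls (cap st E x) := by
  refine le_ls fun K => ?_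
  set M := (Finset.range K).sup (fun k => (code k).1) + 1 with hM
  refine (ls_le E M).trans ?_
  refine iSup₂_le fun m hm => ?_
  refine (A14a_row h E x m).trans ?_
  refine iSup₂_le fun k hk => ?_
  refine le_iSup₂_of_le k ?_ le_rfl
  by_contra hlt
  have h1 : (code k).1 ≤ (Finset.range K).sup (fun k => (code k).1) :=
    Finset.le_sup (f := fun k => (code k).1) (Finset.mem_range.mpr (Nat.lt_of_not_le hlt))
  omega

end Pool.Agent.LibFS55
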