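import Pool.Agent.LibFS55.A2
import Pool.Agent.LibFS55.A10

/-! The names of the codes. -/

set_option autoImplicit false

namespace Pool.Agent.LibFS55

variable {B : Type} [CompleteBooleanAlgebra B] {C C' : Set B} {st : List ℕ → B} {ι : Type}

theorem dv_fun (h : Step C C' st) : Fun (dv st) := ⟨dv_tot h, fun m _ _ => dv_disj h m⟩

open Classical in
/-- The name of the set of the (numbers of the) good codes `(m, l, U)` such that `m ∈ E`,
`d(m) = l` and `x_{m,j} ∩ l ∈ U` for all `j ≤ m`. -/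
noncomputable def cap (st : List ℕ → B) (E : ℕ → B) (x : ℕ → ℕ → ℕ → B) (k : ℕ) : B :=
  if Good (code k) then E (code k).1 ⊓ dv st (code k).1 (code k).2.1 ⊓
    ⨅ j : ℕ, ⨅ (_ : j ≤ (code k).1), ⨆ v ∈ (code k).2.2, nb (x (code k).1 j) (code k).2.1 v
  else ⊥

end Pool.Agent.LibFS55
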