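import Pool.Agent.LibFS55.A2
import Pool.Agent.LibFS55.A10

/-! The generic real dominates. -/

set_option autoImplicit false

namespace Pool.Agent.LibFS55

variable {B : Type} [CompleteBooleanAlgebra B] {C C' : Set B} {st : List ℕ → B}

theorem step_dom (h : Step C C' st) (hC : IsSub C) (hC' : IsSub C') {f : ℕ → ℕ → B}
    (hf : ∀ n k, f n k ∈ C) (hF : Fun f) : leF f (dv st) = ⊤ := by
  by_contra hne
  have hDC : leF f (dv st) ∈ C' := by
    unfold leF
    exact hC'.li fun n => hC'.iSup fun k => hC'.iSup fun l => hC'.iSup fun _ =>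
      hC'.inf (h.le (hf n k)) (dv_mem h hC' n l)
  have hD0 : (leF f (dv st))ᶜ ≠ ⊥ := fun h1 => hne (compl_eq_bot.1 h1)
  obtain ⟨c, hc, hc0, s, g, hg, hle⟩ := h.dense _ (hC'.compl _ hDC) hD0
  let X : List ℕ → ℕ → B := fun t k => ⨆ k' : ℕ, ⨆ (_ : k' ≤ k), f t.length k'
  let g' : List ℕ → ℕ → B := fun t k => g t k ⊓ X t k
  have hXmono : ∀ t, Monotone (X t) := by
    intro t m n hmn
    exact iSup_mono fun k' => iSup_mono' fun hk => ⟨hk.trans hmn, le_rfl⟩
  have hg' : Fn C g' := by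
    refine ⟨fun t k => hC.inf (hg.mem t k) (hC.iSup fun k' => hC.iSup fun _ => hf _ _),
      fun t m n hmn => inf_le_inf (hg.mono t hmn) (hXmono t hmn), fun t => ?_⟩
    have h1 : ⨆ k, (g t k ⊓ X t k) = (⨆ k, g t k) ⊓ ⨆ k, X t k :=
      iSup_inf_of_monotone (hg.mono t) (hXmono t)
    change ⨆ k, (g t k ⊓ X t k) = ⊤
    rw [h1, hg.top, top_inf_eq, ← top_le_iff, ← hF.tot t.length]
    exact iSup_mono fun k => le_iSup₂_of_le (f := fun k' (_ : k' ≤ k) => f t.length k') k le_rfl le_rfl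
  have hkey : tr st s g' ≤ leF f (dv st) := by
    unfold leF li
    refine le_iSup_of_le s.length (le_iInf₂ fun n hn => ?_)
    have h1 : tr st s g' ≤ ⨆ u : List ℕ, ⨆ (_ : u.length = n - s.length), ⨆ l : ℕ,
        st (s ++ u ++ [l]) := by
      refine (tr_le st s g').trans ((h.st_le s (n - s.length)).trans ?_)
      exact iSup_mono fun u => iSup_mono fun _ => h.tot (s ++ u)
    have h2 : tr st s g' ≤ ⨆ u : List ℕ, ⨆ (_ : u.length = n - s.length), ⨆ l : ℕ,
        tr st s g' ⊓ st (s ++ u ++ [l]) := by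
      have h3 := le_inf (le_refl (tr st s g')) h1
      simpa only [inf_iSup_eq] using h3
    refine h2.trans (iSup_le fun u => iSup_le fun hu => iSup_le fun l => ?_)
    have hlen : (s ++ u).length = n := by
      rw [List.length_append, hu]
      omega
    have h4 : tr st s g' ⊓ st (s ++ u ++ [l]) ≤ X (s ++ u) l := by
      have h5 := tr_obey st s (u ++ [l]) g'
      rw [path_snoc, ← List.append_assoc] at h5
      exact h5.trans (inf_le_right.trans inf_le_right)
    have h6 : st (s ++ u ++ [l]) ≤ dv st n l := by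
      unfold dv
      exact le_iSup₂_of_le (f := fun t (_ : t.length = n) => st (t ++ [l])) (s ++ u) hlen le_rfl
    have h7 : tr st s g' ⊓ st (s ++ u ++ [l]) ≤ X (s ++ u) l ⊓ dv st n l :=
      le_inf h4 (inf_le_right.trans h6)
    refine h7.trans ?_
    change (⨆ k' : ℕ, ⨆ (_ : k' ≤ l), f (s ++ u).length k') ⊓ dv st n l ≤ _
    rw [hlen]
    simp only [iSup_inf_eq]
    refine iSup_le fun k' => iSup_le fun hk' => ?_
    exact le_iSup_of_le k' (le_iSup_of_le l (le_iSup_of_le hk' le_rfl))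
  have h8 : c ⊓ tr st s g' ≤ c ⊓ tr st s g :=
    le_inf inf_le_left (tr_mono st (fun t k => inf_le_right.trans inf_le_left) s)
  have h9 : c ⊓ tr st s g' ≤ (leF f (dv st))ᶜ ⊓ leF f (dv st) :=
    le_inf (h8.trans hle) (inf_le_right.trans hkey)
  rw [compl_inf_self] at h9
  exact h.ind c hc hc0 s g' hg' (le_bot_iff.1 h9)

end Pool.Agent.LibFS55
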