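import Pool.Agent.LibFS55.A1

/-! Upper and lower limits, and the relative form of `Star`. -/

set_option autoImplicit false

namespace Pool.Agent.LibFS55

variable {B : Type} [CompleteBooleanAlgebra B] {C : Set B}

theorem ls_mono {a b : ℕ → B} (h : ∀ k, a k ≤ b k) : ls a ≤ ls b := by
  exact iInf_mono fun m => iSup_mono fun k => iSup_mono fun _ => h k

theorem li_mono {a b : ℕ → B} (h : ∀ k, a k ≤ b k) : li a ≤ li b := by
  exact iSup_mono fun m => iInf_mono fun k => iInf_mono fun _ => h k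

/-- Only the values for large `k` matter. -/
theorem ls_mono' {a b : ℕ → B} (m : ℕ) (h : ∀ k, m ≤ k → a k ≤ b k) : ls a ≤ ls b := by
  refine le_iInf fun n => (iInf_le _ (max m n)).trans (iSup₂_le fun k hk => ?_)
  exact (h k ((le_max_left m n).trans hk)).trans
    (le_iSup₂ (f := fun k (_ : n ≤ k) => b k) k ((le_max_right m n).trans hk))

theorem ls_inf_const (a : ℕ → B) (c : B) : ls (fun k => a k ⊓ c) = ls a ⊓ c := by
  apply le_antisymm
  · refine le_inf (ls_mono fun k => inf_le_left) ?_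
    exact (iInf_le _ 0).trans (iSup₂_le fun k _ => inf_le_right)
  · refine le_iInf fun m => ?_
    refine (inf_le_inf_right c (iInf_le _ m)).trans ?_
    rw [iSup₂_inf_eq]

theorem ls_sup (a b : ℕ → B) : ls (fun k => a k ⊔ b k) = ls a ⊔ ls b := by
  have hanti : ∀ c : ℕ → B, Antitone fun m : ℕ => ⨆ k : ℕ, ⨆ (_ : m ≤ k), c k := by
    intro c m n hmn
    exact iSup₂_le fun k hk => le_iSup₂ (f := fun k (_ : m ≤ k) => c k) k (hmn.trans hk)
  unfold ls
  rw [← iInf_sup_of_antitone (hanti a) (hanti b)]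
  refine iInf_congr fun m => ?_
  rw [← iSup_sup_eq]
  exact iSup_congr fun k => iSup_sup_eq

theorem compl_ls (a : ℕ → B) : (ls a)ᶜ = li fun k => (a k)ᶜ := by
  unfold ls li
  rw [compl_iInf]
  refine iSup_congr fun m => ?_
  rw [compl_iSup]
  exact iInf_congr fun k => compl_iSup

theorem compl_li (a : ℕ → B) : (li a)ᶜ = ls fun k => (a k)ᶜ := by
  unfold ls li
  rw [compl_iSup]
  refine iInf_congr fun m => ?_
  rw [compl_iInf]
  exact iSup_congr fun k => compl_iInf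

theorem ls_le (a : ℕ → B) (m : ℕ) : ls a ≤ ⨆ k, ⨆ (_ : m ≤ k), a k := by
  exact iInf_le _ m

theorem le_ls {a : ℕ → B} {c : B} (h : ∀ m, c ≤ ⨆ k, ⨆ (_ : m ≤ k), a k) : c ≤ ls a := by
  exact le_iInf h

theorem ls_eq_bot_of {a : ℕ → B} (m : ℕ) (h : ∀ k, m ≤ k → a k = ⊥) : ls a = ⊥ := by
  exact le_bot_iff.1 ((ls_le a m).trans (iSup₂_le fun k hk => (h k hk).le))

/-- Upper limit of a finite union. -/
theorem ls_finset {ι : Type} (F : Finset ι) (a : ι → ℕ → B) :
    ls (fun k => ⨆ i ∈ F, a i k) = ⨆ i ∈ F, ls (a i) := by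
  classical
  induction F using Finset.induction_on with
  | empty =>
    have h1 : ls (fun k => ⨆ i ∈ (∅ : Finset ι), a i k) = ⊥ :=
      ls_eq_bot_of 0 fun k _ => by simp
    rw [h1]
    simp
  | insert i F _ ih =>
    rw [Finset.iSup_insert, ← ih, ← ls_sup]
    congr 1
    funext k
    rw [Finset.iSup_insert]

theorem ls_disj {a : ℕ → B} (h : ∀ k l, k ≠ l → a k ⊓ a l = ⊥) : ls a = ⊥ := by
  have h1 : ∀ k, ls a ⊓ a k = ⊥ := by
    intro k
    refine le_bot_iff.1 ((inf_le_inf_right (a k) (ls_le a (k + 1))).trans ?_)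
    rw [iSup₂_inf_eq]
    exact iSup₂_le fun l hl => (h l k (by omega)).le
  have h2 : ls a ≤ ⨆ k, a k :=
    (ls_le a 0).trans (iSup₂_le fun k _ => le_iSup a k)
  refine le_bot_iff.1 ((le_inf le_rfl h2).trans ?_)
  rw [inf_iSup_eq]
  exact iSup_le fun k => (h1 k).le

/-- The relative form of `Star`. -/
theorem Star.rel {ι : Type} {Z : ι → ℕ → B} (hC : IsSub C) (h : Star C Z) {A : ℕ → B}
    (hA : ∀ k, A k ∈ C) : {i | ¬ ls A ≤ ls (fun k => A k ⊓ Z i k)}.Countable := by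
  have hconst : ∀ c : B, ls (fun _ => c) = c := by
    intro c
    apply le_antisymm
    · exact (ls_le _ 0).trans (iSup₂_le fun _ _ => le_rfl)
    · exact le_ls fun m => le_iSup₂ (f := fun (k : ℕ) (_ : m ≤ k) => c) m le_rfl
  have hA' : ∀ k, A k ⊔ (ls A)ᶜ ∈ C := fun k => hC.sup (hA k) (hC.compl _ (hC.ls hA))
  have h1 : ls (fun k => A k ⊔ (ls A)ᶜ) = ⊤ := by
    rw [ls_sup, hconst, sup_compl_eq_top]
  refine Set.Countable.mono ?_ (h _ hA' h1)
  intro i hi hcon
  refine hi ?_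
  have hcon' : ls (fun k => (A k ⊔ (ls A)ᶜ) ⊓ Z i k) = ⊤ := hcon
  have h2 : ls A = ls (fun k => (A k ⊔ (ls A)ᶜ) ⊓ Z i k ⊓ ls A) := by
    rw [ls_inf_const, hcon', top_inf_eq]
  rw [h2]
  refine ls_mono fun k => ?_
  refine le_inf ?_ (inf_le_left.trans inf_le_right)
  have h3 : (A k ⊔ (ls A)ᶜ) ⊓ Z i k ⊓ ls A ≤ (A k ⊔ (ls A)ᶜ) ⊓ ls A :=
    inf_le_inf_right _ inf_le_left
  refine h3.trans ?_
  rw [inf_sup_right, compl_inf_eq_bot, sup_bot_eq]
  exact inf_le_left

end Pool.Agent.LibFS55
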