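import Pool.Agent.LibFS55.Bool

/-! Linked families under the countable chain condition. -/

set_option autoImplicit false

namespace Pool.Agent.LibFS55

variable {B : Type} [CompleteBooleanAlgebra B]

/-- If `x i` (`i ∈ I`, `I` uncountable) are different from `⊥` then there is a countable set `D` such
that for each countable `D' ⊇ D`: `⨆ i ∈ I \ D', x i = ⨆ i ∈ I \ D, x i`. -/
theorem exists_core (hB : CCB B) {ι : Type} (x : ι → B) (I : Set ι) :
    ∃ e : B, ∃ D : Set ι, D.Countable ∧ (∀ i ∈ I, i ∉ D → x i ≤ e) ∧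
      ∀ D' : Set ι, D'.Countable → e ≤ ⨆ i, ⨆ (_ : i ∈ I ∧ i ∉ D'), x i := by
  let P : B → Set ι := fun c => {i | i ∈ I ∧ x i ⊓ c ≠ ⊥}
  let S : Set (Set B) := {T | (∀ c ∈ T, c ≠ ⊥ ∧ (P c).Countable) ∧
    ∀ a ∈ T, ∀ b ∈ T, a ≠ b → a ⊓ b = ⊥}
  obtain ⟨T, hT⟩ : ∃ T, Maximal (· ∈ S) T := by
    refine zorn_subset S fun c hc hch => ?_
    refine ⟨⋃₀ c, ⟨?_, ?_⟩, fun s hs => Set.subset_sUnion_of_mem hs⟩
    · rintro d ⟨t, ht, hd⟩
      exact (hc ht).1 d hd
    · rintro a ⟨s, hs, ha⟩ b ⟨t, ht, hb⟩ hab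
      rcases hch.total hs ht with h | h
      · exact (hc ht).2 a (h ha) b hb hab
      · exact (hc hs).2 a ha b (h hb) hab
  have hTS := hT.prop
  have hTc : T.Countable := by
    have := hB T (fun j => j.1) (fun j => (hTS.1 j.1 j.2).1)
      (fun i j hij => hTS.2 i.1 i.2 j.1 j.2 (fun h => hij (Subtype.ext h)))
    exact Set.countable_coe_iff.1 this
  refine ⟨(sSup T)ᶜ, ⋃ c ∈ T, P c, hTc.biUnion fun c hc => (hTS.1 c hc).2, ?_, ?_⟩
  · intro i hi hiD
    rw [le_compl_iff_disjoint_right, disjoint_sSup_iff]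
    intro c hc
    rw [disjoint_iff]
    by_contra h
    exact hiD (Set.mem_biUnion hc ⟨hi, h⟩)
  · intro D' hD'
    by_contra hne
    set y := ⨆ i, ⨆ (_ : i ∈ I ∧ i ∉ D'), x i with hy
    have hd : (sSup T)ᶜ ⊓ yᶜ ≠ ⊥ := by
      intro h
      apply hne
      have := disjoint_iff.2 h
      rw [disjoint_compl_right_iff] at this
      exact this
    set d := (sSup T)ᶜ ⊓ yᶜ with hdd
    have hPd : (P d).Countable := by
      refine hD'.mono ?_
      rintro i ⟨hi, hi'⟩
      by_contra hiD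
      apply hi'
      have h1 : x i ≤ y := le_iSup₂_of_le (f := fun i (_ : i ∈ I ∧ i ∉ D') => x i) i ⟨hi, hiD⟩ le_rfl
      have h2 : x i ⊓ d ≤ y ⊓ yᶜ := inf_le_inf h1 inf_le_right
      rw [inf_compl_self] at h2
      exact le_bot_iff.1 h2
    have hdT : ∀ a ∈ T, a ⊓ d = ⊥ := by
      intro a ha
      have h2 : a ⊓ d ≤ sSup T ⊓ (sSup T)ᶜ := inf_le_inf (le_sSup ha) inf_le_left
      rw [inf_compl_self] at h2
      exact le_bot_iff.1 h2
    have hins : insert d T ∈ S := by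
      refine ⟨?_, ?_⟩
      · intro c hc
        rcases hc with rfl | hc
        · exact ⟨hd, hPd⟩
        · exact hTS.1 c hc
      · rintro a (rfl | ha) b (rfl | hb) hab
        · exact absurd rfl hab
        · rw [inf_comm]; exact hdT b hb
        · exact hdT a ha
        · exact hTS.2 a ha b hb hab
    have hmem : d ∈ T := hT.le_of_ge hins (Set.subset_insert d T) (Set.mem_insert d T)
    have := hdT d hmem
    rw [inf_idem] at this
    exact hd this

theorem exists_finset_meet (hB : CCB B) {ι : Type} (x : ι → B)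
    (hx : ¬ {i | x i ≠ ⊥}.Countable) (N : ℕ) :
    ∃ F : Finset ι, F.card = N ∧ (⨅ i ∈ F, x i) ≠ ⊥ := by
  classical
  obtain ⟨e, D, hD, h1, h2⟩ := exists_core hB x {i | x i ≠ ⊥}
  obtain ⟨i₀, hi₀, hi₀D⟩ : ∃ i, x i ≠ ⊥ ∧ i ∉ D := by
    by_contra hcon
    apply hx
    refine hD.mono fun i hi => ?_
    by_contra hiD
    exact hcon ⟨i, hi, hiD⟩
  have key : ∀ n : ℕ, ∃ F : Finset ι, F.card = n + 1 ∧ (⨅ i ∈ F, x i) ≠ ⊥ ∧
      (⨅ i ∈ F, x i) ≤ e := by
    intro n
    induction n with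
    | zero =>
      refine ⟨{i₀}, by simp, ?_, ?_⟩
      · simpa using hi₀
      · simpa using h1 i₀ hi₀ hi₀D
    | succ n ih =>
      obtain ⟨F, hF, hF0, hFe⟩ := ih
      have h3 := hFe.trans (h2 (F : Set ι) F.countable_toSet)
      have h4 : ∃ i, i ∉ F ∧ (⨅ i ∈ F, x i) ⊓ x i ≠ ⊥ := by
        by_contra hcon
        apply hF0
        have h5 : Disjoint (⨅ i ∈ F, x i) (⨆ i, ⨆ (_ : i ∈ {i | x i ≠ ⊥} ∧ i ∉ (F : Set ι)), x i) := by
          rw [disjoint_iSup₂_iff]
          intro i hi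
          rw [disjoint_iff]
          by_contra h6
          exact hcon ⟨i, fun h => hi.2 (Finset.mem_coe.2 h), h6⟩
        have h7 := disjoint_iff.1 h5
        rw [inf_eq_left.2 h3] at h7
        exact h7
      obtain ⟨i, hiF, hi⟩ := h4
      refine ⟨insert i F, by rw [Finset.card_insert_of_notMem hiF, hF], ?_, ?_⟩
      · rw [Finset.iInf_insert, inf_comm]
        exact hi
      · rw [Finset.iInf_insert]
        exact inf_le_right.trans hFe
  rcases N with _ | n
  · refine ⟨∅, rfl, ?_⟩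
    intro h
    apply hi₀
    have h8 : (⊤ : B) = ⊥ := by simpa using h
    rw [← le_bot_iff, ← h8]
    exact le_top
  · obtain ⟨F, hF, hF0, _⟩ := key n
    exact ⟨F, hF, hF0⟩

theorem countable_of_meet (hB : CCB B) {ι : Type} (x : ι → B) (N : ℕ)
    (h : ∀ F : Finset ι, F.card = N → (⨅ i ∈ F, x i) = ⊥) : {i | x i ≠ ⊥}.Countable := by
  by_contra hx
  obtain ⟨F, hF, hF'⟩ := exists_finset_meet hB x hx N
  exact hF' (h F hF)

end Pool.Agent.LibFS55
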