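import Pool.Agent.LibFS55.A1

/-! Paths and trees. -/

set_option autoImplicit false

namespace Pool.Agent.LibFS55

variable {B : Type} [CompleteBooleanAlgebra B] {C C' : Set B} {st : List ℕ → B}

theorem path_append (g : List ℕ → ℕ → B) (s u v : List ℕ) :
    path g s (u ++ v) = path g s u ⊓ path g (s ++ u) v := by
  induction u generalizing s with
  | nil => simp [path]
  | cons k u ih =>
    simp only [List.cons_append, path]
    rw [ih (s ++ [k]), List.append_assoc, List.singleton_append, inf_assoc]

theorem path_snoc (g : List ℕ → ℕ → B) (s u : List ℕ) (k : ℕ) :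
    path g s (u ++ [k]) = path g s u ⊓ g (s ++ u) k := by
  rw [path_append]
  simp [path]

theorem path_mem (hC : IsSub C) {g : List ℕ → ℕ → B} (hg : ∀ t k, g t k ∈ C) (s u : List ℕ) :
    path g s u ∈ C := by
  induction u generalizing s with
  | nil => exact hC.top
  | cons k u ih => exact hC.inf (hg s k) (ih (s ++ [k]))

theorem path_mono {g g' : List ℕ → ℕ → B} {c : B} (h : ∀ t k, c ⊓ g' t k ≤ g t k)
    (s u : List ℕ) : c ⊓ path g' s u ≤ path g s u := by
  induction u generalizing s with
  | nil => exact le_top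
  | cons k u ih =>
    simp only [path]
    refine le_inf ?_ ?_
    · exact le_trans (inf_le_inf_left c inf_le_left) (h s k)
    · exact le_trans (inf_le_inf_left c inf_le_right) (ih (s ++ [k]))

theorem Fn.inf {g g' : List ℕ → ℕ → B} (hC : IsSub C) (h : Fn C g) (h' : Fn C g') :
    Fn C fun t k => g t k ⊓ g' t k := by
  refine ⟨fun t k => hC.inf (h.mem t k) (h'.mem t k),
    fun t a b hab => inf_le_inf (h.mono t hab) (h'.mono t hab), fun t => ?_⟩
  rw [iSup_inf_of_monotone (h.mono t) (h'.mono t), h.top t, h'.top t, inf_top_eq]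

/-- `g` with all values at least `l`. -/
theorem Fn.above {g : List ℕ → ℕ → B} (hC : IsSub C) (h : Fn C g) (l : ℕ) :
    Fn C fun t k => if l ≤ k then g t k else ⊥ := by
  refine ⟨fun t k => ?_, fun t a b hab => ?_, fun t => ?_⟩
  · split_ifs
    · exact h.mem t k
    · exact hC.bot
  · split_ifs with h1 h2
    · exact h.mono t hab
    · exact absurd (le_trans h1 hab) h2
    · exact bot_le
    · exact le_rfl
  · refine top_le_iff.1 ?_
    rw [← h.top t]
    refine iSup_le fun k => le_trans (h.mono t (le_max_left k l)) ?_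
    refine le_iSup_of_le (max k l) ?_
    rw [if_pos (le_max_right k l)]

theorem fn_top (hC : IsSub C) : Fn C fun _ _ => (⊤ : B) :=
  ⟨fun _ _ => hC.top, fun _ _ _ _ => le_rfl, fun _ => iSup_const⟩

theorem tr_le (st : List ℕ → B) (s : List ℕ) (g : List ℕ → ℕ → B) : tr st s g ≤ st s :=
  inf_le_left

theorem tr_obey (st : List ℕ → B) (s u : List ℕ) (g : List ℕ → ℕ → B) :
    tr st s g ⊓ st (s ++ u) ≤ path g s u := by
  refine le_trans (inf_le_inf_right _ (le_trans inf_le_right (iInf_le _ u))) ?_
  exact himp_inf_le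

theorem tr_mono (st : List ℕ → B) {g g' : List ℕ → ℕ → B} {c : B}
    (h : ∀ t k, c ⊓ g' t k ≤ g t k) (s : List ℕ) : c ⊓ tr st s g' ≤ tr st s g := by
  refine le_inf (le_trans inf_le_right inf_le_left) (le_iInf fun u => le_himp_iff.2 ?_)
  rw [inf_assoc]
  exact le_trans (inf_le_inf_left c (tr_obey st s u g')) (path_mono h s u)

theorem A4_split {s t : List ℕ} (h1 : ¬ s <+: t) (h2 : ¬ t <+: s) :
    ∃ (p : List ℕ) (a b : ℕ) (s' t' : List ℕ), a ≠ b ∧ s = p ++ a :: s' ∧ t = p ++ b :: t' := by
  induction s generalizing t with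
  | nil => exact absurd List.nil_prefix h1
  | cons a s ih =>
    cases t with
    | nil => exact absurd List.nil_prefix h2
    | cons b t =>
      by_cases hab : a = b
      · subst hab
        obtain ⟨p, x, y, s', t', hxy, hs, ht⟩ := ih (t := t)
          (fun h => h1 (List.cons_prefix_cons.2 ⟨rfl, h⟩))
          (fun h => h2 (List.cons_prefix_cons.2 ⟨rfl, h⟩))
        exact ⟨a :: p, x, y, s', t', hxy, by rw [hs]; rfl, by rw [ht]; rfl⟩
      · exact ⟨[], a, b, s, t, hab, rfl, rfl⟩

namespace Step

variable (h : Step C C' st)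

include h

theorem st_append (s u : List ℕ) : st (s ++ u) ≤ st s := by
  induction u using List.reverseRecOn with
  | nil => simp
  | append_singleton u k ih =>
    rw [← List.append_assoc]
    exact le_trans (h.ext _ _) ih

theorem st_prefix {s t : List ℕ} (hst : s <+: t) : st t ≤ st s := by
  obtain ⟨u, rfl⟩ := hst
  exact h.st_append s u

theorem st_disj {s t : List ℕ} (h1 : ¬ s <+: t) (h2 : ¬ t <+: s) : st s ⊓ st t = ⊥ := by
  obtain ⟨p, a, b, s', t', hab, rfl, rfl⟩ := A4_split h1 h2
  refine le_bot_iff.1 ?_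
  rw [← h.disj p a b hab]
  refine inf_le_inf ?_ ?_
  · have := h.st_append (p ++ [a]) s'
    rwa [List.append_assoc, List.singleton_append] at this
  · have := h.st_append (p ++ [b]) t'
    rwa [List.append_assoc, List.singleton_append] at this

theorem tr_enter (s u : List ℕ) (g : List ℕ → ℕ → B) :
    path g s u ⊓ tr st (s ++ u) g ≤ tr st s g := by
  refine le_inf (le_trans inf_le_right (le_trans (tr_le st _ g) (h.st_append s u))) ?_
  refine le_iInf fun v => le_himp_iff.2 ?_
  by_cases hvu : v <+: u
  · obtain ⟨w, rfl⟩ := hvu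
    rw [path_append]
    exact le_trans inf_le_left (le_trans inf_le_left inf_le_left)
  · by_cases huv : u <+: v
    · obtain ⟨w, rfl⟩ := huv
      rw [path_append]
      refine le_inf (le_trans inf_le_left inf_le_left) ?_
      rw [← List.append_assoc]
      exact le_trans (inf_le_inf_right _ inf_le_right) (tr_obey st (s ++ u) w g)
    · have hd : st (s ++ u) ⊓ st (s ++ v) = ⊥ := by
        refine h.st_disj ?_ ?_
        · rw [List.prefix_append_right_inj]; exact huv
        · rw [List.prefix_append_right_inj]; exact hvu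
      refine le_trans ?_ bot_le
      rw [← hd]
      exact inf_le_inf_right _ (le_trans inf_le_right (tr_le st _ g))

theorem tr_mem (hC : IsSub C) (hC' : IsSub C') {g : List ℕ → ℕ → B} (hg : Fn C g)
    (s : List ℕ) : tr st s g ∈ C' := by
  refine hC'.inf (h.mem s) (hC'.iInf fun u => hC'.himp (h.mem _) (h.le ?_))
  exact path_mem hC hg.mem s u

theorem st_le (s : List ℕ) (n : ℕ) : st s ≤ ⨆ u : List ℕ, ⨆ (_ : u.length = n), st (s ++ u) := by
  induction n with
  | zero =>
    refine le_iSup_of_le [] (le_iSup_of_le rfl ?_)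
    simp
  | succ n ih =>
    refine le_trans ih (iSup_le fun u => iSup_le fun hu => ?_)
    refine le_trans (h.tot (s ++ u)) (iSup_le fun k => ?_)
    refine le_iSup_of_le (u ++ [k]) (le_iSup_of_le (by simp [hu]) ?_)
    rw [List.append_assoc]

end Step

end Pool.Agent.LibFS55
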