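import Pool.Agent.LibFS55.A4

/-! Consequences of `ind`. -/

set_option autoImplicit false

namespace Pool.Agent.LibFS55

variable {B : Type} [CompleteBooleanAlgebra B] {C C' : Set B} {st : List ℕ → B}

theorem Step.le_of (h : Step C C' st) (hC : IsSub C) {c e : B} (hc : c ∈ C) (he : e ∈ C)
    {s : List ℕ} {g : List ℕ → ℕ → B} (hg : Fn C g) (hce : c ⊓ tr st s g ≤ e) : c ≤ e := by
  by_contra hne
  have h1 : c ⊓ eᶜ ≠ ⊥ := fun h0 => hne (disjoint_compl_right_iff.mp (disjoint_iff.mpr h0))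
  refine h.ind (c ⊓ eᶜ) (hC.inf hc (hC.compl e he)) h1 s g hg ?_
  rw [eq_bot_iff]
  have h2 : c ⊓ eᶜ ⊓ tr st s g ≤ e :=
    le_trans (inf_le_inf_right _ inf_le_left) hce
  have h3 : c ⊓ eᶜ ⊓ tr st s g ≤ eᶜ := inf_le_left.trans inf_le_right
  exact (le_inf h2 h3).trans (le_of_eq (inf_compl_self _))

theorem Step.prefix_of (h : Step C C' st) (hC : IsSub C) {c : B} (hc : c ∈ C) (h0 : c ≠ ⊥)
    {s t : List ℕ} {g : List ℕ → ℕ → B} (hg : Fn C g) (hct : c ⊓ tr st t g ≤ st s) :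
    s <+: t := by
  by_contra hs
  by_cases ht : t <+: s
  · obtain ⟨w, rfl⟩ := ht
    cases w with
    | nil => exact hs (by rw [List.append_nil])
    | cons k₀ v =>
      obtain ⟨k₁, hk₁⟩ : ∃ k, c ⊓ g t k ≠ ⊥ := by
        by_contra hcon
        push Not at hcon
        apply h0
        calc c = c ⊓ ⨆ k, g t k := by rw [hg.top t, inf_top_eq]
          _ = ⨆ k, c ⊓ g t k := inf_iSup_eq _ _
          _ = ⊥ := by simp [hcon]
      obtain ⟨k, hk, hkk⟩ : ∃ k, c ⊓ g t k ≠ ⊥ ∧ k₀ < k := by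
        refine ⟨max k₁ (k₀ + 1), ?_, by omega⟩
        intro hb
        apply hk₁
        rw [eq_bot_iff, ← hb]
        exact inf_le_inf_left _ (hg.mono t (le_max_left _ _))
      refine h.ind (c ⊓ g t k) (hC.inf hc (hg.mem t k)) hk (t ++ [k]) g hg ?_
      rw [eq_bot_iff]
      have e1 : c ⊓ g t k ⊓ tr st (t ++ [k]) g ≤ st (t ++ k₀ :: v) := by
        refine le_trans ?_ hct
        rw [inf_assoc]
        refine inf_le_inf_left _ ?_
        have e2 := h.tr_enter t [k] g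
        simpa [path] using e2
      have e3 : st (t ++ k₀ :: v) ≤ st (t ++ [k₀]) := by
        apply h.st_prefix
        exact ⟨v, by simp⟩
      have e4 : c ⊓ g t k ⊓ tr st (t ++ [k]) g ≤ st (t ++ [k]) :=
        inf_le_right.trans (tr_le _ _ _)
      exact (le_inf (e1.trans e3) e4).trans (le_of_eq (h.disj t k₀ k (by omega)))
  · refine h.ind c hc h0 t g hg ?_
    rw [eq_bot_iff]
    have e4 : c ⊓ tr st t g ≤ st t := inf_le_right.trans (tr_le _ _ _)
    exact (le_inf hct e4).trans (le_of_eq (h.st_disj hs ht))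

end Pool.Agent.LibFS55
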