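import Pool.Agent.LibFS55.A4

/-! Mixing of names of functions. -/

set_option autoImplicit false

namespace Pool.Agent.LibFS55

variable {B : Type} [CompleteBooleanAlgebra B] {C C' : Set B} {st : List ℕ → B}

/-- A set `T` of pairwise disjoint members of `X` with the same supremum, for a downward closed
`X ⊆ C`. -/
theorem exists_antichain (hC : IsSub C) {X : Set B} (hX : X ⊆ C)
    (hd : ∀ c ∈ X, ∀ c' ∈ C, c' ≤ c → c' ∈ X) :
    ∃ T ⊆ X, (∀ a ∈ T, ∀ b ∈ T, a ≠ b → a ⊓ b = ⊥) ∧ sSup T = sSup X := by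
  obtain ⟨T, ⟨hTX, hTd, hT0⟩, hmax⟩ := zorn_subset
    {T : Set B | T ⊆ X ∧ (∀ a ∈ T, ∀ b ∈ T, a ≠ b → a ⊓ b = ⊥) ∧ (⊥ : B) ∉ T} (by
      intro c hc hchain
      refine ⟨⋃₀ c, ⟨Set.sUnion_subset fun s hs => (hc hs).1, ?_, ?_⟩,
        fun s hs => Set.subset_sUnion_of_mem hs⟩
      · rintro a ⟨s, hs, ha⟩ b ⟨s', hs', hb⟩ hab
        rcases hchain.total hs hs' with h | h
        · exact (hc hs').2.1 a (h ha) b hb hab
        · exact (hc hs).2.1 a ha b (h hb) hab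
      · rintro ⟨s, hs, hb⟩
        exact (hc hs).2.2 hb)
  refine ⟨T, hTX, hTd, le_antisymm (sSup_le_sSup hTX) (sSup_le fun x hx => ?_)⟩
  have hTC : sSup T ∈ C := hC.sSup T (hTX.trans hX)
  have hyC : x ⊓ (sSup T)ᶜ ∈ C := hC.inf (hX hx) (hC.compl _ hTC)
  have hyX : x ⊓ (sSup T)ᶜ ∈ X := hd x hx _ hyC inf_le_left
  have hy : ∀ a ∈ T, x ⊓ (sSup T)ᶜ ⊓ a = ⊥ := by
    intro a ha
    refine le_bot_iff.1 ?_
    calc x ⊓ (sSup T)ᶜ ⊓ a ≤ (sSup T)ᶜ ⊓ sSup T := inf_le_inf inf_le_right (le_sSup ha)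
      _ = ⊥ := compl_inf_eq_bot
  by_cases h0 : x ⊓ (sSup T)ᶜ = ⊥
  · rw [← disjoint_iff, disjoint_compl_right_iff] at h0
    exact h0
  · exfalso
    have hmem : insert (x ⊓ (sSup T)ᶜ) T ∈
        {T : Set B | T ⊆ X ∧ (∀ a ∈ T, ∀ b ∈ T, a ≠ b → a ⊓ b = ⊥) ∧ (⊥ : B) ∉ T} := by
      refine ⟨Set.insert_subset hyX hTX, ?_, ?_⟩
      · rintro a (rfl | ha) b (rfl | hb) hab
        · exact absurd rfl hab
        · exact hy b hb
        · rw [inf_comm]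
          exact hy a ha
        · exact hTd a ha b hb hab
      · rintro (h1 | h1)
        · exact h0 h1.symm
        · exact hT0 h1
    have h1 := hmax hmem (Set.subset_insert _ _) (Set.mem_insert _ _)
    apply h0
    rw [← hy _ h1, inf_idem]

theorem exists_mix (hC : IsSub C) {X : Set B} (hX : X ⊆ C)
    (hd : ∀ c ∈ X, ∀ c' ∈ C, c' ≤ c → c' ∈ X) (G : B → List ℕ → ℕ → B)
    (hG : ∀ c ∈ X, Fn C (G c)) : ∃ g, Fn C g ∧ ∃ T ⊆ X, sSup T = sSup X ∧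
      ∀ c ∈ T, ∀ t k, c ⊓ g t k ≤ G c t k := by
  obtain ⟨T, hTX, hTd, hTs⟩ := exists_antichain hC hX hd
  have hTC : sSup T ∈ C := hC.sSup T (hTX.trans hX)
  refine ⟨fun t k => (⨆ c ∈ T, c ⊓ G c t k) ⊔ (sSup T)ᶜ, ⟨?_, ?_, ?_⟩, T, hTX, hTs, ?_⟩
  · intro t k
    exact hC.sup (hC.iSup fun c => hC.iSup fun hc =>
      hC.inf (hX (hTX hc)) ((hG c (hTX hc)).mem t k)) (hC.compl _ hTC)
  · intro t k k' hkk
    exact sup_le_sup_right (iSup₂_mono fun c hc =>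
      inf_le_inf_left _ ((hG c (hTX hc)).mono t hkk)) _
  · intro t
    refine top_le_iff.1 ?_
    rw [← sup_compl_eq_top (x := sSup T)]
    refine sup_le (sSup_le fun c hc => ?_) ?_
    · have h1 : c = ⨆ k, c ⊓ G c t k := by
        rw [← inf_iSup_eq, (hG c (hTX hc)).top t, inf_top_eq]
      rw [h1]
      refine iSup_mono fun k => le_trans ?_ le_sup_left
      exact le_iSup₂ (f := fun c (_ : c ∈ T) => c ⊓ G c t k) c hc
    · exact le_iSup_of_le 0 le_sup_right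
  · intro c hc t k
    rw [inf_sup_left, inf_iSup₂_eq]
    refine sup_le (iSup₂_le fun c' hc' => ?_) ?_
    · by_cases hcc : c = c'
      · rw [← hcc]
        exact inf_le_right.trans inf_le_right
      · rw [← inf_assoc, hTd c hc c' hc' hcc, bot_inf_eq]
        exact bot_le
    · calc c ⊓ (sSup T)ᶜ ≤ sSup T ⊓ (sSup T)ᶜ := inf_le_inf_right _ (le_sSup hc)
        _ = ⊥ := inf_compl_eq_bot
        _ ≤ _ := bot_le

theorem fav_mem (hC : IsSub C) (A : ℕ → B) (t : List ℕ) (k : ℕ) : fav C st A t k ∈ C := by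
  exact hC.compl _ (hC.sSup _ fun c hc => hc.1)

theorem Qv_mem (hC : IsSub C) (A : ℕ → B) (R : Set ℕ) (t : List ℕ) : Qv C st A R t ∈ C := by
  exact hC.iInf fun k => hC.iInf fun _ => hC.compl _ (fav_mem hC A t k)

theorem exists_fav (hC : IsSub C) (A : ℕ → B) (t : List ℕ) (k : ℕ) :
    ∃ g, Fn C g ∧ (fav C st A t k)ᶜ ⊓ tr st t g ⊓ A k = ⊥ := by
  classical
  have h1 : ∀ c, ∃ g, (c ∈ {c | c ∈ C ∧ ∃ g, Fn C g ∧ c ⊓ tr st t g ⊓ A k = ⊥}) →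
      Fn C g ∧ c ⊓ tr st t g ⊓ A k = ⊥ := by
    intro c
    by_cases hc : c ∈ {c | c ∈ C ∧ ∃ g, Fn C g ∧ c ⊓ tr st t g ⊓ A k = ⊥}
    · obtain ⟨-, g, hg⟩ := hc
      exact ⟨g, fun _ => hg⟩
    · exact ⟨fun _ _ => ⊤, fun h => absurd h hc⟩
  choose G hG using h1
  obtain ⟨g, hg, T, hTX, hTs, hT⟩ := exists_mix hC
    (X := {c | c ∈ C ∧ ∃ g, Fn C g ∧ c ⊓ tr st t g ⊓ A k = ⊥}) (fun c hc => hc.1) (by
      rintro c ⟨-, g, hg, hcg⟩ c' hc' hle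
      refine ⟨hc', g, hg, le_bot_iff.1 ?_⟩
      rw [← hcg]
      exact inf_le_inf_right _ (inf_le_inf_right _ hle)) G (fun c hc => (hG c hc).1)
  refine ⟨g, hg, ?_⟩
  unfold fav
  rw [compl_compl, ← hTs, sSup_eq_iSup, iSup₂_inf_eq, iSup₂_inf_eq]
  refine le_bot_iff.1 (iSup₂_le fun c hc => ?_)
  rw [← (hG c (hTX hc)).2]
  refine inf_le_inf_right _ (le_inf inf_le_left ?_)
  exact tr_mono st (fun t' k' => hT c hc t' k') t

end Pool.Agent.LibFS55
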