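import Pool.Agent.LibFS55.A2
import Pool.Agent.LibFS55.A5
import Pool.Agent.LibFS55.A6

/-! Properties of `fav`. -/

set_option autoImplicit false

namespace Pool.Agent.LibFS55

variable {B : Type} [CompleteBooleanAlgebra B] {C C' : Set B} {st : List ℕ → B}

theorem fav_forced (h : Step C C' st) (hC : IsSub C) {A : ℕ → B} {c z : B} (hc : c ∈ C)
    (hz : z ∈ C) {s : List ℕ} {g : List ℕ → ℕ → B} (hg : Fn C g) {k : ℕ}
    (h0 : c ⊓ tr st s g ⊓ A k ⊓ z = ⊥) (u : List ℕ) :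
    c ⊓ path g s u ⊓ z ⊓ fav C st A (s ++ u) k = ⊥ := by
  set e := c ⊓ path g s u ⊓ z with he
  have heC : e ∈ C := hC.inf (hC.inf hc (path_mem hC hg.mem s u)) hz
  have h1 : e ⊓ tr st (s ++ u) g ⊓ A k = ⊥ := by
    rw [← le_bot_iff, ← h0]
    have h2 := h.tr_enter s u g
    have h3 : e ⊓ tr st (s ++ u) g ≤ tr st s g := by
      refine le_trans ?_ h2
      exact inf_le_inf_right _ (inf_le_left.trans inf_le_right)
    have h4 : e ⊓ tr st (s ++ u) g ⊓ A k ≤ c :=
      inf_le_left.trans (inf_le_left.trans (inf_le_left.trans inf_le_left))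
    have h5 : e ⊓ tr st (s ++ u) g ⊓ A k ≤ z :=
      inf_le_left.trans (inf_le_left.trans inf_le_right)
    exact le_inf (le_inf (le_inf h4 (inf_le_left.trans h3)) inf_le_right) h5
  have h2 : e ≤ (fav C st A (s ++ u) k)ᶜ := by
    unfold fav
    rw [compl_compl]
    exact le_sSup ⟨heC, g, hg, h1⟩
  exact le_bot_iff.1 ((inf_le_inf_right _ h2).trans (compl_inf_self _).le)

theorem fav_witness (h : Step C C' st) (hC : IsSub C) (hC' : IsSub C') {A : ℕ → B} {c : B}
    (hc : c ∈ C) {s : List ℕ} {g : List ℕ → ℕ → B} (hg : Fn C g) {k : ℕ} (hA : A k ∈ C')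
    (h0 : c ⊓ tr st s g ⊓ A k ≠ ⊥) :
    ∃ u, c ⊓ path g s u ⊓ fav C st A (s ++ u) k ≠ ⊥ := by
  obtain ⟨e, he, he0, t, g2, hg2, hle⟩ := h.dense _
    (hC'.inf (hC'.inf (h.le hc) (h.tr_mem hC hC' hg s)) hA) h0
  have hec : e ≤ c := h.le_of hC he hc hg2 (hle.trans (inf_le_left.trans inf_le_left))
  have hets : e ⊓ tr st t g2 ≤ tr st s g := hle.trans (inf_le_left.trans inf_le_right)
  have heA : e ⊓ tr st t g2 ≤ A k := hle.trans inf_le_right
  obtain ⟨u, rfl⟩ := h.prefix_of hC he he0 hg2 (hets.trans (tr_le st s g))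
  have hep : e ≤ path g s u := by
    refine h.le_of hC he (path_mem hC hg.mem s u) (s := s ++ u) hg2 ?_
    have h1 : e ⊓ tr st (s ++ u) g2 ≤ tr st s g ⊓ st (s ++ u) :=
      le_inf hets (inf_le_right.trans (tr_le st _ _))
    exact h1.trans (tr_obey st s u g)
  have hef : e ≤ fav C st A (s ++ u) k := by
    by_contra hcon
    have h1 : e ⊓ (fav C st A (s ++ u) k)ᶜ ≠ ⊥ := by
      intro h2
      exact hcon (by rwa [← sdiff_eq, sdiff_eq_bot_iff] at h2)
    obtain ⟨g1, hg1, hg1'⟩ := exists_fav (C := C) (st := st) hC A (s ++ u) k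
    have h3 := h.ind _ (hC.inf he (hC.compl _ (fav_mem hC A (s ++ u) k))) h1 (s ++ u) _
      (hg2.inf hC hg1)
    apply h3
    rw [← le_bot_iff, ← hg1']
    have h4 : tr st (s ++ u) (fun t k => g2 t k ⊓ g1 t k) ≤ tr st (s ++ u) g2 := by
      have := tr_mono st (g := g2) (g' := fun t k => g2 t k ⊓ g1 t k) (c := ⊤)
        (fun t k => inf_le_right.trans inf_le_left) (s ++ u)
      rwa [top_inf_eq] at this
    have h5 : tr st (s ++ u) (fun t k => g2 t k ⊓ g1 t k) ≤ tr st (s ++ u) g1 := by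
      have := tr_mono st (g := g1) (g' := fun t k => g2 t k ⊓ g1 t k) (c := ⊤)
        (fun t k => inf_le_right.trans inf_le_right) (s ++ u)
      rwa [top_inf_eq] at this
    refine le_inf (le_inf (inf_le_left.trans inf_le_right) (inf_le_right.trans h5)) ?_
    exact (inf_le_inf (inf_le_left : e ⊓ (fav C st A (s ++ u) k)ᶜ ≤ e) h4).trans heA
  refine ⟨u, fun hbot => he0 ?_⟩
  rw [← le_bot_iff, ← hbot]
  exact le_inf (le_inf hec hep) hef

theorem fav_limsup (h : Step C C' st) (hC : IsSub C) (A : ℕ → B) (t : List ℕ) (k : ℕ) :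
    ls (fun n => fav C st A (t ++ [n]) k) ≤ fav C st A t k := by
  obtain ⟨g, hg, hg'⟩ := exists_fav (C := C) (st := st) hC A t k
  set f := fav C st A t k with hf
  have hfm : fᶜ ∈ C := hC.compl _ (fav_mem hC A t k)
  have h1 : ∀ n, fᶜ ⊓ g t n ⊓ fav C st A (t ++ [n]) k = ⊥ := by
    intro n
    have h2 := fav_forced h hC hfm hC.top hg (k := k) (A := A) (s := t)
      (by rw [inf_top_eq]; exact hg') [n]
    simpa [path] using h2
  have h2 : ∀ n₀, fᶜ ⊓ g t n₀ ⊓ ls (fun n => fav C st A (t ++ [n]) k) = ⊥ := by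
    intro n₀
    rw [← le_bot_iff]
    refine (inf_le_inf_left _ (ls_le _ n₀)).trans ?_
    rw [inf_iSup_eq]
    refine iSup_le fun n => ?_
    rw [inf_iSup_eq]
    refine iSup_le fun hn => ?_
    rw [← h1 n]
    exact inf_le_inf_right _ (inf_le_inf_left _ (hg.mono t hn))
  have h3 : fᶜ ⊓ ls (fun n => fav C st A (t ++ [n]) k) = ⊥ := by
    rw [← le_bot_iff]
    have h4 : fᶜ ⊓ ls (fun n => fav C st A (t ++ [n]) k) =
        ⨆ n₀, fᶜ ⊓ g t n₀ ⊓ ls (fun n => fav C st A (t ++ [n]) k) := by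
      rw [← iSup_inf_eq, ← inf_iSup_eq, hg.top, inf_top_eq]
    rw [h4]
    exact iSup_le fun n₀ => (h2 n₀).le
  rw [inf_comm] at h3
  exact (disjoint_iff.2 h3).le_compl_right.trans (compl_compl f).le

end Pool.Agent.LibFS55
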