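import Pool.Agent.LibFS55.A7

/-! The closure argument. -/

set_option autoImplicit false

namespace Pool.Agent.LibFS55

variable {B : Type} [CompleteBooleanAlgebra B] {C C' : Set B} {st : List ℕ → B}

/-- The value `path g s u ⊓ Q t` if `t = s ++ u`, and `⊥` if `s` is not a prefix of `t`. -/
private noncomputable def A8_w (C : Set B) (st : List ℕ → B) (A : ℕ → B) (R : Set ℕ) (s : List ℕ)
    (g : List ℕ → ℕ → B) (t : List ℕ) : B :=
  ⨆ u, ⨆ (_ : t = s ++ u), path g s u ⊓ Qv C st A R t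

private theorem A8_w_mem (hC : IsSub C) (A : ℕ → B) (R : Set ℕ) (s : List ℕ)
    {g : List ℕ → ℕ → B} (hg : Fn C g) (t : List ℕ) : A8_w C st A R s g t ∈ C := by
  unfold A8_w
  refine hC.iSup fun u => hC.iSup fun _ => hC.inf (path_mem hC hg.mem s u) (Qv_mem hC A R t)

private theorem A8_Qv_le (C : Set B) (st : List ℕ → B) (A : ℕ → B) (R : Set ℕ) (t : List ℕ)
    {k : ℕ} (hk : k ∈ R) : Qv C st A R t ≤ (fav C st A t k)ᶜ := by
  unfold Qv
  exact iInf₂_le k hk

theorem closure_arg (h : Step C C' st) (hC : IsSub C) (hC' : IsSub C') {A : ℕ → B}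
    (hA : ∀ k, A k ∈ C') (R : Set ℕ) {c : B} (hc : c ∈ C) {s : List ℕ} {g : List ℕ → ℕ → B}
    (hg : Fn C g) (h0 : c ≤ Qv C st A R s)
    (h1 : ∀ u, c ⊓ path g s u ⊓ Qv C st A R (s ++ u) ≤
      li fun n => Qv C st A R (s ++ u ++ [n])) :
    ∃ g', Fn C g' ∧ (∀ t k, g' t k ≤ g t k) ∧ ∀ k ∈ R, c ⊓ tr st s g' ⊓ A k = ⊥ := by
  set Q : List ℕ → B := Qv C st A R with hQ
  set w : List ℕ → B := A8_w C st A R s g with hw
  let X : List ℕ → ℕ → B := fun t n => ⨅ n' : ℕ, ⨅ (_ : n ≤ n'), Q (t ++ [n'])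
  let g' : List ℕ → ℕ → B := fun t n => g t n ⊓ (X t n ⊔ (c ⊓ w t)ᶜ)
  have hX : ∀ t n, X t n ∈ C := fun t n => hC.iInf fun n' => hC.iInf fun _ => Qv_mem hC A R _
  have hXmono : ∀ t, Monotone (X t) := by
    intro t m n hmn
    exact iInf_mono fun n' => iInf_mono' fun hn => ⟨hmn.trans hn, le_rfl⟩
  have hwle : ∀ t, c ⊓ w t ≤ ⨆ n, X t n := by
    intro t
    rw [hw]
    unfold A8_w
    rw [inf_iSup_eq]
    refine iSup_le fun u => ?_
    rw [inf_iSup_eq]
    refine iSup_le fun hu => ?_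
    subst hu
    have h2 := h1 u
    rw [inf_assoc] at h2
    exact h2
  have hg' : Fn C g' := by
    refine ⟨fun t n => ?_, fun t => ?_, fun t => ?_⟩
    · exact hC.inf (hg.mem t n) (hC.sup (hX t n) (hC.compl _ (hC.inf hc
        (A8_w_mem hC A R s hg t))))
    · intro m n hmn
      exact inf_le_inf (hg.mono t hmn) (sup_le_sup_right (hXmono t hmn) _)
    · have h3 : Monotone fun n => X t n ⊔ (c ⊓ w t)ᶜ := fun m n hmn =>
        sup_le_sup_right (hXmono t hmn) _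
      have h4 : ⨆ n, (g t n ⊓ (X t n ⊔ (c ⊓ w t)ᶜ)) =
          (⨆ n, g t n) ⊓ ⨆ n, (X t n ⊔ (c ⊓ w t)ᶜ) := iSup_inf_of_monotone (hg.mono t) h3
      change ⨆ n, (g t n ⊓ (X t n ⊔ (c ⊓ w t)ᶜ)) = ⊤
      rw [h4, hg.top t, top_inf_eq, ← iSup_sup]
      have h5 : c ⊓ w t ⊔ (c ⊓ w t)ᶜ ≤ (⨆ n, X t n) ⊔ (c ⊓ w t)ᶜ :=
        sup_le_sup_right (hwle t) _
      rw [sup_compl_eq_top] at h5
      exact top_le_iff.1 h5
  have hg'g : ∀ t k, g' t k ≤ g t k := fun t k => inf_le_left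
  have hpg : ∀ u, c ⊓ path g' s u ≤ path g s u := fun u =>
    path_mono (fun t k => inf_le_right.trans (hg'g t k)) s u
  have hpath : ∀ u, c ⊓ path g' s u ≤ Q (s ++ u) := by
    intro u
    induction u using List.reverseRecOn with
    | nil => 
      rw [List.append_nil]
      exact inf_le_left.trans h0
    | append_singleton u k ih =>
      rw [path_snoc]
      have h6 : c ⊓ path g' s u ≤ c ⊓ w (s ++ u) := by
        refine le_inf inf_le_left ?_
        rw [hw]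
        unfold A8_w
        refine le_iSup₂_of_le (f := fun u' (_ : s ++ u = s ++ u') =>
          path g s u' ⊓ Qv C st A R (s ++ u)) u rfl ?_
        exact le_inf (hpg u) ih
      have h7 : c ⊓ (path g' s u ⊓ g' (s ++ u) k) ≤ X (s ++ u) k := by
        rw [← inf_assoc]
        calc c ⊓ path g' s u ⊓ g' (s ++ u) k
            ≤ (c ⊓ w (s ++ u)) ⊓ (X (s ++ u) k ⊔ (c ⊓ w (s ++ u))ᶜ) :=
              inf_le_inf h6 inf_le_right
          _ = (c ⊓ w (s ++ u)) ⊓ X (s ++ u) k := by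
              rw [inf_sup_left, inf_compl_self, sup_bot_eq]
          _ ≤ X (s ++ u) k := inf_le_right
      refine h7.trans ?_
      rw [← List.append_assoc]
      exact iInf₂_le k le_rfl
  refine ⟨g', hg', hg'g, fun k hk => ?_⟩
  by_contra hne
  obtain ⟨u, hu⟩ := fav_witness h hC hC' hc hg' (hA k) hne
  apply hu
  have h8 : c ⊓ path g' s u ⊓ fav C st A (s ++ u) k ≤
      (fav C st A (s ++ u) k)ᶜ ⊓ fav C st A (s ++ u) k :=
    inf_le_inf ((hpath u).trans (A8_Qv_le C st A R (s ++ u) hk)) le_rfl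
  rw [compl_inf_self] at h8
  exact le_bot_iff.1 h8

end Pool.Agent.LibFS55
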