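import Pool.Agent.LibFS55.A7

/-! The successor step, nodes which favor infinitely many `k`. -/

set_option autoImplicit false

namespace Pool.Agent.LibFS55

variable {B : Type} [CompleteBooleanAlgebra B] {C C' : Set B} {st : List ℕ → B} {ι : Type}

theorem star_inf (h : Step C C' st) (hC : IsSub C) {Z : ι → ℕ → B} (hZ : ∀ i k, Z i k ∈ C)
    (hS : Star C Z) (A : ℕ → B) (I : Set ι) (m : ℕ) (s : List ℕ) (c : ι → B)
    (g : ι → List ℕ → ℕ → B) (hc : ∀ i ∈ I, c i ∈ C) (hg : ∀ i ∈ I, Fn C (g i))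
    (hf : ∀ i ∈ I, ∀ k, m ≤ k → c i ⊓ tr st s (g i) ⊓ A k ⊓ Z i k = ⊥) (u : List ℕ) :
    {i ∈ I | c i ⊓ path (g i) s u ⊓ ls (fun k => fav C st A (s ++ u) k) ≠ ⊥}.Countable := by
  have h1 := hS.rel hC (A := fun k => fav C st A (s ++ u) k) (fun k => fav_mem hC A (s ++ u) k)
  refine h1.mono ?_
  rintro i ⟨hi, hne⟩ hle
  apply hne
  rw [← le_bot_iff]
  refine (inf_le_inf_left _ hle).trans ?_
  rw [inf_comm, ← ls_inf_const]
  refine le_bot_iff.2 (ls_eq_bot_of m fun k hk => ?_)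
  have h2 := fav_forced h hC (hc i hi) (hZ i k) (hg i hi) (hf i hi k hk) u
  rw [← le_bot_iff, ← h2]
  refine le_inf (le_inf ?_ ?_) ?_
  · exact inf_le_right
  · exact inf_le_left.trans inf_le_right
  · exact inf_le_left.trans inf_le_left

end Pool.Agent.LibFS55
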