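import Pool.Agent.LibFS55.A9c

/-! The successor step, nodes with infinitely many successors which favor large `k`. -/

set_option autoImplicit false

namespace Pool.Agent.LibFS55

variable {B : Type} [CompleteBooleanAlgebra B] {C C' : Set B} {st : List ℕ → B} {ι : Type}

/-- the truth value of: `k` is the least element `≥ M` with `F k` -/
private def A9b_mn (F : ℕ → B) (M k : ℕ) : B :=
  if M ≤ k then F k ⊓ ⨅ k', ⨅ (_ : M ≤ k' ∧ k' < k), (F k')ᶜ else ⊥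

private theorem A9b_mn_le (F : ℕ → B) (M k : ℕ) : A9b_mn F M k ≤ F k := by
  unfold A9b_mn
  split_ifs
  · exact inf_le_left
  · exact bot_le

private theorem A9b_mn_lt (F : ℕ → B) (M : ℕ) {k l : ℕ} (hkl : k < l) :
    A9b_mn F M k ⊓ A9b_mn F M l = ⊥ := by
  by_cases hk : M ≤ k
  · have h1 : A9b_mn F M l ≤ (F k)ᶜ := by
      unfold A9b_mn
      rw [if_pos (hk.trans hkl.le)]
      exact inf_le_right.trans (iInf₂_le k ⟨hk, hkl⟩)
    exact le_bot_iff.1 ((inf_le_inf (A9b_mn_le F M k) h1).trans (inf_compl_eq_bot (a := F k)).le)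
  · unfold A9b_mn
    rw [if_neg hk, bot_inf_eq]

private theorem A9b_mn_disj (F : ℕ → B) (M : ℕ) {k l : ℕ} (hkl : k ≠ l) :
    A9b_mn F M k ⊓ A9b_mn F M l = ⊥ := by
  rcases lt_or_gt_of_ne hkl with h | h
  · exact A9b_mn_lt F M h
  · rw [inf_comm]; exact A9b_mn_lt F M h

private theorem A9b_mn_mem (hC : IsSub C) {F : ℕ → B} (hF : ∀ k, F k ∈ C) (M k : ℕ) :
    A9b_mn F M k ∈ C := by
  unfold A9b_mn
  split_ifs
  · exact hC.inf (hF k) (hC.iInf fun k' => hC.iInf fun _ => hC.compl _ (hF k'))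
  · exact hC.bot

theorem star_one (h : Step C C' st) (hC : IsSub C) {Z : ι → ℕ → B} (hZ : ∀ i k, Z i k ∈ C)
    (hS : Star C Z) (A : ℕ → B) (I : Set ι) (m : ℕ) (s : List ℕ) (c : ι → B)
    (g : ι → List ℕ → ℕ → B) (hc : ∀ i ∈ I, c i ∈ C) (hg : ∀ i ∈ I, Fn C (g i))
    (hf : ∀ i ∈ I, ∀ k, m ≤ k → c i ⊓ tr st s (g i) ⊓ A k ⊓ Z i k = ⊥) (u : List ℕ) (M : ℕ)
    (hM : m ≤ M) :
    {i ∈ I | c i ⊓ path (g i) s u ⊓ (Qv C st A {k | M ≤ k} (s ++ u) ⊓
      ls (fun n => (Qv C st A {k | M ≤ k} (s ++ u ++ [n]))ᶜ)) ≠ ⊥}.Countable := by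
  set b : B := Qv C st A {k | M ≤ k} (s ++ u) ⊓
      ls (fun n => (Qv C st A {k | M ≤ k} (s ++ u ++ [n]))ᶜ) with hb
  set mn : ℕ → ℕ → B := fun n k => A9b_mn (fun k => fav C st A (s ++ u ++ [n]) k) M k with hmn
  have hbC : b ∈ C := hC.inf (Qv_mem hC A _ _) (hC.ls fun n => hC.compl _ (Qv_mem hC A _ _))
  have hmnC : ∀ n k, mn n k ∈ C := fun n k => A9b_mn_mem hC (fun k => fav_mem hC A _ k) M k
  have hA' : ∀ k, b ⊓ ⨆ n, mn n k ∈ C := fun k => hC.inf hbC (hC.iSup fun n => hmnC n k)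
  have hls : b ≤ ls fun k => b ⊓ ⨆ n, mn n k := least_inf h hC A (s ++ u) M b hb
  refine (Star.rel hC hS hA').mono ?_
  rintro i ⟨hi, hne⟩
  rw [Set.mem_ofPred_eq]
  intro hle
  apply hne
  have hG := hg i hi
  have key : ∀ n₀, g i (s ++ u) n₀ ⊓ (c i ⊓ path (g i) s u ⊓
      ls (fun k => (b ⊓ ⨆ n, mn n k) ⊓ Z i k)) = ⊥ := by
    intro n₀
    have h1 : g i (s ++ u) n₀ ⊓ (c i ⊓ path (g i) s u ⊓
        ls (fun k => (b ⊓ ⨆ n, mn n k) ⊓ Z i k)) =
        ls (fun k => ((b ⊓ ⨆ n, mn n k) ⊓ Z i k) ⊓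
          (g i (s ++ u) n₀ ⊓ (c i ⊓ path (g i) s u))) := by
      rw [ls_inf_const, ← inf_assoc, inf_comm]
    rw [h1, ← le_bot_iff]
    have h2 : ls (fun k => ((b ⊓ ⨆ n, mn n k) ⊓ Z i k) ⊓
          (g i (s ++ u) n₀ ⊓ (c i ⊓ path (g i) s u))) ≤
        ls (fun k => ⨆ n ∈ Finset.range n₀, mn n k) := by
      refine ls_mono' M fun k hk => ?_
      have h3 : ((b ⊓ ⨆ n, mn n k) ⊓ Z i k) ⊓ (g i (s ++ u) n₀ ⊓ (c i ⊓ path (g i) s u)) ≤
          ⨆ n, mn n k ⊓ (Z i k ⊓ (g i (s ++ u) n₀ ⊓ (c i ⊓ path (g i) s u))) := by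
        rw [← iSup_inf_eq]
        refine le_inf (inf_le_left.trans (inf_le_left.trans inf_le_right)) (le_inf ?_ inf_le_right)
        exact inf_le_left.trans inf_le_right
      refine h3.trans (iSup_le fun n => ?_)
      rcases lt_or_ge n n₀ with hn | hn
      · exact inf_le_left.trans (le_iSup₂_of_le n (Finset.mem_range.2 hn) le_rfl)
      · have h4 := fav_forced h hC (hc i hi) (hZ i k) hG (hf i hi k (hM.trans hk)) (u ++ [n])
        rw [path_snoc, ← List.append_assoc] at h4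
        refine le_trans ?_ (h4.le.trans bot_le)
        refine le_inf (le_inf (le_inf ?_ (le_inf ?_ ?_)) ?_) ?_
        · exact inf_le_right.trans (inf_le_right.trans (inf_le_right.trans inf_le_left))
        · exact inf_le_right.trans (inf_le_right.trans (inf_le_right.trans inf_le_right))
        · exact inf_le_right.trans (inf_le_right.trans (inf_le_left.trans (hG.mono _ hn)))
        · exact inf_le_right.trans inf_le_left
        · exact inf_le_left.trans (A9b_mn_le _ M k)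
    refine h2.trans ?_
    rw [ls_finset]
    refine iSup₂_le fun n _ => ?_
    rw [ls_disj fun k l hkl => A9b_mn_disj _ M hkl]
  have h5 : c i ⊓ path (g i) s u ⊓ b ≤ c i ⊓ path (g i) s u ⊓
      ls (fun k => (b ⊓ ⨆ n, mn n k) ⊓ Z i k) := inf_le_inf le_rfl (hls.trans hle)
  refine le_bot_iff.1 (h5.trans ?_)
  have h6 : (⨆ n₀, g i (s ++ u) n₀) ⊓ (c i ⊓ path (g i) s u ⊓
      ls (fun k => (b ⊓ ⨆ n, mn n k) ⊓ Z i k)) ≤ ⊥ := by
    rw [iSup_inf_eq]
    exact iSup_le fun n₀ => (key n₀).le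
  rwa [hG.top, top_inf_eq] at h6

end Pool.Agent.LibFS55
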