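import Pool.Agent.LibFS55.A8
import Pool.Agent.LibFS55.A9a
import Pool.Agent.LibFS55.A9b

/-! The successor step. -/

set_option autoImplicit false

namespace Pool.Agent.LibFS55

variable {B : Type} [CompleteBooleanAlgebra B] {C C' : Set B} {st : List ℕ → B} {ι : Type}

private theorem A9_exists (h : Step C C' st) (hC' : IsSub C') {Z : ι → ℕ → B}
    (hZ : ∀ i k, Z i k ∈ C) {A : ℕ → B} (hA : ∀ k, A k ∈ C') {i : ι}
    (hi : ls (fun k => A k ⊓ Z i k) ≠ ⊤) :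
    ∃ (p : ℕ × List ℕ) (c : B) (g : List ℕ → ℕ → B), c ∈ C ∧ c ≠ ⊥ ∧ Fn C g ∧
      ∀ k, p.1 ≤ k → c ⊓ tr st p.2 g ⊓ A k ⊓ Z i k = ⊥ := by
  have h1 : ∃ m : ℕ, (⨆ k : ℕ, ⨆ (_ : m ≤ k), A k ⊓ Z i k) ≠ ⊤ := by
    by_contra hcon
    push Not at hcon
    apply hi
    unfold ls
    simp [hcon]
  obtain ⟨m, hm⟩ := h1
  have hb : (⨆ k : ℕ, ⨆ (_ : m ≤ k), A k ⊓ Z i k)ᶜ ∈ C' :=
    hC'.compl _ (hC'.iSup fun k => hC'.iSup fun _ => hC'.inf (hA k) (h.le (hZ i k)))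
  obtain ⟨c, hc, hc0, s, g, hg, hle⟩ := h.dense _ hb (by rwa [Ne, compl_eq_bot])
  refine ⟨(m, s), c, g, hc, hc0, hg, fun k hk => ?_⟩
  rw [← le_bot_iff]
  have h2 : A k ⊓ Z i k ≤ ⨆ k : ℕ, ⨆ (_ : m ≤ k), A k ⊓ Z i k :=
    le_iSup₂ (f := fun k (_ : m ≤ k) => A k ⊓ Z i k) k hk
  calc c ⊓ tr st s g ⊓ A k ⊓ Z i k = c ⊓ tr st s g ⊓ (A k ⊓ Z i k) := inf_assoc _ _ _
    _ ≤ (⨆ k : ℕ, ⨆ (_ : m ≤ k), A k ⊓ Z i k)ᶜ ⊓ (⨆ k : ℕ, ⨆ (_ : m ≤ k), A k ⊓ Z i k) :=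
        inf_le_inf hle h2
    _ ≤ ⊥ := (compl_inf_self _).le

theorem step_star (h : Step C C' st) (hC : IsSub C) (hC' : IsSub C') {Z : ι → ℕ → B}
    (hZ : ∀ i k, Z i k ∈ C) (hS : Star C Z) : Star C' Z := by
  intro A hA hls
  by_contra hunc
  -- the stem and the bound
  obtain ⟨p, hp⟩ : ∃ p : ℕ × List ℕ, ¬ {i | ∃ (c : B) (g : List ℕ → ℕ → B), c ∈ C ∧ c ≠ ⊥ ∧
      Fn C g ∧ ∀ k, p.1 ≤ k → c ⊓ tr st p.2 g ⊓ A k ⊓ Z i k = ⊥}.Countable := by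
    by_contra hcon
    push Not at hcon
    refine hunc ((Set.countable_iUnion hcon).mono fun i hi => ?_)
    obtain ⟨p, c, g, h1⟩ := A9_exists h hC' hZ hA hi
    exact Set.mem_iUnion.2 ⟨p, c, g, h1⟩
  obtain ⟨m, s⟩ := p
  set I : Set ι := {i | ∃ (c : B) (g : List ℕ → ℕ → B), c ∈ C ∧ c ≠ ⊥ ∧
      Fn C g ∧ ∀ k, m ≤ k → c ⊓ tr st s g ⊓ A k ⊓ Z i k = ⊥} with hI
  have hch : ∀ i, ∃ (c : B) (g : List ℕ → ℕ → B), i ∈ I → c ∈ C ∧ c ≠ ⊥ ∧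
      Fn C g ∧ ∀ k, m ≤ k → c ⊓ tr st s g ⊓ A k ⊓ Z i k = ⊥ := by
    intro i
    by_cases hi : i ∈ I
    · obtain ⟨c, g, h1⟩ := hi
      exact ⟨c, g, fun _ => h1⟩
    · exact ⟨⊥, fun _ _ => ⊥, fun h1 => absurd h1 hi⟩
  choose c g hcg using hch
  have hc : ∀ i ∈ I, c i ∈ C := fun i hi => (hcg i hi).1
  have hg : ∀ i ∈ I, Fn C (g i) := fun i hi => (hcg i hi).2.2.1
  have hf : ∀ i ∈ I, ∀ k, m ≤ k → c i ⊓ tr st s (g i) ⊓ A k ⊓ Z i k = ⊥ :=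
    fun i hi => (hcg i hi).2.2.2
  have h1 : ∀ u : List ℕ,
      {i ∈ I | c i ⊓ path (g i) s u ⊓ ls (fun k => fav C st A (s ++ u) k) ≠ ⊥}.Countable :=
    fun u => star_inf h hC hZ hS A I m s c g hc hg hf u
  have h2 : ∀ (u : List ℕ) (M : ℕ), {i ∈ I | m ≤ M ∧ c i ⊓ path (g i) s u ⊓
      (Qv C st A {k | M ≤ k} (s ++ u) ⊓
        ls (fun n => (Qv C st A {k | M ≤ k} (s ++ u ++ [n]))ᶜ)) ≠ ⊥}.Countable := by
    intro u M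
    by_cases hM : m ≤ M
    · refine (star_one h hC hZ hS A I m s c g hc hg hf u M hM).mono ?_
      rintro i ⟨hi, _, h3⟩
      exact ⟨hi, h3⟩
    · refine (Set.countable_empty).mono ?_
      rintro i ⟨_, h3, _⟩
      exact absurd h3 hM
  have h3 : ((⋃ u, {i ∈ I | c i ⊓ path (g i) s u ⊓ ls (fun k => fav C st A (s ++ u) k) ≠ ⊥}) ∪
      ⋃ q : List ℕ × ℕ, {i ∈ I | m ≤ q.2 ∧ c i ⊓ path (g i) s q.1 ⊓
      (Qv C st A {k | q.2 ≤ k} (s ++ q.1) ⊓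
        ls (fun n => (Qv C st A {k | q.2 ≤ k} (s ++ q.1 ++ [n]))ᶜ)) ≠ ⊥}).Countable :=
    (Set.countable_iUnion h1).union (Set.countable_iUnion fun q => h2 q.1 q.2)
  obtain ⟨i, hi, hiD⟩ : ∃ i ∈ I, i ∉ ((⋃ u, {i ∈ I | c i ⊓ path (g i) s u ⊓
      ls (fun k => fav C st A (s ++ u) k) ≠ ⊥}) ∪
      ⋃ q : List ℕ × ℕ, {i ∈ I | m ≤ q.2 ∧ c i ⊓ path (g i) s q.1 ⊓
      (Qv C st A {k | q.2 ≤ k} (s ++ q.1) ⊓
        ls (fun n => (Qv C st A {k | q.2 ≤ k} (s ++ q.1 ++ [n]))ᶜ)) ≠ ⊥}) := by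
    by_contra hcon
    push Not at hcon
    exact hp (h3.mono hcon)
  have h4 : ∀ u, c i ⊓ path (g i) s u ⊓ ls (fun k => fav C st A (s ++ u) k) = ⊥ := by
    intro u
    by_contra h5
    exact hiD (Or.inl (Set.mem_iUnion.2 ⟨u, hi, h5⟩))
  have h5 : ∀ (u : List ℕ) (M : ℕ), m ≤ M → c i ⊓ path (g i) s u ⊓
      (Qv C st A {k | M ≤ k} (s ++ u) ⊓
        ls (fun n => (Qv C st A {k | M ≤ k} (s ++ u ++ [n]))ᶜ)) = ⊥ := by
    intro u M hM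
    by_contra h6
    exact hiD (Or.inr (Set.mem_iUnion.2 ⟨(u, M), hi, hM, h6⟩))
  obtain ⟨hci, hci0, hgi, _⟩ := hcg i hi
  -- the root
  have h6 : c i ≤ ⨆ M : ℕ, Qv C st A {k | M ≤ k} s := by
    have h7 := h4 []
    simp only [path, List.append_nil, inf_top_eq] at h7
    have h8 : c i ≤ (ls fun k => fav C st A s k)ᶜ := by
      rw [le_compl_iff_disjoint_right, disjoint_iff]
      exact h7
    rw [compl_ls] at h8
    exact h8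
  obtain ⟨M, hM⟩ : ∃ M : ℕ, c i ⊓ Qv C st A {k | M ≤ k} s ≠ ⊥ := by
    by_contra hcon
    push Not at hcon
    apply hci0
    rw [← inf_eq_left.2 h6, inf_iSup_eq]
    simp [hcon]
  set R : Set ℕ := {k | max m M ≤ k} with hR
  have hMR : Qv C st A {k | M ≤ k} s ≤ Qv C st A R s := by
    unfold Qv
    refine le_iInf fun k => le_iInf fun hk => iInf₂_le (f := fun k (_ : k ∈ {k | M ≤ k}) =>
      (fav C st A s k)ᶜ) k ((le_max_right m M).trans hk)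
  have hc'0 : c i ⊓ Qv C st A R s ≠ ⊥ := fun h7 =>
    hM (le_bot_iff.1 ((inf_le_inf_left _ hMR).trans h7.le))
  have hc' : c i ⊓ Qv C st A R s ∈ C := hC.inf hci (Qv_mem hC A R s)
  obtain ⟨g', hg', _, hk⟩ := closure_arg h hC hC' hA R hc' hgi inf_le_right (fun u => by
    have h7 := h5 u (max m M) (le_max_left m M)
    have h8 : c i ⊓ path (g i) s u ⊓ Qv C st A R (s ++ u) ≤
        (ls (fun n => (Qv C st A R (s ++ u ++ [n]))ᶜ))ᶜ := by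
      rw [le_compl_iff_disjoint_right, disjoint_iff, inf_assoc]
      exact h7
    rw [compl_ls] at h8
    simp only [compl_compl] at h8
    refine le_trans ?_ h8
    exact inf_le_inf_right _ (inf_le_inf_right _ inf_le_left))
  refine h.ind _ hc' hc'0 s g' hg' (le_bot_iff.1 ?_)
  have h7 : (⊤ : B) ≤ ⨆ k : ℕ, ⨆ (_ : max m M ≤ k), A k := hls ▸ ls_le A (max m M)
  calc c i ⊓ Qv C st A R s ⊓ tr st s g'
      ≤ c i ⊓ Qv C st A R s ⊓ tr st s g' ⊓ ⨆ k : ℕ, ⨆ (_ : max m M ≤ k), A k :=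
        le_inf le_rfl (le_top.trans h7)
    _ ≤ ⊥ := by
        rw [inf_iSup_eq]
        refine iSup_le fun k => ?_
        rw [inf_iSup_eq]
        exact iSup_le fun hk' => (hk k hk').le

end Pool.Agent.LibFS55
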