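import Pool.Agent.LibFS55.A7

/-! The least favored number. -/

set_option autoImplicit false

namespace Pool.Agent.LibFS55

variable {B : Type} [CompleteBooleanAlgebra B] {C C' : Set B} {st : List ℕ → B} {ι : Type}

private theorem A9c_split (F : ℕ → B) (M L : ℕ) (k : ℕ) (hk : M ≤ k) :
    F k ≤ (⨆ k' ∈ Finset.Ico M L, F k') ⊔ ⨆ k', ⨆ (_ : L ≤ k'), (if M ≤ k' then
      F k' ⊓ ⨅ k'', ⨅ (_ : M ≤ k'' ∧ k'' < k'), (F k'')ᶜ else ⊥) := by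
  induction k using Nat.strong_induction_on with
  | _ k ih =>
    by_cases hkL : k < L
    · refine le_trans ?_ le_sup_left
      exact le_iSup₂ (f := fun k' (_ : k' ∈ Finset.Ico M L) => F k') k
        (Finset.mem_Ico.2 ⟨hk, hkL⟩)
    · have h1 : F k ≤ (F k ⊓ ⨅ k'', ⨅ (_ : M ≤ k'' ∧ k'' < k), (F k'')ᶜ) ⊔
          (⨅ k'', ⨅ (_ : M ≤ k'' ∧ k'' < k), (F k'')ᶜ)ᶜ := by
        rw [sup_inf_right, sup_compl_eq_top, inf_top_eq]
        exact le_sup_left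
      refine h1.trans (sup_le ?_ ?_)
      · refine le_trans ?_ le_sup_right
        refine le_trans ?_ (le_iSup₂ (f := fun k' (_ : L ≤ k') => (if M ≤ k' then
          F k' ⊓ ⨅ k'', ⨅ (_ : M ≤ k'' ∧ k'' < k'), (F k'')ᶜ else ⊥)) k (not_lt.1 hkL))
        rw [if_pos hk]
      · rw [compl_iInf]
        refine iSup_le fun k' => ?_
        rw [compl_iInf]
        refine iSup_le fun hk' => ?_
        rw [compl_compl]
        exact ih k' hk'.2 hk'.1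

/-- Let `t = s ++ u`, `F n k = fav C st A (t ++ [n]) k`,
`mn n k = F n k ⊓ ⨅ k' (M ≤ k' < k), (F n k')ᶜ` for `k ≥ M` (and `⊥` for `k < M`): truth value of: `k` is
the least element `≥ M` which is favored by `t ++ [n]`. Let
`b = Qv C st A {k | M ≤ k} t ⊓ ls (fun n => (Qv C st A {k | M ≤ k} (t ++ [n]))ᶜ)` and
`A' k = b ⊓ ⨆ n, mn n k`. -/
theorem least_inf (h : Step C C' st) (hC : IsSub C) (A : ℕ → B) (t : List ℕ) (M : ℕ) (b : B)
    (hb : b = Qv C st A {k | M ≤ k} t ⊓ ls (fun n => (Qv C st A {k | M ≤ k} (t ++ [n]))ᶜ)) :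
    b ≤ ls fun k => b ⊓ ⨆ n, (if M ≤ k then
      fav C st A (t ++ [n]) k ⊓ ⨅ k', ⨅ (_ : M ≤ k' ∧ k' < k), (fav C st A (t ++ [n]) k')ᶜ
      else ⊥) := by
  refine le_ls fun L₀ => ?_
  obtain ⟨L, hL⟩ : ∃ L, L = max L₀ M := ⟨_, rfl⟩
  have hML : M ≤ L := hL ▸ le_max_right _ _
  have hLL : L₀ ≤ L := hL ▸ le_max_left _ _
  obtain ⟨F, hF⟩ : ∃ F : ℕ → ℕ → B, F = fun n k => fav C st A (t ++ [n]) k := ⟨_, rfl⟩
  obtain ⟨mn, hmn⟩ : ∃ mn : ℕ → ℕ → B, mn = fun n k => (if M ≤ k then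
      F n k ⊓ ⨅ k', ⨅ (_ : M ≤ k' ∧ k' < k), (F n k')ᶜ else ⊥) := ⟨_, rfl⟩
  obtain ⟨W, hW⟩ : ∃ W : B, W = ⨆ k, ⨆ (_ : L ≤ k), b ⊓ ⨆ n, mn n k := ⟨_, rfl⟩
  have hgoal : W ≤ ⨆ k, ⨆ (_ : L₀ ≤ k), (b ⊓ ⨆ n, (if M ≤ k then
      fav C st A (t ++ [n]) k ⊓ ⨅ k', ⨅ (_ : M ≤ k' ∧ k' < k), (fav C st A (t ++ [n]) k')ᶜ
      else ⊥)) := by
    rw [hW, hmn, hF]
    exact iSup₂_le fun k hk => le_iSup₂ (f := fun k (_ : L₀ ≤ k) => (b ⊓ ⨆ n, (if M ≤ k then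
      fav C st A (t ++ [n]) k ⊓ ⨅ k', ⨅ (_ : M ≤ k' ∧ k' < k), (fav C st A (t ++ [n]) k')ᶜ
      else ⊥))) k (hLL.trans hk)
  refine le_trans ?_ hgoal
  -- `b ⊓ Wᶜ` is `⊥`
  have h1 : ∀ n, (Qv C st A {k | M ≤ k} (t ++ [n]))ᶜ ⊓ (b ⊓ Wᶜ) ≤
      ⨆ k ∈ Finset.Ico M L, F n k := by
    intro n
    have h2 : (Qv C st A {k | M ≤ k} (t ++ [n]))ᶜ ≤
        (⨆ k ∈ Finset.Ico M L, F n k) ⊔ ⨆ k, ⨆ (_ : L ≤ k), mn n k := by
      unfold Qv
      rw [compl_iInf]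
      refine iSup_le fun k => ?_
      rw [compl_iInf]
      refine iSup_le fun hk => ?_
      rw [compl_compl]
      have h3 := A9c_split (F n) M L k hk
      rw [hmn]
      rw [hF] at h3 ⊢
      exact h3
    refine (inf_le_inf_right _ h2).trans ?_
    rw [inf_sup_right]
    refine sup_le inf_le_left ?_
    rw [iSup₂_inf_eq]
    refine iSup₂_le fun k hk => ?_
    have h3 : mn n k ⊓ (b ⊓ Wᶜ) ≤ W ⊓ Wᶜ := by
      refine le_inf ?_ (inf_le_right.trans inf_le_right)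
      rw [hW]
      refine le_trans ?_ (le_iSup₂ (f := fun k (_ : L ≤ k) => b ⊓ ⨆ n, mn n k) k hk)
      exact le_inf (inf_le_right.trans inf_le_left) (inf_le_left.trans (le_iSup (mn · k) n))
    rw [inf_compl_eq_bot] at h3
    exact h3.trans bot_le
  have h2 : b ⊓ Wᶜ ≤ ⨆ k ∈ Finset.Ico M L, fav C st A t k := by
    have h3 : b ⊓ Wᶜ ≤ ls fun n => (Qv C st A {k | M ≤ k} (t ++ [n]))ᶜ ⊓ (b ⊓ Wᶜ) := by
      rw [ls_inf_const]
      refine le_inf (inf_le_left.trans ?_) le_rfl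
      rw [hb]
      exact inf_le_right
    refine h3.trans ((ls_mono h1).trans ?_)
    rw [ls_finset (Finset.Ico M L) fun k n => F n k]
    refine iSup₂_mono fun k _ => ?_
    rw [hF]
    exact fav_limsup h hC A t k
  have h4 : b ⊓ Wᶜ ≤ ⊥ := by
    have h5 : b ⊓ Wᶜ ≤ b ⊓ ⨆ k ∈ Finset.Ico M L, fav C st A t k := le_inf inf_le_left h2
    refine h5.trans ?_
    rw [inf_iSup₂_eq]
    refine iSup₂_le fun k hk => ?_
    have h6 : b ≤ (fav C st A t k)ᶜ := by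
      rw [hb]
      refine inf_le_left.trans ?_
      unfold Qv
      exact iInf₂_le (f := fun k (_ : k ∈ {k | M ≤ k}) => (fav C st A t k)ᶜ) k
        (Finset.mem_Ico.1 hk).1
    calc b ⊓ fav C st A t k ≤ (fav C st A t k)ᶜ ⊓ fav C st A t k := inf_le_inf_right _ h6
      _ = ⊥ := compl_inf_eq_bot
  have h5 := le_bot_iff.1 h4
  rwa [← disjoint_iff, disjoint_compl_right_iff] at h5

end Pool.Agent.LibFS55
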