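import Pool.Agent.LibTk83.RO
import Pool.Agent.LibTk83.CccDef

/-!
MP_1ca5ad_gt: definitions for the Boolean part.

All names live in one complete Boolean algebra `B`; intermediate models are complete subalgebras
`C ⊆ B`, given as sets.
-/

set_option autoImplicit false

namespace Pool.Agent.LibFS55

/-- `ω₁`. -/
abbrev W1 : Type := (Cardinal.aleph 1).ord.ToType

/-- The countable chain condition. -/
def CCB (B : Type) [CompleteBooleanAlgebra B] : Prop :=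
  ∀ (J : Type) (x : J → B), (∀ j, x j ≠ ⊥) → (∀ i j, i ≠ j → x i ⊓ x j = ⊥) → Countable J

variable {B : Type} [CompleteBooleanAlgebra B]

/-- `C` is a complete subalgebra. -/
structure IsSub (C : Set B) : Prop where
  compl : ∀ a ∈ C, aᶜ ∈ C
  sSup : ∀ T : Set B, T ⊆ C → sSup T ∈ C

/-- Truth value of: infinitely many `k` satisfy `a k`. -/
def ls (a : ℕ → B) : B := ⨅ m : ℕ, ⨆ k : ℕ, ⨆ (_ : m ≤ k), a k

/-- Truth value of: almost all `k` satisfy `a k`. -/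
def li (a : ℕ → B) : B := ⨆ m : ℕ, ⨅ k : ℕ, ⨅ (_ : m ≤ k), a k

/-- For each name `A` in `C` of an infinite set, for all but countably many `i` the set `A ∩ Z i` is
infinite. -/
def Star {ι : Type} (C : Set B) (Z : ι → ℕ → B) : Prop :=
  ∀ A : ℕ → B, (∀ k, A k ∈ C) → ls A = ⊤ → {i | ls (fun k => A k ⊓ Z i k) ≠ ⊤}.Countable

/-- `g` is a name in `C` of a function from the nodes to `ℕ`; `g t k` is the truth value of
`g(t) ≤ k`. -/
structure Fn (C : Set B) (g : List ℕ → ℕ → B) : Prop where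
  mem : ∀ t k, g t k ∈ C
  mono : ∀ t, Monotone (g t)
  top : ∀ t, ⨆ k, g t k = ⊤

/-- Truth value of: the node `s ++ u` is in the tree with stem `s` given by `g`. -/
def path (g : List ℕ → ℕ → B) : List ℕ → List ℕ → B
  | _, [] => ⊤
  | s, k :: u => g s k ⊓ path g (s ++ [k]) u

/-- `st t` is the truth value of: `t` is an initial segment of the generic real. `tr st s g` is the
truth value of: the generic real is a branch of the tree with stem `s` given by `g`. -/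
def tr (st : List ℕ → B) (s : List ℕ) (g : List ℕ → ℕ → B) : B :=
  st s ⊓ ⨅ u : List ℕ, (st (s ++ u) ⇨ path g s u)

/-- `C'` is the extension of `C` by a Laver-Hechler real with initial segments `st`. -/
structure Step (C C' : Set B) (st : List ℕ → B) : Prop where
  le : C ⊆ C'
  mem : ∀ t, st t ∈ C'
  nil : st [] = ⊤
  ext : ∀ t k, st (t ++ [k]) ≤ st t
  tot : ∀ t, st t ≤ ⨆ k, st (t ++ [k])
  disj : ∀ t k l, k ≠ l → st (t ++ [k]) ⊓ st (t ++ [l]) = ⊥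
  ind : ∀ c ∈ C, c ≠ ⊥ → ∀ s g, Fn C g → c ⊓ tr st s g ≠ ⊥
  dense : ∀ b ∈ C', b ≠ ⊥ → ∃ c ∈ C, c ≠ ⊥ ∧ ∃ s g, Fn C g ∧ c ⊓ tr st s g ≤ b

/-- Truth value of: no condition with stem `t` forces `k ∉ A`. -/
noncomputable def fav (C : Set B) (st : List ℕ → B) (A : ℕ → B) (t : List ℕ) (k : ℕ) : B :=
  (sSup {c | c ∈ C ∧ ∃ g, Fn C g ∧ c ⊓ tr st t g ⊓ A k = ⊥})ᶜ

/-- Truth value of: `t` favors no `k ∈ R`. -/
noncomputable def Qv (C : Set B) (st : List ℕ → B) (A : ℕ → B) (R : Set ℕ) (t : List ℕ) : B :=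
  ⨅ k, ⨅ (_ : k ∈ R), (fav C st A t k)ᶜ

/-- Truth value of `d(m) = l`, where `d` is the generic real. -/
def dv (st : List ℕ → B) (m l : ℕ) : B := ⨆ t : List ℕ, ⨆ (_ : t.length = m), st (t ++ [l])

open Classical in
/-- Truth value of `y ∩ l = v ∩ l`. -/
noncomputable def nb (y : ℕ → B) (l : ℕ) (v : Finset ℕ) : B :=
  ⨅ k : ℕ, ⨅ (_ : k < l), if k ∈ v then y k else (y k)ᶜ

/-- Codes `(m, l, U)`. -/
abbrev Cd : Type := ℕ × ℕ × Finset (Finset ℕ)

/-- The code with the number `k`. -/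
def code (k : ℕ) : Cd := Denumerable.ofNat Cd k

/-- `U` consists of at most `m + 1` subsets of `l`. -/
def Good (c : Cd) : Prop := c.2.2.card ≤ c.1 + 1 ∧ ∀ v ∈ c.2.2, v ⊆ Finset.range c.2.1

open Classical in
/-- Truth value of: not (`(m, l, U)` is a good code, `d(m) = l` and `y ∩ l ∈ U`), where `(m, l, U)` is
the code with the number `k`. -/
noncomputable def Zd (st : List ℕ → B) (y : ℕ → B) (k : ℕ) : B :=
  if Good (code k) then
    (dv st (code k).1 (code k).2.1 ⊓ ⨆ v ∈ (code k).2.2, nb y (code k).2.1 v)ᶜ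
  else ⊤

/-- Truth value of `x ∩ l ≠ y ∩ l`. -/
def df (x y : ℕ → B) (l : ℕ) : B := ⨆ k, ⨆ (_ : k < l), (x k ⊓ (y k)ᶜ ⊔ (x k)ᶜ ⊓ y k)

/-- Truth value of `x ≠ y`. -/
def dif (x y : ℕ → B) : B := ⨆ k, (x k ⊓ (y k)ᶜ ⊔ (x k)ᶜ ⊓ y k)

/-- `f` is a name of a function from `ℕ` to `ℕ`; `f n k` is the truth value of `f(n) = k`. -/
structure Fun (f : ℕ → ℕ → B) : Prop where
  tot : ∀ n, ⨆ k, f n k = ⊤
  disj : ∀ n k l, k ≠ l → f n k ⊓ f n l = ⊥

/-- Truth value of: `f(n) ≤ g(n)` for almost all `n`. -/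
def leF (f g : ℕ → ℕ → B) : B := li fun n => ⨆ k, ⨆ l, ⨆ (_ : k ≤ l), f n k ⊓ g n l

/-- Truth value of: for all `j ≤ m`, `y ∩ d(m) ≠ x_{m,j} ∩ d(m)`. -/
def esc (d : ℕ → ℕ → B) (x : ℕ → ℕ → ℕ → B) (y : ℕ → B) (m : ℕ) : B :=
  ⨅ j : ℕ, ⨅ (_ : j ≤ m), ⨆ l : ℕ, d m l ⊓ df y (x m j) l

variable (B) in
/-- The properties of the algebra for the consistency of Q1. -/
structure ModelQ : Prop where
  dom : ∀ f : W1 → ℕ → ℕ → B, (∀ i, Fun (f i)) → ∃ g, Fun g ∧ ∀ i, leF (f i) g = ⊤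
  sep : ∀ y : W1 → ℕ → B, (∀ i j, i ≠ j → dif (y i) (y j) = ⊤) → ∃ d, Fun d ∧
    ∀ (E : ℕ → B) (x : ℕ → ℕ → ℕ → B), ls E ≤ ⨆ i, ls fun m => E m ⊓ esc d x (y i) m

variable (B) in
/-- The properties of the algebra for the consistency of the negation of Q1. -/
structure ModelP : Prop where
  ccc : CCB B
  pse : ∀ F : W1 → ℕ → B, (∀ A : Finset W1, ls (fun k => ⨅ i ∈ A, F i k) = ⊤) →
    ∃ P : ℕ → B, ls P = ⊤ ∧ ∀ i, li (fun k => P k ⇨ F i k) = ⊤

end Pool.Agent.LibFS55
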