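import Pool.Agent.LibFS55.Phi

/-! The index set. -/

set_option autoImplicit false

namespace Pool.Agent.LibFS55

open Set Cardinal Pool.Agent.LibFsep

/-- The second property of `Phi1` for the index set `S`. -/
def SepS (S : Type) : Prop :=
  ∀ y : S → Set ℕ, Function.Injective y → ∃ d : ℕ → ℕ, ∀ (E : Set ℕ) (x : ℕ → ℕ → Set ℕ),
    E.Infinite → ∃ i : S, ∀ n, ∃ m, n ≤ m ∧ m ∈ E ∧ ∀ j, j ≤ m → ∃ k, k < d m ∧
      ¬ (k ∈ y i ↔ k ∈ x m j)

/-- The first property of `Phi1` for the index set `S`. -/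
def DomS (S : Type) : Prop :=
  ∀ f : S → ℕ → ℕ, ∃ g : ℕ → ℕ, ∀ i, ∃ m, ∀ n, m ≤ n → f i n ≤ g n

theorem uncountable_of_sep {S : Type} (h : SepS S) : Uncountable S := by
  rw [← not_countable_iff]
  intro hc
  obtain ⟨c, hcinj⟩ := hc.exists_injective_nat
  obtain ⟨d, hd⟩ := h (fun i => {c i}) (fun i j hij => hcinj (Set.singleton_injective hij))
  obtain ⟨i, hi⟩ := hd Set.univ (fun _ j => {j}) Set.infinite_univ
  obtain ⟨m, hm, -, hm2⟩ := hi (c i)
  obtain ⟨k, -, hk⟩ := hm2 (c i) hm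
  exact hk Iff.rfl

theorem mk_le_aleph_one {S : Type} [LinearOrder S] (h : ∀ a : S, (Iio a).Countable) :
    #S ≤ Cardinal.aleph 1 := by
  by_contra hlt
  rw [not_le] at hlt
  obtain ⟨T, hT⟩ := Cardinal.le_mk_iff_exists_set.1 hlt.le
  have hcov : (Set.univ : Set S) ⊆ ⋃ t : T, Set.Iic (t : S) := by
    intro a _
    by_contra hc
    rw [mem_iUnion] at hc
    push Not at hc
    have hsub : T ⊆ Set.Iio a := by
      intro t ht
      have := hc ⟨t, ht⟩
      simpa using this
    have h1 : T.Countable := (h a).mono hsub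
    rw [← Cardinal.le_aleph0_iff_set_countable, hT] at h1
    exact absurd h1 (not_le.2 Cardinal.aleph0_lt_aleph_one)
  have h2 : #S ≤ Cardinal.aleph 1 := by
    have h3 : #(⋃ t : T, Set.Iic (t : S)) ≤ #T * ℵ₀ := by
      refine (Cardinal.mk_iUnion_le _).trans ?_
      refine mul_le_mul_right ?_ _
      refine ciSup_le' fun t => ?_
      rw [Cardinal.le_aleph0_iff_set_countable]
      have : Set.Iic (t : S) = insert (t : S) (Set.Iio (t : S)) := by
        ext x
        simp [le_iff_eq_or_lt]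
      rw [this]
      exact (h _).insert _
    have h4 : #S ≤ #(⋃ t : T, Set.Iic (t : S)) := by
      rw [← Cardinal.mk_univ]
      exact Cardinal.mk_le_mk_of_subset hcov
    rw [hT, Cardinal.aleph_mul_aleph0] at h3
    exact h4.trans h3
  exact absurd h2 (not_le.2 hlt)

theorem lt_bounding {S : Type} (h : DomS S) : #S < bounding := by
  classical
  have hne : {κ | ∃ F : Set (ℕ → ℕ), UnboundedFam F ∧ #F = κ}.Nonempty := by
    refine ⟨_, Set.univ, fun g => ⟨fun n => g n + 1, trivial, ?_⟩, rfl⟩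
    rw [Filter.not_eventually]
    exact Filter.Frequently.of_forall fun n => by simp
  obtain ⟨F, hFu, hF⟩ := csInf_mem hne
  change #F = bounding at hF
  rw [← hF]
  by_contra hle
  rw [not_lt] at hle
  obtain ⟨e⟩ := Cardinal.le_def _ _ |>.1 hle
  have hFne : F.Nonempty := by
    obtain ⟨f, hf, _⟩ := hFu (fun _ => 0)
    exact ⟨f, hf⟩
  have : Nonempty F := hFne.to_subtype
  obtain ⟨g, hg⟩ := h (fun w => (Function.invFun e w : F).1)
  obtain ⟨f, hf, hfg⟩ := hFu g
  apply hfg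
  obtain ⟨m, hm⟩ := hg (e ⟨f, hf⟩)
  rw [Filter.eventually_atTop]
  refine ⟨m, fun n hn => ?_⟩
  have h1 := hm n hn
  rwa [Function.leftInverse_invFun e.injective] at h1

end Pool.Agent.LibFS55
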