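import Pool.Agent.LibFS55.Phi

/-! Cuts. -/

set_option autoImplicit false

namespace Pool.Agent.LibFS55

open Set

/-- The set of the numbers of the rationals below `z`. -/
def cut (z : ℝ) : Set ℕ := {n | ((Denumerable.ofNat ℚ n : ℚ) : ℝ) < z}

theorem L2_aux {z w : ℝ} (h : cut z = cut w) (hzw : z < w) : False := by
  obtain ⟨q, h1, h2⟩ := exists_rat_btwn hzw
  have h3 : @Encodable.encode ℚ Denumerable.toEncodable q ∈ cut w := by
    change ((Denumerable.ofNat ℚ (@Encodable.encode ℚ Denumerable.toEncodable q) : ℚ) : ℝ) < w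
    rw [Denumerable.ofNat_encode]
    exact h2
  rw [← h] at h3
  change ((Denumerable.ofNat ℚ (@Encodable.encode ℚ Denumerable.toEncodable q) : ℚ) : ℝ) < z at h3
  rw [Denumerable.ofNat_encode] at h3
  exact absurd h3 (not_lt.2 h1.le)

theorem cut_injective : Function.Injective cut := by
  intro z w h
  rcases lt_trichotomy z w with h1 | h1 | h1
  · exact (L2_aux h h1).elim
  · exact h1
  · exact (L2_aux h.symm h1).elim

theorem L2_gap (l : ℕ) : ∃ r : ℝ, 0 < r ∧ ∀ i j, i < l → j < l → i ≠ j →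
    2 * r ≤ |((Denumerable.ofNat ℚ i : ℚ) : ℝ) - ((Denumerable.ofNat ℚ j : ℚ) : ℝ)| := by
  classical
  let f : Fin (l + 1) × Fin (l + 1) → ℝ := fun p => if p.1 = p.2 then 1 else
    |((Denumerable.ofNat ℚ (p.1 : ℕ) : ℚ) : ℝ) - ((Denumerable.ofNat ℚ (p.2 : ℕ) : ℚ) : ℝ)|
  obtain ⟨p0, hp0⟩ := Finite.exists_min f
  have hpos : 0 < f p0 := by
    simp only [f]
    split_ifs with h
    · exact one_pos
    · rw [abs_pos, sub_ne_zero]
      intro h1
      apply h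
      have h2 : (Denumerable.ofNat ℚ (p0.1 : ℕ) : ℚ) = Denumerable.ofNat ℚ (p0.2 : ℕ) := by
        exact_mod_cast h1
      have h3 := congrArg (@Encodable.encode ℚ Denumerable.toEncodable) h2
      rw [Denumerable.encode_ofNat, Denumerable.encode_ofNat] at h3
      exact Fin.ext h3
  refine ⟨f p0 / 2, by positivity, fun i j hi hj hij => ?_⟩
  have h1 := hp0 (⟨i, by omega⟩, ⟨j, by omega⟩)
  have h2 : f (⟨i, by omega⟩, ⟨j, by omega⟩) =
      |((Denumerable.ofNat ℚ i : ℚ) : ℝ) - ((Denumerable.ofNat ℚ j : ℚ) : ℝ)| := by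
    simp only [f]
    rw [if_neg]
    intro h
    exact hij (Fin.mk.inj_iff.1 h)
  rw [h2] at h1
  linarith

theorem exists_gap (l : ℕ) : ∃ r : ℝ, 0 < r ∧ ∀ a z : ℝ, |z - a| < r →
    (∀ k, k < l → (k ∈ cut z ↔ k ∈ cut (a - r))) ∨
      ∀ k, k < l → (k ∈ cut z ↔ k ∈ cut (a + r)) := by
  obtain ⟨r, hr, hgap⟩ := L2_gap l
  refine ⟨r, hr, fun a z hz => ?_⟩
  rw [abs_lt] at hz
  by_contra hc
  rw [not_or] at hc
  obtain ⟨h1, h2⟩ := hc
  push Not at h1 h2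
  obtain ⟨k, hk, h1⟩ := h1
  obtain ⟨k', hk', h2⟩ := h2
  have e1 : ((Denumerable.ofNat ℚ k : ℚ) : ℝ) < z ∧ a - r ≤ ((Denumerable.ofNat ℚ k : ℚ) : ℝ) := by
    rcases h1 with ⟨h3, h4⟩ | ⟨h3, h4⟩
    · exact ⟨h3, not_lt.1 h4⟩
    · have h5 : ((Denumerable.ofNat ℚ k : ℚ) : ℝ) < a - r := h4
      exact absurd (show ((Denumerable.ofNat ℚ k : ℚ) : ℝ) < z by linarith) h3
  have e2 : z ≤ ((Denumerable.ofNat ℚ k' : ℚ) : ℝ) ∧ ((Denumerable.ofNat ℚ k' : ℚ) : ℝ) < a + r := by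
    rcases h2 with ⟨h3, h4⟩ | ⟨h3, h4⟩
    · have h5 : ((Denumerable.ofNat ℚ k' : ℚ) : ℝ) < z := h3
      exact absurd (show ((Denumerable.ofNat ℚ k' : ℚ) : ℝ) < a + r by linarith) h4
    · exact ⟨not_lt.1 h3, h4⟩
  have hne : k' ≠ k := by
    rintro rfl
    exact absurd e1.1 (not_lt.2 e2.1)
  have h6 := hgap k' k hk' hk hne
  rw [abs_of_nonneg (by linarith)] at h6
  linarith

end Pool.Agent.LibFS55
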