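import Pool.Agent.LibFS55.Phi

/-! The countable family of functions. -/

set_option autoImplicit false

namespace Pool.Agent.LibFS55

open Set Topology Filter Pool.Agent.LibFsep
open scoped Cardinal

universe u

variable {X : Type u} [TopologicalSpace X]

/-- The functions used in the proof. -/
noncomputable def af (φ : X → ℝ) (hφ : Continuous φ) (r : ℕ → ℝ)
    (p : Σ m : ℕ, (Fin (m + 1) → ℚ)) : Cp X :=
  ⟨fun x => 1 / ((p.1 : ℝ) + 1) +
    Metric.infDist (φ x) (range fun j => ((p.2 j : ℚ) : ℝ)) / r p.1,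
    continuous_const.add (((Metric.continuous_infDist_pt _).comp hφ).div_const _)⟩

theorem zero_mem_closure (φ : X → ℝ) (hφ : Continuous φ) (r : ℕ → ℝ) (hr : ∀ m, 0 < r m) :
    zeroFn X ∈ closure (range (af φ hφ r)) := by
  rw [mem_closure_Cp]
  intro F η hη
  obtain ⟨m0, hm0⟩ := exists_nat_one_div_lt (half_pos hη)
  set m := max m0 F.card with hm
  have hmlt : 1 / ((m : ℝ) + 1) < η / 2 := by
    refine lt_of_le_of_lt ?_ hm0
    apply one_div_le_one_div_of_le (by positivity)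
    have : (m0 : ℝ) ≤ m := by exact_mod_cast le_max_left _ _
    linarith
  have hq : ∀ x : X, ∃ q : ℚ, |φ x - q| < r m * (η / 2) := by
    intro x
    obtain ⟨q, hq⟩ := exists_rat_near (φ x) (mul_pos (hr m) (half_pos hη))
    exact ⟨q, hq⟩
  choose q hq using hq
  have hcard : F.card ≤ m + 1 := (le_max_right m0 F.card).trans (Nat.le_succ _)
  let Q : Fin (m + 1) → ℚ := fun i =>
    if h : (i : ℕ) < F.card then q (F.equivFin.symm ⟨i, h⟩ : X) else 0
  refine ⟨af φ hφ r ⟨m, Q⟩, ⟨_, rfl⟩, fun x hx => ?_⟩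
  have hQ : ∃ j, Q j = q x := by
    have hlt : ((F.equivFin ⟨x, hx⟩ : Fin F.card) : ℕ) < F.card := (F.equivFin ⟨x, hx⟩).2
    refine ⟨⟨(F.equivFin ⟨x, hx⟩ : Fin F.card), hlt.trans_le hcard⟩, ?_⟩
    simp only [Q]
    rw [dif_pos hlt]
    congr 1
    simp
  obtain ⟨j, hj⟩ := hQ
  have h1 : Metric.infDist (φ x) (range fun j => ((Q j : ℚ) : ℝ)) < r m * (η / 2) := by
    refine lt_of_le_of_lt (Metric.infDist_le_dist_of_mem ⟨j, rfl⟩) ?_
    rw [Real.dist_eq]
    simp only [hj]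
    exact hq x
  have h2 : Metric.infDist (φ x) (range fun j => ((Q j : ℚ) : ℝ)) / r m < η / 2 := by
    rw [div_lt_iff₀ (hr m)]
    linarith
  have h3 : 0 ≤ Metric.infDist (φ x) (range fun j => ((Q j : ℚ) : ℝ)) / r m :=
    div_nonneg Metric.infDist_nonneg (hr m).le
  have h4 : (0 : ℝ) < 1 / ((m : ℝ) + 1) := by positivity
  simp only [af, zeroFn, sub_zero]
  rw [abs_of_pos (by linarith)]
  linarith

/-- If the functions converge to `0` at some point, then their numbers `m` tend to infinity. -/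
theorem tendsto_num (φ : X → ℝ) (hφ : Continuous φ) (r : ℕ → ℝ) (hr : ∀ m, 0 < r m)
    (p : ℕ → Σ m : ℕ, (Fin (m + 1) → ℚ)) (x : X)
    (h : Tendsto (fun n => (af φ hφ r (p n)).1 x) atTop (𝓝 0)) :
    Tendsto (fun n => (p n).1) atTop atTop := by
  have hmpos : ∀ n, (0 : ℝ) < 1 / (((p n).1 : ℝ) + 1) := fun n => by positivity
  have hlow : ∀ n, 1 / (((p n).1 : ℝ) + 1) ≤ (af φ hφ r (p n)).1 x := by
    intro n
    simp only [af]
    have : 0 ≤ Metric.infDist (φ x) (range fun j => (((p n).2 j : ℚ) : ℝ)) / r (p n).1 :=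
      div_nonneg Metric.infDist_nonneg (hr _).le
    linarith
  have h1 : Tendsto (fun n => 1 / (((p n).1 : ℝ) + 1)) atTop (𝓝 0) :=
    squeeze_zero (fun n => (hmpos n).le) (fun n => hlow n) h
  rw [tendsto_atTop]
  intro N
  have h2 : (0 : ℝ) < 1 / ((N : ℝ) + 1) := by positivity
  filter_upwards [(Metric.tendsto_nhds.1 h1) _ h2] with n hn
  rw [Real.dist_eq, sub_zero, abs_of_pos (hmpos n)] at hn
  have h3 := (one_div_lt_one_div (by positivity) (by positivity)).1 hn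
  have h4 : (N : ℝ) < (p n).1 := by linarith
  exact le_of_lt (by exact_mod_cast h4)

theorem exists_near (φ : X → ℝ) (hφ : Continuous φ) (r : ℕ → ℝ) (hr : ∀ m, 0 < r m)
    (p : Σ m : ℕ, (Fin (m + 1) → ℚ)) (x : X) (h : |(af φ hφ r p).1 x| < 1) :
    ∃ j, |φ x - ((p.2 j : ℚ) : ℝ)| < r p.1 := by
  have h2 : (af φ hφ r p).1 x < 1 := (abs_lt.1 h).2
  simp only [af] at h2
  have h3 : Metric.infDist (φ x) (range fun j => ((p.2 j : ℚ) : ℝ)) < r p.1 := by
    have h4 : (0 : ℝ) < 1 / ((p.1 : ℝ) + 1) := by positivity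
    have h5 : Metric.infDist (φ x) (range fun j => ((p.2 j : ℚ) : ℝ)) / r p.1 < 1 := by linarith
    rwa [div_lt_one (hr _)] at h5
  rw [Metric.infDist_lt_iff (range_nonempty _)] at h3
  obtain ⟨_, ⟨j, rfl⟩, hj⟩ := h3
  rw [Real.dist_eq] at hj
  exact ⟨j, hj⟩

end Pool.Agent.LibFS55
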