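import Pool.Agent.LibFS55.L2
import Pool.Agent.LibFS55.L3

/-! The combinatorial core. -/

set_option autoImplicit false

namespace Pool.Agent.LibFS55

open Set Topology Filter Pool.Agent.LibFsep
open scoped Cardinal

universe u

/-- The combinatorial core. -/
theorem core {X : Type u} [TopologicalSpace X] {S : Type} [Nonempty S] (φ : X → ℝ)
    (hφ : Continuous φ) (e : S → X) (d : ℕ → ℕ) (r : ℕ → ℝ) (hr : ∀ m, 0 < r m)
    (hgap : ∀ m, ∀ a z : ℝ, |z - a| < r m →
      (∀ k, k < d (2 * m + 1) → (k ∈ cut z ↔ k ∈ cut (a - r m))) ∨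
        ∀ k, k < d (2 * m + 1) → (k ∈ cut z ↔ k ∈ cut (a + r m)))
    (p : ℕ → Σ m : ℕ, (Fin (m + 1) → ℚ))
    (h : ∀ i, Tendsto (fun n => (af φ hφ r (p n)).1 (e i)) atTop (𝓝 0)) :
    ∃ (E : Set ℕ) (x : ℕ → ℕ → Set ℕ), E.Infinite ∧ ∀ i, ∃ n, ∀ m, n ≤ m → m ∈ E →
      ∃ j, j ≤ m ∧ ∀ k, k < d m → (k ∈ cut (φ (e i)) ↔ k ∈ x m j) := by
  classical
  obtain ⟨i0⟩ := ‹Nonempty S›
  have hlim : Tendsto (fun n => (p n).1) atTop atTop := tendsto_num φ hφ r hr p (e i0) (h i0)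
  let E : Set ℕ := {M | ∃ n, M = 2 * (p n).1 + 1}
  let N : ℕ → ℕ := fun M => if hM : ∃ n, M = 2 * (p n).1 + 1 then hM.choose else 0
  have hN : ∀ M ∈ E, M = 2 * (p (N M)).1 + 1 := by
    intro M hM
    have hM' : ∃ n, M = 2 * (p n).1 + 1 := hM
    have h1 : N M = hM'.choose := dif_pos hM'
    rw [h1]
    exact hM'.choose_spec
  let q : ℕ → ℕ → ℝ := fun M j =>
    if hj : j < (p (N M)).1 + 1 then (((p (N M)).2 ⟨j, hj⟩ : ℚ) : ℝ) else 0
  let x : ℕ → ℕ → Set ℕ := fun M j =>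
    if j % 2 = 0 then cut (q M (j / 2) - r (p (N M)).1) else cut (q M (j / 2) + r (p (N M)).1)
  refine ⟨E, x, ?_, fun i => ?_⟩
  · rw [Set.infinite_iff_exists_gt]
    intro a
    obtain ⟨n, hn⟩ := (tendsto_atTop.1 hlim (a + 1)).exists
    exact ⟨2 * (p n).1 + 1, ⟨n, rfl⟩, by omega⟩
  · have h1 : ∀ᶠ n in atTop, |(af φ hφ r (p n)).1 (e i)| < 1 := by
      filter_upwards [(Metric.tendsto_nhds.1 (h i)) 1 one_pos] with n hn
      rwa [Real.dist_eq, sub_zero] at hn
    obtain ⟨n0, hn0⟩ := eventually_atTop.1 h1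
    obtain ⟨B, hB⟩ : ∃ B, ∀ n, n < n0 → 2 * (p n).1 + 1 < B := by
      refine ⟨(Finset.range n0).sup (fun n => 2 * (p n).1 + 1) + 1, fun n hn => ?_⟩
      exact Nat.lt_succ_of_le
        (Finset.le_sup (f := fun n => 2 * (p n).1 + 1) (Finset.mem_range.2 hn))
    refine ⟨B, fun M hM hME => ?_⟩
    have hM1 := hN M hME
    have hNM : n0 ≤ N M := by
      by_contra hc
      have := hB (N M) (not_le.1 hc)
      omega
    obtain ⟨j, hj⟩ := exists_near φ hφ r hr (p (N M)) (e i) (hn0 _ hNM)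
    have hq : q M j = (((p (N M)).2 j : ℚ) : ℝ) := dif_pos j.2
    rcases hgap (p (N M)).1 _ _ hj with h2 | h2
    · refine ⟨2 * (j : ℕ), ?_, fun k hk => ?_⟩
      · have := j.2
        omega
      · have h3 : x M (2 * (j : ℕ)) = cut (q M j - r (p (N M)).1) := by
          simp only [x]
          rw [if_pos (by omega)]
          congr 3
          omega
        rw [h3, hq]
        exact h2 k (by rwa [← hM1])
    · refine ⟨2 * (j : ℕ) + 1, ?_, fun k hk => ?_⟩
      · have := j.2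
        omega
      · have h3 : x M (2 * (j : ℕ) + 1) = cut (q M j + r (p (N M)).1) := by
          simp only [x]
          rw [if_neg (by omega)]
          congr 3
          omega
        rw [h3, hq]
        exact h2 k (by rwa [← hM1])

end Pool.Agent.LibFS55
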