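import Pool.Agent.LibFS55.L1
import Pool.Agent.LibFS55.L4a

/-! `F`-separability implies countability. -/

set_option autoImplicit false

namespace Pool.Agent.LibFS55

open Set Topology Filter Pool.Agent.LibFsep
open scoped Cardinal

universe u

theorem countable_of_fSeparable {X : Type u} [TopologicalSpace X] [T35Space X] {S : Type}
    [LinearOrder S] (h : ∀ a : S, (Iio a).Countable) (hd : DomS S) (hs : SepS S)
    (hX : FSeparable (Cp X)) : Countable X := by
  classical
  by_contra hunc
  rw [not_countable_iff] at hunc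
  have hSu : Uncountable S := uncountable_of_sep hs
  have hSle : #S ≤ Cardinal.aleph 1 := mk_le_aleph_one h
  have hSb : #S < bounding := lt_bounding hd
  have hXle : Cardinal.aleph 1 ≤ #X := by
    rw [← Cardinal.succ_aleph0, Order.succ_le_iff]
    exact Cardinal.aleph0_lt_mk_iff.2 hunc
  have hSX : Cardinal.lift.{u} #S ≤ Cardinal.lift.{0} #X := by
    rw [Cardinal.lift_uzero]
    refine (Cardinal.lift_le.2 hSle).trans ?_
    rw [Cardinal.lift_aleph, Ordinal.lift_one]
    exact hXle
  obtain ⟨e⟩ := Cardinal.lift_mk_le'.1 hSX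
  have hYmk : #(range e) = Cardinal.lift.{u} #S := by
    have h1 := Cardinal.mk_range_eq_of_injective e.injective
    rw [Cardinal.lift_uzero] at h1
    exact h1
  have hY : #(range e) < Cardinal.lift.{u} bounding := by
    rw [hYmk]
    exact Cardinal.lift_lt.2 hSb
  have hYc : #(range e) < Cardinal.continuum := by
    refine hY.trans_le ?_
    refine (Cardinal.lift_le.2 bounding_le_continuum).trans ?_
    rw [Cardinal.lift_continuum]
  have hYinf : ℵ₀ ≤ #(range e) := by
    rw [hYmk, Cardinal.aleph0_le_lift]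
    exact Cardinal.aleph0_le_mk_iff.2 inferInstance
  obtain ⟨D, hD, hF⟩ := hX
  have hcl : closure D = Set.univ := by
    ext f
    simp only [Set.mem_univ, iff_true]
    have : f ∈ FClosure D := by rw [hF]; trivial
    exact this.1
  obtain ⟨φ, hφ, hinj⟩ := exists_injOn hD hcl (range e) hYc hYinf
  obtain ⟨d, hd'⟩ := hs (fun i => cut (φ (e i))) (fun i j hij => by
    have h1 : φ (e i) = φ (e j) := cut_injective hij
    exact e.injective (hinj ⟨i, rfl⟩ ⟨j, rfl⟩ h1))
  choose r hr hgap using fun m => exists_gap (d (2 * m + 1))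
  obtain ⟨s, hsA, hs'⟩ := selection hF hY (range (af φ hφ r)) (countable_range _)
    (zero_mem_closure φ hφ r hr)
  choose p hp using hsA
  have hlim : ∀ i, Tendsto (fun n => (af φ hφ r (p n)).1 (e i)) atTop (𝓝 0) := by
    intro i
    have h1 := hs' (e i) ⟨i, rfl⟩
    refine h1.congr fun n => ?_
    rw [hp n]
  obtain ⟨E, x, hE, hx⟩ := core φ hφ e d r hr hgap p hlim
  obtain ⟨i, hi⟩ := hd' E x hE
  obtain ⟨n, hn⟩ := hx i
  obtain ⟨m, hm, hmE, hm2⟩ := hi n
  obtain ⟨j, hj, hj2⟩ := hn m hm hmE
  obtain ⟨k, hk, hk2⟩ := hm2 j hj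
  exact hk2 (hj2 k hk)

end Pool.Agent.LibFS55
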