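import Pool.Agent.LibFS55.L4

/-! The implications. -/

set_option autoImplicit false

namespace Pool.Agent.LibFS55

open Set Topology Filter Pool.Agent.LibFsep
open scoped Cardinal

universe u

theorem q1_of_phi1 (h : Phi1) : Q1.{u} := by
  obtain ⟨S, _, _, h1, h2, h3⟩ := h
  intro X _ _ hX
  have hc : Countable X := countable_of_fSeparable h1 h2 h3 hX
  infer_instance

theorem lt_pseudo {S : Type} (hS : Uncountable S)
    (h : ∀ F : S → Set ℕ, (∀ A : Finset S, (⋂ i ∈ A, F i).Infinite) →
      ∃ P : Set ℕ, P.Infinite ∧ ∀ i, ∃ m, ∀ k, m ≤ k → k ∈ P → k ∈ F i) : #S < pseudo := by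
  classical
  have hne : {κ | ∃ P : Set (Set ℕ), SFIP P ∧ ¬ HasPseudo P ∧ #P = κ}.Nonempty := by
    refine ⟨_, {A | A ∈ (hyperfilter ℕ : Filter ℕ)}, ?_, ?_, rfl⟩
    · intro Q hQ
      have h1 : ⋂₀ (Q : Set (Set ℕ)) ∈ (hyperfilter ℕ : Filter ℕ) :=
        (Filter.sInter_mem Q.finite_toSet).2 fun A hA => hQ hA
      exact Set.not_finite.1 fun hfin => (notMem_hyperfilter_of_finite hfin) h1
    · rintro ⟨B, hB, hB2⟩
      -- split `B` into two infinite parts
      obtain ⟨f, hf, hfB⟩ : ∃ f : ℕ → ℕ, StrictMono f ∧ ∀ n, f n ∈ B :=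
        ⟨Nat.nth (· ∈ B), Nat.nth_strictMono hB, fun n => Nat.nth_mem_of_infinite hB n⟩
      let C : Set ℕ := range fun n => f (2 * n)
      rcases (hyperfilter ℕ).mem_or_compl_mem C with hC | hC
      · have h1 := hB2 C hC
        have h2 : (range fun n => f (2 * n + 1)) ⊆ B \ C := by
          rintro _ ⟨n, rfl⟩
          refine ⟨hfB _, ?_⟩
          rintro ⟨m, hm⟩
          have := hf.injective hm
          omega
        exact (Set.infinite_range_of_injective
          (hf.injective.comp (fun a b hab => by simpa using hab))) (h1.subset h2)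
      · have h1 := hB2 Cᶜ hC
        have h2 : (range fun n => f (2 * n)) ⊆ B \ Cᶜ := by
          rintro _ ⟨n, rfl⟩
          exact ⟨hfB _, fun hc => hc ⟨n, rfl⟩⟩
        exact (Set.infinite_range_of_injective
          (hf.injective.comp (fun a b hab => by simpa using hab))) (h1.subset h2)
  obtain ⟨P, hP, hP2, hPc⟩ := csInf_mem hne
  change #P = pseudo at hPc
  rw [← hPc]
  by_contra hle
  rw [not_lt] at hle
  apply hP2
  obtain ⟨e⟩ := Cardinal.le_def _ _ |>.1 hle
  rcases P.eq_empty_or_nonempty with rfl | hPne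
  · exact ⟨Set.univ, Set.infinite_univ, by simp⟩
  have : Nonempty P := hPne.to_subtype
  let F : S → Set ℕ := fun w => (Function.invFun e w : P).1
  obtain ⟨B, hB, hB2⟩ := h F (by
    intro A
    have h1 := hP (A.image F) (by
      intro x hx
      simp only [Finset.coe_image, Set.mem_image, Finset.mem_coe] at hx
      obtain ⟨w, _, rfl⟩ := hx
      exact (Function.invFun e w : P).2)
    refine h1.mono ?_
    intro k hk
    simp only [Set.mem_iInter]
    intro i hi
    exact hk (F i) (by simpa using ⟨i, hi, rfl⟩))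
  refine ⟨B, hB, fun T hT => ?_⟩
  obtain ⟨m, hm⟩ := hB2 (e ⟨T, hT⟩)
  have hFT : F (e ⟨T, hT⟩) = T := by
    change ((Function.invFun e (e ⟨T, hT⟩) : P) : Set ℕ) = T
    rw [Function.leftInverse_invFun e.injective]
  rw [hFT] at hm
  refine (Set.finite_lt_nat m).subset ?_
  rintro k ⟨hk, hkT⟩
  by_contra hc
  exact hkT (hm k (not_lt.1 hc) hk)

theorem not_q1_of_phi2 (h : Phi2) : ¬ Q1.{u} := by
  obtain ⟨S, hS, hF⟩ := h
  have hp0 : #S < pseudo := lt_pseudo hS hF
  have hp : Cardinal.aleph 1 < pseudo := by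
    refine lt_of_le_of_lt ?_ hp0
    rw [← Cardinal.succ_aleph0, Order.succ_le_iff]
    exact Cardinal.aleph0_lt_mk_iff.2 hS
  intro hQ
  let X : Type u := ULift.{u} (Cardinal.aleph 1 : Cardinal.{0}).out
  have hX : #X = Cardinal.lift.{u} (Cardinal.aleph.{0} 1) := by
    simp [X]
  let _ : TopologicalSpace X := ⊥
  have : DiscreteTopology X := ⟨rfl⟩
  have hunc : Uncountable X := by
    rw [← Cardinal.aleph0_lt_mk_iff, hX]
    simp
  have hlt : #X < Cardinal.lift.{u} pseudo := by
    rw [hX]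
    exact Cardinal.lift_lt.2 hp
  exact not_frechet X hunc (hQ X (fSeparable_discrete X hunc hlt))

end Pool.Agent.LibFS55
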