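import Pool.Agent.LibFsep.Basic

/-!
The statements whose Boolean-valued forms are in `Sent.lean`, and the question Q1.
-/

set_option autoImplicit false

namespace Pool.Agent.LibFS55

open Set Topology Filter Pool.Agent.LibFsep

universe u

/-- There is a well-ordered set `S` with countable initial segments (an ordinal all of whose elements
are countable) such that: (1) each family of functions from `ℕ` to `ℕ`, indexed by `S`, is dominated
by one function; (2) for each family `y` of different subsets of `ℕ`, indexed by `S`, there is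
`d : ℕ → ℕ` such that for each infinite `E ⊆ ℕ` and all `x m j ⊆ ℕ` there is `i ∈ S` such that for
infinitely many `m ∈ E` the set `y i` differs below `d m` from all the sets `x m j` with `j ≤ m`. -/
def Phi1 : Prop :=
  ∃ (S : Type) (_ : LinearOrder S) (_ : WellFoundedLT S), (∀ a : S, (Iio a).Countable) ∧
    (∀ f : S → ℕ → ℕ, ∃ g : ℕ → ℕ, ∀ i, ∃ m, ∀ n, m ≤ n → f i n ≤ g n) ∧
    ∀ y : S → Set ℕ, Function.Injective y → ∃ d : ℕ → ℕ, ∀ (E : Set ℕ) (x : ℕ → ℕ → Set ℕ),
      E.Infinite → ∃ i : S, ∀ n, ∃ m, n ≤ m ∧ m ∈ E ∧ ∀ j, j ≤ m → ∃ k, k < d m ∧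
        ¬ (k ∈ y i ↔ k ∈ x m j)

/-- There is an uncountable set `S` such that for each family `F` of subsets of `ℕ`, indexed by `S`,
all of whose finite subfamilies have infinite intersections, there is an infinite set `P` which is
almost contained in each member of the family. -/
def Phi2 : Prop :=
  ∃ S : Type, Uncountable S ∧ ∀ F : S → Set ℕ, (∀ A : Finset S, (⋂ i ∈ A, F i).Infinite) →
    ∃ P : Set ℕ, P.Infinite ∧ ∀ i, ∃ m, ∀ k, m ≤ k → k ∈ P → k ∈ F i

/-- The statement of Q1: for every Tychonoff space `X`, if `C_p(X)` is `F`-separable, then `C_p(X)`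
is Frechet-Urysohn. -/
def Q1 : Prop :=
  ∀ (X : Type u) [TopologicalSpace X] [T35Space X],
    FSeparable (Cp X) → FrechetUrysohnSpace (Cp X)

end Pool.Agent.LibFS55
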