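import Pool.Agent.LibFS55.Raw

/-! The number of conditions. -/

set_option autoImplicit false

namespace Pool.Agent.LibFS55

open Set Cardinal

theorem R10a_gen {S N Z : Type} [Infinite Z] (f : S ↪ Z) (g : N ↪ Z) : #(Raw S N) ≤ #Z := by
  classical
  have hinj : Function.Injective (fun p : Raw S N =>
      p.fin.toFinset.image (fun β => (f β, p.s β, (p.A β).map g))) := by
    have key : ∀ p q : Raw S N,
        p.fin.toFinset.image (fun β => (f β, p.s β, (p.A β).map g)) =
          q.fin.toFinset.image (fun β => (f β, q.s β, (q.A β).map g)) →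
        ∀ β, (p.s β ≠ [] ∨ p.A β ≠ ∅) → p.s β = q.s β ∧ p.A β = q.A β := by
      intro p q h β hβ
      have h1 : (f β, p.s β, (p.A β).map g) ∈
          p.fin.toFinset.image (fun β => (f β, p.s β, (p.A β).map g)) :=
        Finset.mem_image.2 ⟨β, by simpa using hβ, rfl⟩
      rw [h] at h1
      obtain ⟨γ, -, h2⟩ := Finset.mem_image.1 h1
      have h3 : f γ = f β := congrArg Prod.fst h2
      have h4 : γ = β := f.injective h3
      subst h4
      have h5 : q.s γ = p.s γ := congrArg (fun x => x.2.1) h2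
      have h6 : (q.A γ).map g = (p.A γ).map g := congrArg (fun x => x.2.2) h2
      exact ⟨h5.symm, (Finset.map_injective g h6).symm⟩
    intro p q h
    have h' : ∀ β, p.s β = q.s β ∧ p.A β = q.A β := by
      intro β
      by_cases h1 : p.s β ≠ [] ∨ p.A β ≠ ∅
      · exact key p q h β h1
      · by_cases h2 : q.s β ≠ [] ∨ q.A β ≠ ∅
        · have h3 := key q p h.symm β h2
          exact ⟨h3.1.symm, h3.2.symm⟩
        · push Not at h1 h2
          exact ⟨h1.1.trans h2.1.symm, h1.2.trans h2.2.symm⟩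
    exact Raw.ext (funext fun β => (h' β).1) (funext fun β => (h' β).2)
  refine (Cardinal.mk_le_of_injective hinj).trans ?_
  rw [Cardinal.mk_finset_of_infinite]
  rw [Cardinal.mk_prod, Cardinal.mk_prod, Cardinal.mk_finset_of_infinite]
  simp only [Cardinal.lift_id]
  have hZ : ℵ₀ ≤ #Z := Cardinal.aleph0_le_mk Z
  have hL : #(List ℕ) ≤ #Z := (Cardinal.mk_le_aleph0 (α := List ℕ)).trans hZ
  calc #Z * (#(List ℕ) * #Z) ≤ #Z * (#Z * #Z) := by gcongr
    _ = #Z := by rw [Cardinal.mul_eq_self hZ, Cardinal.mul_eq_self hZ]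

theorem mk_Raw_le {S N : Type} [Infinite N] (h : #S ≤ #N) : #(Raw S N) ≤ #N := by
  obtain ⟨f⟩ := (Cardinal.le_def _ _).1 h
  exact R10a_gen f (Function.Embedding.refl N)

theorem mk_Raw_le' {S N : Type} [Infinite S] (h : #N ≤ #S) : #(Raw S N) ≤ #S := by
  obtain ⟨f⟩ := (Cardinal.le_def _ _).1 h
  exact R10a_gen (Function.Embedding.refl S) f

end Pool.Agent.LibFS55
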