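import Pool.Agent.LibFS55.R10a

/-! The first catalogue. -/

set_option autoImplicit false

namespace Pool.Agent.LibFS55

open Set Cardinal

private theorem R10b_bdd : Bdd1 (aleph 2).ord.ToType := by
  intro X hX
  by_contra hcon
  have hcof : IsCofinal X := by
    intro x
    by_contra hx
    apply hcon
    refine ⟨x, fun v hv => ?_⟩
    by_contra hvx
    exact hx ⟨v, hv, not_lt.1 hvx⟩
  have h1 := Order.cof_le hcof
  have hreg : (aleph 2).IsRegular := by
    have := isRegular_aleph_add_one 1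
    rwa [one_add_one_eq_two] at this
  rw [Ordinal.cof_toType, hreg.cof_ord] at h1
  have h2 : aleph 1 < aleph 2 := aleph_lt_aleph.2 one_lt_two
  exact absurd (h1.trans hX) (not_le.2 h2)

private theorem R10b_pow {μ κ : Cardinal} (hκ : ℵ₀ ≤ κ) (h : μ ≤ 2 ^ κ) : μ ^ ℵ₀ ≤ 2 ^ κ := by
  calc μ ^ ℵ₀ ≤ (2 ^ κ) ^ ℵ₀ := power_le_power_right h
    _ = 2 ^ (κ * ℵ₀) := power_mul.symm
    _ = 2 ^ κ := by rw [mul_aleph0_eq hκ]

private theorem R10b_seq {α : Type} (G : Set α) (hG : G.Countable) :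
    ∃ f : ℕ → Option α, ∀ c, c ∈ G ↔ ∃ j, f j = some c := by
  rcases G.eq_empty_or_nonempty with rfl | hne
  · exact ⟨fun _ => none, by simp⟩
  · obtain ⟨f, hf⟩ := hG.exists_eq_range hne
    refine ⟨fun j => some (f j), fun c => ?_⟩
    rw [hf]
    simp

theorem exists_HLab : ∃ (S N : Type) (_ : LinearOrder S) (_ : WellFoundedLT S) (_ : Nonempty S)
    (lab : S → N → List ℕ → ℕ → Set (Raw S N)), HLab lab ∧ Bdd1 S := by
  classical
  let S : Type := (aleph 2).ord.ToType
  have hS : #S = aleph 2 := by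
    show #((aleph 2).ord.ToType) = aleph 2
    rw [Cardinal.mk_toType, Cardinal.card_ord]
  have hS0 : ℵ₀ ≤ #S := by
    rw [hS]
    exact aleph0_le_aleph 2
  have hSinf : Infinite S := infinite_iff.2 hS0
  have hN : #(Set S) = 2 ^ #S := mk_set
  have hSN : #S ≤ #(Set S) := by
    rw [hN]
    exact (cantor _).le
  have hNinf : Infinite (Set S) := infinite_iff.2 (hS0.trans hSN)
  have hR : #(Raw S (Set S)) ≤ #(Set S) := mk_Raw_le hSN
  have hX : #(Option (Raw S (Set S))) ≤ 2 ^ #S := by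
    rw [mk_option, ← hN]
    exact (add_le_add hR (one_le_aleph0.trans (hS0.trans hSN))).trans
      (add_eq_self (hS0.trans hSN)).le
  have hT : #(List ℕ → ℕ → ℕ → Option (Raw S (Set S))) ≤ #(Set S) := by
    rw [hN]
    simp only [mk_arrow, lift_id, mk_nat, mk_list_eq_aleph0]
    exact R10b_pow hS0 (R10b_pow hS0 (R10b_pow hS0 hX))
  obtain ⟨i⟩ := Cardinal.le_def _ _ |>.1 hT
  let e : Set S → (List ℕ → ℕ → ℕ → Option (Raw S (Set S))) := Function.invFun i
  have he : Function.Surjective e := Function.invFun_surjective i.injective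
  refine ⟨S, Set S, inferInstance, inferInstance, inferInstance,
    fun _ n t k => {c | ∃ k' ≤ k, ∃ j, e n t k' j = some c}, ⟨?_, ?_⟩, R10b_bdd⟩
  · rintro β n t k k' hk c ⟨k₁, h1, j, hj⟩
    exact ⟨k₁, h1.trans hk, j, hj⟩
  · intro β G hG
    choose f hf using fun t k => R10b_seq (G t k) (hG t k)
    obtain ⟨n, hn⟩ := he f
    refine ⟨n, fun t k => ?_⟩
    ext c
    simp only [Set.mem_ofPred_eq, hn]
    constructor
    · rintro ⟨k', h1, j, hj⟩
      exact ⟨k', h1, (hf t k' c).2 ⟨j, hj⟩⟩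
    · rintro ⟨k', h1, h2⟩
      exact ⟨k', h1, (hf t k' c).1 h2⟩

end Pool.Agent.LibFS55
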