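import Pool.Agent.LibFS55.Bool

/-! The type `W1`. -/

set_option autoImplicit false

namespace Pool.Agent.LibFS55

open Cardinal

theorem mk_W1 : #W1 = aleph 1 := by rw [Cardinal.mk_toType, Cardinal.card_ord]

instance : Uncountable W1 := by
  rw [← Cardinal.aleph0_lt_mk_iff, mk_W1]
  exact Cardinal.aleph0_lt_aleph_one

theorem W1_Iio (a : W1) : (Set.Iio a).Countable := by
  rw [← Cardinal.le_aleph0_iff_set_countable]
  have h : #(Set.Iio a) < aleph 1 := by
    have h6 := mk_Iio_lt a (by rw [mk_ord_toType, Ordinal.type_toType])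
    rwa [mk_ord_toType] at h6
  exact Order.lt_succ_iff.mp (h.trans_eq Cardinal.succ_aleph0.symm)

theorem mk_W1_prod : #(W1 × ℕ × ℕ) = aleph 1 := by
  have h : ℵ₀ ≤ aleph 1 := Cardinal.aleph0_lt_aleph_one.le
  simp only [mk_prod, lift_id, mk_W1, mk_nat, aleph0_mul_aleph0]
  exact mul_eq_left h h aleph0_ne_zero

theorem mk_W1_prod' : #(W1 × ℕ) = aleph 1 := by
  have h : ℵ₀ ≤ aleph 1 := Cardinal.aleph0_lt_aleph_one.le
  simp only [mk_prod, lift_id, mk_W1, mk_nat]
  exact mul_eq_left h h aleph0_ne_zero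

end Pool.Agent.LibFS55
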