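import Pool.Agent.LibFS55.R10a
import Pool.Agent.LibFS55.W1

/-! The second catalogue. -/

set_option autoImplicit false

namespace Pool.Agent.LibFS55

open Set Cardinal

theorem R10c_seq {X : Type} {A : Set X} (hA : A.Countable) :
    ∃ f : ℕ → Option X, ∀ c, (∃ j, f j = some c) ↔ c ∈ A := by
  rcases A.eq_empty_or_nonempty with rfl | hne
  · exact ⟨fun _ => none, fun c => by simp⟩
  · obtain ⟨f, hf⟩ := hA.exists_eq_range hne
    refine ⟨fun j => some (f j), fun c => ?_⟩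
    rw [hf]
    simp

theorem R10c_Iic {κ : Cardinal.{0}} (h0 : ℵ₀ ≤ κ) (β : κ.ord.ToType) :
    #(Iic β) < κ := by
  have h1 : #(Iio β) < κ := by
    have h6 := mk_Iio_lt β (by rw [mk_ord_toType, Ordinal.type_toType])
    rwa [mk_ord_toType] at h6
  have h2 : Iic β = insert β (Iio β) := by
    ext x
    simp [le_iff_eq_or_lt]
  rw [h2]
  refine (Cardinal.mk_insert_le).trans_lt ?_
  exact Cardinal.add_lt_of_lt h0 h1 (Cardinal.one_lt_aleph0.trans_le h0)

theorem R10c_bdd {κ : Cardinal.{0}} (h : aleph 1 < κ.ord.cof) : Bdd1 κ.ord.ToType := by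
  intro X hX
  by_contra hcon
  have hcof : IsCofinal X := by
    intro x
    by_contra hx
    apply hcon
    refine ⟨x, fun v hv => ?_⟩
    by_contra hvx
    exact hx ⟨v, hv, not_lt.1 hvx⟩
  have h1 := Order.cof_le hcof
  rw [Ordinal.cof_toType] at h1
  exact absurd (h1.trans hX) (not_le.2 h)

theorem exists_PLab : ∃ (S : Type) (_ : LinearOrder S) (_ : WellFoundedLT S) (_ : Nonempty S)
    (lab : S → W1 → List ℕ → ℕ → Set (Raw S W1)), PLab lab ∧ Bdd1 S := by
  classical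
  have ha : ℵ₀ ≤ aleph 1 := Cardinal.aleph0_le_aleph 1
  obtain ⟨κ, hκ⟩ : ∃ κ : Cardinal.{0}, κ = 2 ^ aleph 1 := ⟨_, rfl⟩
  have hcof : aleph 1 < κ.ord.cof := by
    rw [hκ]
    exact Cardinal.lt_cof_ord_power ha (by norm_num)
  have hlt : aleph 1 < κ := by
    rw [hκ]
    exact Cardinal.cantor _
  have h0 : ℵ₀ ≤ κ := ha.trans hlt.le
  have hpow : κ ^ aleph 1 = κ := by
    rw [hκ, ← Cardinal.power_mul, Cardinal.mul_eq_self ha]
  have hS : #κ.ord.ToType = κ := mk_ord_toType κ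
  have : Infinite κ.ord.ToType := by
    rw [Cardinal.infinite_iff, hS]
    exact h0
  have hne : Nonempty κ.ord.ToType := inferInstance
  have hraw : #(Raw κ.ord.ToType W1) ≤ κ := by
    refine (mk_Raw_le' ?_).trans hS.le
    rw [hS, mk_W1]
    exact hlt.le
  have hopt : #(Option (Raw κ.ord.ToType W1)) ≤ κ := by
    rw [Cardinal.mk_option]
    exact Cardinal.add_le_of_le h0 hraw (Cardinal.one_lt_aleph0.le.trans h0)
  have hT : #(W1 → ℕ → ℕ → Option (Raw κ.ord.ToType W1)) ≤ κ := by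
    have h1 : #(W1 → ℕ → ℕ → Option (Raw κ.ord.ToType W1)) =
        ((#(Option (Raw κ.ord.ToType W1)) ^ ℵ₀) ^ ℵ₀) ^ aleph 1 := by
      simp only [Cardinal.mk_arrow, Cardinal.lift_id, mk_W1, Cardinal.mk_nat]
    rw [h1]
    have h2 : ∀ x : Cardinal.{0}, x ≤ κ → x ^ ℵ₀ ≤ κ := by
      intro x hx
      calc x ^ ℵ₀ ≤ κ ^ ℵ₀ := Cardinal.power_le_power_right hx
        _ ≤ κ ^ aleph 1 := Cardinal.power_le_power_left
            (fun h => by rw [h] at h0; exact absurd h0 (not_le.2 Cardinal.aleph0_pos)) ha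
        _ = κ := hpow
    calc _ ≤ κ ^ aleph 1 := Cardinal.power_le_power_right (h2 _ (h2 _ hopt))
      _ = κ := hpow
  have hTS : #((W1 → ℕ → ℕ → Option (Raw κ.ord.ToType W1)) × κ.ord.ToType) ≤
      #κ.ord.ToType := by
    rw [Cardinal.mk_prod, Cardinal.lift_id, Cardinal.lift_id, hS]
    calc _ ≤ κ * κ := mul_le_mul_left hT κ
      _ = κ := Cardinal.mul_eq_self h0
  obtain ⟨i⟩ := (Cardinal.le_def _ _).1 hTS
  have hneT : Nonempty ((W1 → ℕ → ℕ → Option (Raw κ.ord.ToType W1)) × κ.ord.ToType) :=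
    ⟨(fun _ _ _ => none, hne.some)⟩
  have he := Function.invFun_surjective i.injective
  refine ⟨κ.ord.ToType, inferInstance, inferInstance, hne,
    fun β n t k => {c | t.length ≤ k ∧ ∃ j, (Function.invFun i β).1 n k j = some c}, ?_,
    R10c_bdd hcof⟩
  intro β₀ G hG
  choose f hf using fun n k => R10c_seq (hG n k)
  have hex : ∃ β, β₀ < β ∧ (Function.invFun i β).1 = f := by
    by_contra hcon
    push Not at hcon
    have hsur : Function.Surjective (fun β : Iic β₀ => (Function.invFun i β.1).2) := by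
      intro s
      obtain ⟨β, hβ⟩ := he (f, s)
      have h1 : β ≤ β₀ := by
        by_contra h2
        exact hcon β (not_le.1 h2) (by rw [hβ])
      exact ⟨⟨β, h1⟩, by simp only; rw [hβ]⟩
    have h1 := Cardinal.mk_le_of_surjective hsur
    rw [hS] at h1
    exact absurd h1 (not_le.2 (R10c_Iic h0 β₀))
  obtain ⟨β, hβ, hβf⟩ := hex
  refine ⟨β, hβ, fun n t k => ?_⟩
  ext c
  simp only [Set.mem_ofPred_eq]
  rw [hβf, hf n k c]

end Pool.Agent.LibFS55
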