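import Pool.Agent.LibFS55.R6

/-! Limit stages. -/

set_option autoImplicit false

namespace Pool.Agent.LibFS55

open Pool.Agent.LibTk83 Set Cardinal

variable {S N : Type} [LinearOrder S] [WellFoundedLT S]
  {lab : S → N → List ℕ → ℕ → Set (Raw S N)}

omit [WellFoundedLT S] in
private theorem R7_max {F : Set S} (hF : F.Finite) (α₀ : S) :
    ∃ β, α₀ ≤ β ∧ (∀ x ∈ F, x ≤ β) ∧ (β = α₀ ∨ β ∈ F) := by
  obtain ⟨β, hβ, hmax⟩ := Set.exists_max_image (insert α₀ F) id (hF.insert α₀)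
    ⟨α₀, Set.mem_insert _ _⟩
  exact ⟨β, hmax α₀ (Set.mem_insert _ _), fun x hx => hmax x (Set.mem_insert_of_mem _ hx), hβ⟩

theorem dense_Iio {α₀ α : S} (h : α₀ < α) {b : RO (PT lab)} (hb : b ∈ CX lab (Iio α))
    (h0 : b ≠ ⊥) : ∃ β, α₀ ≤ β ∧ β < α ∧ ∃ c ∈ CX lab (Iic β), c ≠ ⊥ ∧ c ≤ b := by
  obtain ⟨p, hp⟩ := RO.ne_bot_iff.1 h0
  have hp' : PT.res (Iio α) p ∈ b := hb p hp
  have hsupp : (PT.res (Iio α) p).1.supp = p.1.supp ∩ Iio α := PT.supp_res _ p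
  obtain ⟨β, h1, h2, h3⟩ := R7_max (PT.res (Iio α) p).1.fin α₀
  have hβ : β < α := by
    rcases h3 with h3 | h3
    · rw [h3]
      exact h
    · have h4 : β ∈ (PT.res (Iio α) p).1.supp := h3
      rw [hsupp] at h4
      exact h4.2
  exact ⟨β, h1, hβ, RO.of (PT.res (Iio α) p), of_mem_CX (isLowerSet_Iic β) (fun x hx => h2 x hx),
    RO.of_ne_bot _, RO.of_le_iff.2 hp'⟩

theorem dense_all (α₀ : S) {b : RO (PT lab)} (h0 : b ≠ ⊥) :
    ∃ β, α₀ ≤ β ∧ ∃ c ∈ CX lab (Iic β), c ≠ ⊥ ∧ c ≤ b := by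
  obtain ⟨p, hp⟩ := RO.ne_bot_iff.1 h0
  obtain ⟨β, h1, h2, -⟩ := R7_max p.1.fin α₀
  exact ⟨β, h1, RO.of p, of_mem_CX (isLowerSet_Iic β) (fun x hx => h2 x hx),
    RO.of_ne_bot _, RO.of_le_iff.2 hp⟩

theorem cof_Iio {α₀ α : S} (h : α₀ < α) :
    (∃ D : Set {β : S // α₀ ≤ β ∧ β < α}, D.Countable ∧ ∀ j, ∃ d ∈ D, j ≤ d) ∨
    ∀ A : ℕ → RO (PT lab), (∀ k, A k ∈ CX lab (Iio α)) →
      ∃ j : {β : S // α₀ ≤ β ∧ β < α}, ∀ k, A k ∈ CX lab (Iic j.1) := by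
  by_cases hD : ∃ D : Set {β : S // α₀ ≤ β ∧ β < α}, D.Countable ∧ ∀ j, ∃ d ∈ D, j ≤ d
  · exact Or.inl hD
  · refine Or.inr fun A hA => ?_
    have h1 : ∀ k, ∃ G : Set (PT lab), G.Countable ∧ (∀ c ∈ G, c.1.supp ⊆ Iio α) ∧
        RO.gen G = A k := fun k => exists_gen (isLowerSet_Iio α) (hA k)
    choose G hGc hGs hGA using h1
    set E : Set S := ⋃ k, ⋃ c ∈ G k, c.1.supp with hE
    have hEc : E.Countable := Set.countable_iUnion fun k => (hGc k).biUnion fun c _ =>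
      (Set.Finite.countable c.1.fin)
    have hEα : ∀ e ∈ E, e < α := by
      intro e he
      obtain ⟨k, he⟩ := Set.mem_iUnion.1 he
      obtain ⟨c, hc, he⟩ := Set.mem_iUnion₂.1 he
      exact hGs k c hc he
    set D : Set {β : S // α₀ ≤ β ∧ β < α} := Subtype.val ⁻¹' ((fun e => max α₀ e) '' E) with hDdef
    have hDc : D.Countable := (hEc.image _).preimage_of_injOn Subtype.val_injective.injOn
    obtain ⟨j, hj⟩ : ∃ j : {β : S // α₀ ≤ β ∧ β < α}, ∀ d ∈ D, ¬ j ≤ d := by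
      by_contra hcon
      apply hD
      refine ⟨D, hDc, fun j => ?_⟩
      by_contra h2
      exact hcon ⟨j, fun d hd hjd => h2 ⟨d, hd, hjd⟩⟩
    refine ⟨j, fun k => ?_⟩
    rw [← hGA k]
    refine gen_mem_CX (isLowerSet_Iic _) fun c hc e he => ?_
    have heE : e ∈ E := Set.mem_iUnion.2 ⟨k, Set.mem_iUnion₂.2 ⟨c, hc, he⟩⟩
    have h3 : (⟨max α₀ e, le_max_left _ _, max_lt h (hEα e heE)⟩ : {β : S // α₀ ≤ β ∧ β < α}) ∈ D :=
      ⟨e, heE, rfl⟩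
    have h4 := hj _ h3
    have h5 : max α₀ e < j.1 := by
      by_contra h6
      exact h4 (not_lt.1 h6)
    exact (le_max_right α₀ e).trans h5.le

theorem cof_all (hS : Bdd1 S) (α₀ : S) (A : ℕ → RO (PT lab)) :
    ∃ β, α₀ ≤ β ∧ ∀ k, A k ∈ CX lab (Iic β) := by
  have hJ : #ℕ ≤ Cardinal.aleph 1 := by
    rw [Cardinal.mk_nat]
    exact Cardinal.aleph0_le_aleph 1
  obtain ⟨β, hβ⟩ := exists_bound hS hJ A
  refine ⟨max α₀ β, le_max_left _ _, fun k => ?_⟩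
  refine CX_mono ?_ (hβ k)
  intro x hx
  exact (le_of_lt hx).trans (le_max_right _ _)

end Pool.Agent.LibFS55
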