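import Pool.Agent.LibFS55.R2
import Pool.Agent.LibFS55.A1

/-! The complete subalgebras. -/

set_option autoImplicit false

namespace Pool.Agent.LibFS55

open Pool.Agent.LibTk83 Set

variable {S N : Type} [LinearOrder S] [WellFoundedLT S]
  {lab : S → N → List ℕ → ℕ → Set (Raw S N)}

theorem mem_CX {X : Set S} {b : RO (PT lab)} : b ∈ CX lab X ↔ ∀ p ∈ b, PT.res X p ∈ b := Iff.rfl

theorem isSub_CX {X : Set S} (hX : IsLowerSet X) : IsSub (CX lab X) where
  compl b hb p hp := by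
    rw [RO.mem_compl] at hp ⊢
    intro q hq hqb
    have h1 : PT.res X q ∈ b := hb q hqb
    exact hp (PT.glue X q p) (PT.glue_le' hX hq)
      (RO.mem_of_le (PT.glue_le_res hX q p) h1)
  sSup T hT p hp := by
    rw [RO.mem_sSup] at hp ⊢
    intro q hq
    obtain ⟨r', hr', b, hb, hrb⟩ := hp (PT.glue X q p) (PT.glue_le' hX hq)
    have h1 : PT.res X r' ∈ b := hT hb r' hrb
    refine ⟨PT.glue X r' q, PT.glue_le' hX ?_, b, hb,
      RO.mem_of_le (PT.glue_le_res hX r' q) h1⟩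
    refine hr'.trans ?_
    refine (PT.le_res X _).trans ?_
    rw [PT.res_glue]

theorem R5_aux {X : Set S} {p : PT lab} {b : RO (PT lab)} (h : PT.res X p ∈ b) : p ∈ b :=
  RO.mem_of_le (PT.le_res X p) h

theorem CX_mono {X Y : Set S} (h : X ⊆ Y) : CX lab X ⊆ CX lab Y := by
  intro b hb p hp
  exact RO.mem_of_le (PT.res_le_res h p) (hb p hp)

theorem CX_univ (b : RO (PT lab)) : b ∈ CX lab univ := by
  intro p hp
  rwa [PT.res_eq_self (subset_univ _)]

theorem gen_mem_CX {X : Set S} (hX : IsLowerSet X) {G : Set (PT lab)}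
    (hG : ∀ c ∈ G, c.1.supp ⊆ X) : RO.gen G ∈ CX lab X := by
  intro p hp
  rw [RO.mem_gen] at hp ⊢
  intro q hq
  obtain ⟨r, hr, s, hs, hrs⟩ := hp (PT.glue X q p) (PT.glue_le' hX hq)
  have h1 : PT.res X r ≤ s := (PT.le_iff_res hX (hG s hs)).1 hrs
  refine ⟨PT.glue X r q, PT.glue_le' hX ?_, s, hs, (PT.glue_le_res hX r q).trans h1⟩
  refine hr.trans ((PT.le_res X _).trans ?_)
  rw [PT.res_glue]

theorem of_mem_CX {X : Set S} (hX : IsLowerSet X) {c : PT lab} (hc : c.1.supp ⊆ X) :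
    RO.of c ∈ CX lab X := gen_mem_CX hX (by simpa using hc)

/-- An element of `CX lab X` is determined by its members with support in `X`. -/
theorem mem_iff_res {X : Set S} {b : RO (PT lab)} (hb : b ∈ CX lab X) {p : PT lab} :
    p ∈ b ↔ PT.res X p ∈ b := ⟨hb p, R5_aux⟩

end Pool.Agent.LibFS55
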