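import Pool.Agent.LibFS55.R3
import Pool.Agent.LibFS55.R5

/-! The generic real of a stage. -/

set_option autoImplicit false

namespace Pool.Agent.LibFS55

open Pool.Agent.LibTk83 Set

variable {S N : Type} [LinearOrder S] [WellFoundedLT S]
  {lab : S → N → List ℕ → ℕ → Set (Raw S N)}

theorem stg_mem (α : S) (t : List ℕ) : stg lab α t ∈ CX lab (Iic α) := by
  classical
  rw [mem_CX]
  intro p hp
  rw [stg_iff] at hp ⊢
  rw [PT.res_s, if_pos (self_mem_Iic)]
  exact hp

theorem stg_nil (α : S) : stg lab α [] = ⊤ :=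
  top_le_iff.1 fun _ _ => stg_iff.2 List.nil_prefix

theorem stg_ext (α : S) (t : List ℕ) (k : ℕ) : stg lab α (t ++ [k]) ≤ stg lab α t :=
  fun _ hp => stg_iff.2 ((List.prefix_append t [k]).trans (stg_iff.1 hp))

theorem stg_tot (α : S) (t : List ℕ) : stg lab α t ≤ ⨆ k, stg lab α (t ++ [k]) := by
  intro p hp
  rw [RO.mem_iSup]
  intro q hq
  have h1 : t <+: q.1.s α := stg_iff.1 (RO.mem_of_le hq hp)
  obtain ⟨l, hl⟩ := h1
  cases l with
  | nil =>
    obtain ⟨r, hr, k, _, hk, _⟩ := ext_one q α 0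
    refine ⟨r, hr, k, stg_iff.2 ?_⟩
    rw [hk, ← hl, List.append_nil]
  | cons k l =>
    refine ⟨q, le_rfl, k, stg_iff.2 ⟨l, ?_⟩⟩
    rw [← hl, List.append_assoc, List.singleton_append]

theorem stg_disj (α : S) (t : List ℕ) {k l : ℕ} (h : k ≠ l) :
    stg lab α (t ++ [k]) ⊓ stg lab α (t ++ [l]) = ⊥ := by
  refine le_bot_iff.1 fun p hp => ?_
  obtain ⟨h1, h2⟩ := RO.mem_inf.1 hp
  rw [stg_iff] at h1 h2
  have h3 : t ++ [k] <+: t ++ [l] := List.prefix_of_prefix_length_le h1 h2 (by simp)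
  have h4 : t ++ [k] = t ++ [l] := h3.eq_of_length (by simp)
  have h5 : [k] = [l] := List.append_cancel_left h4
  exact absurd (List.cons.inj h5).1 h

end Pool.Agent.LibFS55
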