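import Pool.Agent.LibFS55.R4
import Pool.Agent.LibFS55.R5

/-! Each name has countably many generators. -/

set_option autoImplicit false

namespace Pool.Agent.LibFS55

open Pool.Agent.LibTk83 Set Cardinal

variable {S N : Type} [LinearOrder S] [WellFoundedLT S]
  {lab : S → N → List ℕ → ℕ → Set (Raw S N)}

theorem exists_gen {X : Set S} (hX : IsLowerSet X) {b : RO (PT lab)} (hb : b ∈ CX lab X) :
    ∃ G : Set (PT lab), G.Countable ∧ (∀ c ∈ G, c.1.supp ⊆ X) ∧ RO.gen G = b := by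
  obtain ⟨G, hG⟩ := zorn_subset {G : Set (PT lab) | (∀ g ∈ G, g ∈ b ∧ g.1.supp ⊆ X) ∧
      ∀ p ∈ G, ∀ q ∈ G, p ≠ q → ¬ ∃ r, r ≤ p ∧ r ≤ q} (by
    intro c hc hchain
    refine ⟨⋃₀ c, ⟨?_, ?_⟩, fun s hs => subset_sUnion_of_mem hs⟩
    · rintro g ⟨s, hs, hg⟩
      exact (hc hs).1 g hg
    · rintro p ⟨s, hs, hp⟩ q ⟨t, ht, hq⟩ hpq
      rcases hchain.total hs ht with h1 | h1
      · exact (hc ht).2 p (h1 hp) q hq hpq
      · exact (hc hs).2 p hp q (h1 hq) hpq)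
  have hcount : G.Countable := by
    have h1 := ccb_PT (lab := lab) G (fun g => RO.of g.1) (fun g => RO.of_ne_bot _) (by
      intro i j hij
      rw [← le_bot_iff]
      intro p hp
      exfalso
      rw [RO.mem_inf, RO.mem_of, RO.mem_of] at hp
      obtain ⟨s, hs, hsi⟩ := hp.1 p le_rfl
      obtain ⟨t, ht, htj⟩ := hp.2 s hs
      exact hG.prop.2 i.1 i.2 j.1 j.2 (fun h => hij (Subtype.ext h)) ⟨t, ht.trans hsi, htj⟩)
    exact h1
  refine ⟨G, hcount, fun c hc => (hG.prop.1 c hc).2, ?_⟩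
  apply RO.ext
  intro p
  rw [RO.mem_gen]
  constructor
  · intro hp
    refine RO.mem_of_dense fun q hq => ?_
    obtain ⟨r, hr, s, hs, hrs⟩ := hp q hq
    exact ⟨r, hr, RO.mem_of_le hrs (hG.prop.1 s hs).1⟩
  · intro hp q hq
    by_contra hcon
    push Not at hcon
    have hqb : PT.res X q ∈ b := hb q (RO.mem_of_le hq hp)
    have hqs : (PT.res X q).1.supp ⊆ X := by
      rw [PT.supp_res]
      exact inter_subset_right
    have hcon' : ∀ r, r ≤ PT.res X q → ∀ s ∈ G, ¬ r ≤ s := by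
      intro r hr s hs hrs
      refine hcon (PT.glue X r q) (PT.glue_le' hX hr) s hs ?_
      exact (PT.glue_le_res hX r q).trans ((PT.le_iff_res hX (hG.prop.1 s hs).2).1 hrs)
    have h1 : insert (PT.res X q) G ∈ {G : Set (PT lab) | (∀ g ∈ G, g ∈ b ∧ g.1.supp ⊆ X) ∧
        ∀ p ∈ G, ∀ q ∈ G, p ≠ q → ¬ ∃ r, r ≤ p ∧ r ≤ q} := by
      refine ⟨?_, ?_⟩
      · rintro g (rfl | hg)
        · exact ⟨hqb, hqs⟩
        · exact hG.prop.1 g hg
      · rintro x (rfl | hx) y (rfl | hy) hxy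
        · exact absurd rfl hxy
        · rintro ⟨r, hr1, hr2⟩
          exact hcon' r hr1 y hy hr2
        · rintro ⟨r, hr1, hr2⟩
          exact hcon' r hr2 x hx hr1
        · exact hG.prop.2 x hx y hy hxy
    have h2 : PT.res X q ∈ G := hG.le_of_ge h1 (subset_insert _ G) (mem_insert _ G)
    exact hcon' _ le_rfl _ h2 le_rfl

/-- The same with a set of raw conditions. -/
theorem exists_gen_raw {α : S} {b : RO (PT lab)} (hb : b ∈ CX lab (Iio α)) :
    ∃ G : Set (Raw S N), G.Countable ∧ (∀ c ∈ G, VB lab α c) ∧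
      RO.gen {p : PT lab | p.1 ∈ G} = b := by
  obtain ⟨G, hG1, hG2, hG3⟩ := exists_gen (isLowerSet_Iio α) hb
  refine ⟨Subtype.val '' G, hG1.image _, ?_, ?_⟩
  · rintro c ⟨p, hp, rfl⟩
    rw [VB_iff]
    exact ⟨p.2, hG2 p hp⟩
  · rw [← hG3]
    congr 1
    ext p
    constructor
    · rintro ⟨q, hq, hqp⟩
      rwa [← Subtype.ext hqp]
    · intro hp
      exact ⟨p, hp, rfl⟩

/-- Each `b` is in `CX lab (Iio β)` for all `β` above a countable set of stages. -/
theorem exists_supp (b : RO (PT lab)) : ∃ D : Set S, D.Countable ∧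
    ∀ X : Set S, IsLowerSet X → D ⊆ X → b ∈ CX lab X := by
  obtain ⟨G, hG1, hG2, hG3⟩ := exists_gen isLowerSet_univ (CX_univ b)
  refine ⟨⋃ c ∈ G, c.1.supp, hG1.biUnion fun c _ => c.1.fin.countable, fun X hX hD => ?_⟩
  rw [← hG3]
  refine gen_mem_CX hX fun c hc => ?_
  exact (subset_biUnion_of_mem (u := fun c : PT lab => c.1.supp) hc).trans hD

theorem exists_bound (hS : Bdd1 S) {J : Type} (hJ : #J ≤ Cardinal.aleph 1)
    (b : J → RO (PT lab)) : ∃ β, ∀ j, b j ∈ CX lab (Iio β) := by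
  choose D hD1 hD2 using fun j => exists_supp (b j)
  obtain ⟨β, hβ⟩ := hS (⋃ j, D j) (by
    refine (Cardinal.mk_iUnion_le_sum_mk).trans ?_
    refine (Cardinal.sum_le_sum _ (fun _ => ℵ₀) (fun j => (hD1 j).le_aleph0)).trans ?_
    rw [Cardinal.sum_const, Cardinal.lift_id, Cardinal.lift_id]
    refine (mul_le_mul' hJ (Cardinal.aleph0_le_aleph 1)).trans ?_
    exact (Cardinal.mul_eq_self (Cardinal.aleph0_le_aleph 1)).le)
  refine ⟨β, fun j => hD2 j _ (isLowerSet_Iio β) fun γ hγ => hβ γ (mem_iUnion.2 ⟨j, hγ⟩)⟩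

end Pool.Agent.LibFS55
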