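import Pool.Agent.LibFS55.R3
import Pool.Agent.LibFS55.R6

/-! Each name of a function is a promise. -/

set_option autoImplicit false

namespace Pool.Agent.LibFS55

open Pool.Agent.LibTk83 Set

variable {S N : Type} [LinearOrder S] [WellFoundedLT S]
  {lab : S → N → List ℕ → ℕ → Set (Raw S N)}

theorem exists_promise (hL : HLab lab) {α : S} {g : List ℕ → ℕ → RO (PT lab)}
    (hg : Fn (CX lab (Iio α)) g) :
    ∃ n, K lab α n ∧ ∀ t k, RO.gen {p : PT lab | p.1 ∈ lab α n t k} = g t k := by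
  choose G hGc hGV hGg using fun t k => exists_gen_raw (hg.mem t k)
  obtain ⟨n, hn⟩ := hL.surj α G hGc
  refine ⟨n, ?_, fun t k => le_antisymm ?_ ?_⟩
  · rw [K_iff]
    refine ⟨fun t k c hc => ?_, Or.inl fun t r hr => ?_⟩
    · rw [hn] at hc
      obtain ⟨k', -, hk'⟩ := hc
      exact hGV t k' c hk'
    · have h1 : hr.toPT ∈ ⨆ k, g t k := by
        rw [hg.top t]
        exact RO.mem_top
      obtain ⟨r1, hr1, m, hm⟩ := RO.mem_iSup.1 h1 _ le_rfl
      rw [← hGg t m] at hm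
      obtain ⟨r2, hr2, s, hs, hs2⟩ := RO.mem_gen.1 hm r1 le_rfl
      have hs : s.1 ∈ G t m := hs
      have hsupp : s.1.supp ⊆ Iio α := (VB_iff.1 (hGV t m s.1 hs)).2
      have hrsupp : hr.toPT.1.supp ⊆ Iio α := (VB_iff.1 hr).2
      refine ⟨(PT.res (Iio α) r2).1, PT.VB_res α r2, ?_, m, fun k hk => ⟨s.1, ?_, ?_⟩⟩
      · exact (PT.le_iff_LeB hrsupp).1
          ((PT.le_iff_res (isLowerSet_Iio α) hrsupp).1 (hr2.trans hr1))
      · rw [hn]
        exact ⟨m, hk, hs⟩
      · exact (PT.le_iff_LeB hsupp).1 ((PT.le_iff_res (isLowerSet_Iio α) hsupp).1 hs2)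
  · rw [RO.gen_eq_iSup]
    refine iSup₂_le fun s hs => ?_
    rw [RO.of_le_iff]
    have hs : s.1 ∈ lab α n t k := hs
    rw [hn] at hs
    obtain ⟨k', hk', hs'⟩ := hs
    have h1 : s ∈ g t k' := by
      rw [← hGg t k', RO.mem_gen]
      exact fun q hq => ⟨q, le_rfl, s, hs', hq⟩
    exact hg.mono t hk' h1
  · intro p hp
    rw [← hGg t k] at hp
    rw [RO.mem_gen]
    intro q hq
    obtain ⟨r, hr, s, hs, hrs⟩ := RO.mem_gen.1 hp q hq
    refine ⟨r, hr, s, ?_, hrs⟩
    have hs : s.1 ∈ G t k := hs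
    change s.1 ∈ lab α n t k
    rw [hn]
    exact ⟨k, le_rfl, hs⟩

theorem R8b_path_append {B : Type} [CompleteBooleanAlgebra B] (g : List ℕ → ℕ → B)
    (s u v : List ℕ) : path g s (u ++ v) = path g s u ⊓ path g (s ++ u) v := by
  induction u generalizing s with
  | nil => simp [path]
  | cons k u ih =>
    simp only [List.cons_append, path]
    rw [ih (s ++ [k]), List.append_assoc, List.singleton_append, inf_assoc]

theorem R8b_path_snoc {B : Type} [CompleteBooleanAlgebra B] (g : List ℕ → ℕ → B)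
    (s u : List ℕ) (k : ℕ) : path g s (u ++ [k]) = path g s u ⊓ g (s ++ u) k := by
  rw [R8b_path_append]
  simp [path]

theorem ind_CX (hL : HLab lab) {α : S} {c : RO (PT lab)} (hc : c ∈ CX lab (Iio α))
    (h0 : c ≠ ⊥) (s : List ℕ) {g : List ℕ → ℕ → RO (PT lab)} (hg : Fn (CX lab (Iio α)) g) :
    c ⊓ tr (stg lab α) s g ≠ ⊥ := by
  classical
  obtain ⟨p, hp⟩ := RO.ne_bot_iff.1 h0
  have hp0 : PT.res (Iio α) p ∈ c := hc p hp
  obtain ⟨n, hK, hn⟩ := exists_promise hL hg
  obtain ⟨q, hqs, hqA, hq⟩ := exists_upd (PT.res (Iio α) p) α s {n} (by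
    intro n' hn'
    rw [Finset.mem_singleton] at hn'
    rw [hn']
    exact hK)
  have hqp : q ≤ PT.res (Iio α) p := by
    rw [PT.le_def]
    intro β
    by_cases hβ : β = α
    · subst hβ
      refine St_of_triv ?_ ?_
      · rw [PT.res_s, if_neg (by simp)]
      · rw [PT.res_A, if_neg (by simp)]
    · exact St_of_eq (hq β hβ).1.symm (hq β hβ).2.ge
  refine RO.ne_bot_iff.2 ⟨q, RO.mem_inf.2 ⟨RO.mem_of_le hqp hp0, ?_⟩⟩
  unfold tr
  refine RO.mem_inf.2 ⟨?_, RO.mem_iInf.2 fun u => RO.mem_himp.2 fun r hr hru => ?_⟩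
  · rw [stg_iff, hqs]
  · rw [stg_iff] at hru
    induction u using List.reverseRecOn with
    | nil =>
      simp only [path]
      exact RO.mem_top
    | append_singleton u k ih =>
      rw [R8b_path_snoc, RO.mem_inf]
      rw [← List.append_assoc] at hru
      refine ⟨ih ((List.prefix_append _ _).trans hru), ?_⟩
      have hnq : n ∈ q.1.A α := by
        rw [hqA]
        exact Finset.mem_singleton_self n
      obtain ⟨d, hd, -, hrd⟩ := obey hr hnq (t := s ++ u) (k := k)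
        (by rw [hqs]; exact List.prefix_append _ _) hru
      rw [← hn (s ++ u) k, RO.mem_gen]
      exact fun q' hq' => ⟨q', le_rfl, d, hd, hq'.trans hrd⟩

end Pool.Agent.LibFS55
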