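import Pool.Agent.LibFS55.R3
import Pool.Agent.LibFS55.R5
import Pool.Agent.LibFS55.A4

/-! Decomposition of conditions. -/

set_option autoImplicit false

namespace Pool.Agent.LibFS55

open Pool.Agent.LibTk83 Set Cardinal

variable {S N : Type} [LinearOrder S] [WellFoundedLT S]
  {lab : S → N → List ℕ → ℕ → Set (Raw S N)}

/-- Finitely many generated sets. -/
private theorem R8e_finset {P : Type} [Preorder P] (F : Finset N) (X : N → Set P) (q : P)
    (h : ∀ n ∈ F, q ∈ RO.gen (X n)) : ∃ q', q' ≤ q ∧ ∀ n ∈ F, ∃ c ∈ X n, q' ≤ c := by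
  classical
  induction F using Finset.induction_on with
  | empty => exact ⟨q, le_rfl, fun n hn => absurd hn (Finset.notMem_empty n)⟩
  | insert a F ha ih =>
    obtain ⟨q₁, hq₁, h1⟩ := ih fun n hn => h n (Finset.mem_insert_of_mem hn)
    obtain ⟨q₂, hq₂, c, hc, hqc⟩ := RO.mem_gen.1 (h a (Finset.mem_insert_self a F)) q₁ hq₁
    refine ⟨q₂, hq₂.trans hq₁, fun n hn => ?_⟩
    rcases Finset.mem_insert.1 hn with rfl | hn
    · exact ⟨c, hc, hqc⟩
    · obtain ⟨c', hc', hq'⟩ := h1 n hn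
      exact ⟨c', hc', hq₂.trans hq'⟩

/-- Finitely many positions. -/
private theorem R8e_path {α : S} (F : Finset N) (s v : List ℕ) (q : PT lab)
    (h : q ∈ path (fun t k => ⨅ n ∈ F, RO.gen {q : PT lab | q.1 ∈ lab α n t k}) s v) :
    ∃ q' ≤ q, ∀ n ∈ F, ∀ t k, s <+: t → t ++ [k] <+: s ++ v →
      ∃ c : PT lab, c.1 ∈ lab α n t k ∧ q' ≤ c := by
  induction v using List.reverseRecOn with
  | nil =>
    refine ⟨q, le_rfl, fun n _ t k h1 h2 => ?_⟩
    have h3 := h1.length_le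
    have h4 := h2.length_le
    simp at h4
    omega
  | append_singleton v k₀ ih =>
    rw [path_snoc, RO.mem_inf] at h
    obtain ⟨q₁, hq₁, h1⟩ := ih h.1
    have h2 : ∀ n ∈ F, q₁ ∈ RO.gen {q : PT lab | q.1 ∈ lab α n (s ++ v) k₀} := by
      intro n hn
      have h3 := RO.mem_of_le hq₁ h.2
      rw [RO.mem_iInf] at h3
      have h4 := h3 n
      rw [RO.mem_iInf] at h4
      exact h4 hn
    obtain ⟨q₂, hq₂, h5⟩ := R8e_finset F _ q₁ h2
    refine ⟨q₂, hq₂.trans hq₁, fun n hn t k h6 h7 => ?_⟩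
    rw [← List.append_assoc] at h7
    rcases List.prefix_concat_iff.1 h7 with h8 | h8
    · obtain ⟨h9, h10⟩ := List.append_inj' h8 rfl
      have h11 : k = k₀ := by simpa using h10
      subst h9
      subst h11
      exact h5 n hn
    · obtain ⟨c, hc, hqc⟩ := h1 n hn t k h6 h8
      exact ⟨c, hc, hq₂.trans hqc⟩

theorem of_decomp {α : S} (p : PT lab) (hp : p.1.supp ⊆ Iic α) :
    RO.of (PT.res (Iio α) p) ⊓ tr (stg lab α) (p.1.s α)
      (fun t k => ⨅ n ∈ p.1.A α, RO.gen {q : PT lab | q.1 ∈ lab α n t k}) ≤ RO.of p := by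
  classical
  intro q hq
  rw [RO.mem_inf] at hq
  obtain ⟨hq1, hq2⟩ := hq
  unfold tr at hq2
  rw [RO.mem_inf, RO.mem_iInf] at hq2
  obtain ⟨hq2, hq3⟩ := hq2
  rw [RO.mem_of]
  intro q' hq'
  obtain ⟨q₁, hq₁, hq₁p⟩ := RO.mem_of.1 hq1 q' hq'
  have hs1 : p.1.s α <+: q₁.1.s α := stg_iff.1 (RO.mem_of_le (hq₁.trans hq') hq2)
  obtain ⟨u, hu⟩ := hs1
  have hpath : q₁ ∈ path (fun t k => ⨅ n ∈ p.1.A α, RO.gen {q : PT lab | q.1 ∈ lab α n t k})
      (p.1.s α) u := by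
    refine RO.mem_himp.1 (hq3 u) q₁ (hq₁.trans hq') (stg_iff.2 ?_)
    rw [hu]
  obtain ⟨q₂, hq₂, hpos⟩ := R8e_path (p.1.A α) (p.1.s α) u q₁ hpath
  -- glue
  have hX : IsLowerSet (Iio α) := isLowerSet_Iio α
  set q₃ := PT.glue (Iio α) q₂ q₁ with hq₃
  have hq₃q₁ : q₃ ≤ q₁ := PT.glue_le' hX (hq₂.trans (PT.le_res _ q₁))
  have hq₃s : q₃.1.s α = p.1.s α ++ u := by
    rw [hq₃, PT.glue_s, if_neg (by simp), hu]
  have hq₃c : ∀ c : PT lab, c.1.supp ⊆ Iio α → q₂ ≤ c → q₃ ≤ c := by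
    intro c hc hle
    rw [PT.le_iff_res hX hc, hq₃, PT.res_glue, ← PT.le_iff_res hX hc]
    exact hle
  -- add the promises
  obtain ⟨r, hr1, hr2, hr3⟩ := exists_upd q₃ α (p.1.s α ++ u) (q₃.1.A α ∪ p.1.A α) (by
    intro n hn
    rcases Finset.mem_union.1 hn with hn | hn
    · exact q₃.2 α n hn
    · exact p.2 α n hn)
  have hrq₃ : r ≤ q₃ := by
    intro β
    by_cases hβ : β = α
    · subst hβ
      refine St_of_eq (hq₃s.trans hr1.symm) ?_
      rw [hr2]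
      exact Finset.subset_union_left
    · obtain ⟨h1, h2⟩ := hr3 β hβ
      exact St_of_eq h1.symm h2.symm.subset
  refine ⟨r, hrq₃.trans (hq₃q₁.trans hq₁), fun β => ?_⟩
  rcases lt_trichotomy β α with hβ | hβ | hβ
  · have h1 : St lab β r.1 (PT.res (Iio α) p).1 := (hrq₃.trans (hq₃q₁.trans hq₁p)) β
    refine (St_congr (fun γ _ => ⟨rfl, rfl⟩) ?_ ?_).1 h1
    · rw [PT.res_s, if_pos (Set.mem_Iio.2 hβ)]
    · rw [PT.res_A, if_pos (Set.mem_Iio.2 hβ)]
  · subst hβ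
    rw [St_iff, hr1, hr2]
    refine ⟨List.prefix_append _ _, Finset.subset_union_right, fun n hn t k h1 h2 => ?_⟩
    obtain ⟨c, hc, hqc⟩ := hpos n hn t k h1 h2
    have hVB : VB lab β c.1 := ((K_iff lab).1 (p.2 β n hn)).1 t k c.1 hc
    have hsupp : c.1.supp ⊆ Iio β := (VB_iff.1 hVB).2
    exact ⟨c.1, hc, fun γ _ => (hrq₃.trans (hq₃c c hsupp hqc)) γ⟩
  · have h1 : β ∉ p.1.supp := fun h2 => absurd (hp h2) (not_le.2 hβ)
    unfold Raw.supp at h1
    simp only [Set.mem_ofPred_eq, not_or, not_not] at h1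
    exact St_of_triv h1.1 h1.2

end Pool.Agent.LibFS55
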