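import Pool.Agent.LibFS55.R8d
import Pool.Agent.LibFS55.R8e

/-! Density. -/

set_option autoImplicit false

namespace Pool.Agent.LibFS55

open Pool.Agent.LibTk83 Set Cardinal

variable {S N : Type} [LinearOrder S] [WellFoundedLT S]
  {lab : S → N → List ℕ → ℕ → Set (Raw S N)}

theorem dense_CX (hL : HLab lab) {α : S} {b : RO (PT lab)} (hb : b ∈ CX lab (Iic α))
    (h0 : b ≠ ⊥) : ∃ c ∈ CX lab (Iio α), c ≠ ⊥ ∧ ∃ s g, Fn (CX lab (Iio α)) g ∧
      c ⊓ tr (stg lab α) s g ≤ b := by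
  obtain ⟨p₀, hp₀⟩ := RO.ne_bot_iff.1 h0
  have hp : PT.res (Iic α) p₀ ∈ b := hb p₀ hp₀
  set p := PT.res (Iic α) p₀ with hpd
  have hs : p.1.supp ⊆ Iic α := by
    rw [hpd, PT.supp_res]
    exact inter_subset_right
  have hs' : (PT.res (Iio α) p).1.supp ⊆ Iio α := by
    rw [PT.supp_res]
    exact inter_subset_right
  refine ⟨RO.of (PT.res (Iio α) p), of_mem_CX (isLowerSet_Iio α) hs', RO.of_ne_bot _,
    p.1.s α, fun t k => ⨅ n ∈ p.1.A α, RO.gen {q : PT lab | q.1 ∈ lab α n t k}, ?_, ?_⟩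
  · exact fn_promises hL (p.1.A α) fun n hn => p.2 α n hn
  · exact (of_decomp p hs).trans (RO.of_le_iff.2 hp)

end Pool.Agent.LibFS55
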