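import Pool.Agent.LibFS55.R9a

/-! Pseudo-intersections. -/

set_option autoImplicit false

namespace Pool.Agent.LibFS55

open Pool.Agent.LibTk83 Set Cardinal

variable {S N : Type} [LinearOrder S] [WellFoundedLT S]
  {lab : S → N → List ℕ → ℕ → Set (Raw S N)}

theorem exists_pseudo [Nonempty N] (hS : Bdd1 S) (hN : #N ≤ Cardinal.aleph 1) (hP : PLab lab)
    (F : N → ℕ → RO (PT lab)) (hF : ∀ A : Finset N, ls (fun k => ⨅ n ∈ A, F n k) = ⊤) :
    ∃ P : ℕ → RO (PT lab), ls P = ⊤ ∧ ∀ n, li (fun k => P k ⇨ F n k) = ⊤ := by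
  obtain ⟨β, hK, hl⟩ := exists_stage hS hN hP F hF
  refine ⟨fun k => ⨆ t : List ℕ, stg lab β (t ++ [k]), ?_, fun n => ?_⟩
  · unfold ls
    rw [iInf_eq_top]
    intro m
    rw [RO.eq_top_iff']
    intro p
    obtain ⟨q, hq, k, hk, hs, -⟩ := ext_one p β m
    refine ⟨q, hq, ?_⟩
    have h1 : stg lab β (p.1.s β ++ [k]) ≤ ⨆ k : ℕ, ⨆ (_ : m ≤ k), ⨆ t : List ℕ,
        stg lab β (t ++ [k]) :=
      (le_iSup (fun t : List ℕ => stg lab β (t ++ [k])) (p.1.s β)).trans
        (le_iSup₂ (f := fun (k : ℕ) (_ : m ≤ k) => ⨆ t : List ℕ, stg lab β (t ++ [k])) k hk)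
    refine h1 (stg_iff.2 ?_)
    rw [hs]
  · unfold li
    rw [RO.eq_top_iff']
    intro p
    obtain ⟨q, hq, hn, -⟩ := add_promise p β (hK n)
    refine ⟨q, hq, ?_⟩
    have h1 := le_iSup (fun m : ℕ => ⨅ k : ℕ, ⨅ (_ : m ≤ k),
      ((⨆ t : List ℕ, stg lab β (t ++ [k])) ⇨ F n k)) ((q.1.s β).sum + 1)
    refine h1 ?_
    rw [RO.mem_iInf]
    intro k
    rw [RO.mem_iInf]
    intro hk
    rw [RO.mem_himp]
    intro r hr hrP
    refine RO.mem_of_dense fun r₁ hr₁ => ?_
    have h2 := RO.mem_of_le hr₁ hrP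
    rw [RO.mem_iSup] at h2
    obtain ⟨r', hr', t, ht⟩ := h2 r₁ le_rfl
    refine ⟨r', hr', ?_⟩
    rw [stg_iff] at ht
    have hle : r' ≤ q := hr'.trans (hr₁.trans hr)
    have h3 : q.1.s β <+: r'.1.s β := ((St_iff lab).1 (hle β)).1
    have h4 : q.1.s β <+: t := by
      rcases List.prefix_or_prefix_of_prefix h3 ht with h5 | h5
      · rcases List.prefix_concat_iff.1 h5 with h6 | h6
        · exfalso
          have hmem : k ∈ q.1.s β := by rw [h6]; simp
          have := List.single_le_sum (fun x _ => Nat.zero_le x) k hmem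
          omega
        · exact h6
      · exfalso
        have hmem : k ∈ q.1.s β := h5.subset (by simp)
        have := List.single_le_sum (fun x _ => Nat.zero_le x) k hmem
        omega
    obtain ⟨c, hc, -, hrc⟩ := obey hle hn h4 ht
    refine (hl n t k).2 ?_
    rw [RO.mem_gen]
    exact fun x hx => ⟨x, le_rfl, c, hc, hx.trans hrc⟩

end Pool.Agent.LibFS55
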