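import Pool.Agent.LibFS55.A9
import Pool.Agent.LibFS55.A12
import Pool.Agent.LibFS55.A13
import Pool.Agent.LibFS55.A14
import Pool.Agent.LibFS55.A15
import Pool.Agent.LibFS55.R7
import Pool.Agent.LibFS55.R8a
import Pool.Agent.LibFS55.R8b
import Pool.Agent.LibFS55.R8c
import Pool.Agent.LibFS55.R9
import Pool.Agent.LibFS55.R10b
import Pool.Agent.LibFS55.R10c
import Pool.Agent.LibFS55.W1

/-! The models. -/

set_option autoImplicit false

namespace Pool.Agent.LibFS55

open Pool.Agent.LibTk83 Set Cardinal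

section

variable {S N : Type} [LinearOrder S] [WellFoundedLT S]
  {lab : S → N → List ℕ → ℕ → Set (Raw S N)}

theorem step_H (hL : HLab lab) (α : S) :
    Step (CX lab (Iio α)) (CX lab (Iic α)) (stg lab α) where
  le := CX_mono Iio_subset_Iic_self
  mem := stg_mem α
  nil := stg_nil α
  ext := stg_ext α
  tot := stg_tot α
  disj := fun t _ _ h => stg_disj α t h
  ind := fun _ hc h0 s _ hg => ind_CX hL hc h0 s hg
  dense := fun _ hb h0 => dense_CX hL hb h0

theorem zd_mem {ι : Type} {α : S} {y : ι → ℕ → RO (PT lab)}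
    (hy : ∀ i k, y i k ∈ CX lab (Iio α)) (hL : HLab lab) (i : ι) (k : ℕ) :
    Zd (stg lab α) (y i) k ∈ CX lab (Iic α) := by
  have hC' : IsSub (CX lab (Iic α)) := isSub_CX (isLowerSet_Iic α)
  unfold Zd
  split_ifs
  · refine hC'.compl _ (hC'.inf (dv_mem (step_H hL α) hC' _ _) ?_)
    refine hC'.iSup fun v => hC'.iSup fun _ => ?_
    exact CX_mono Iio_subset_Iic_self (nb_mem (isSub_CX (isLowerSet_Iio α)) (hy i) _ _)
  · exact hC'.top

/-- The property `Star` at all later stages. -/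
theorem star_Iic (hL : HLab lab) {ι : Type} {α : S} {y : ι → ℕ → RO (PT lab)}
    (hy : ∀ i k, y i k ∈ CX lab (Iio α)) (hd : ∀ i j, i ≠ j → dif (y i) (y j) = ⊤) (β : S)
    (hβ : α ≤ β) : Star (CX lab (Iic β)) (fun i => Zd (stg lab α) (y i)) := by
  induction β using WellFoundedLT.induction with
  | ind β ih =>
    rcases eq_or_lt_of_le hβ with rfl | hlt
    · exact step_base ccb_PT (step_H hL α) (isSub_CX (isLowerSet_Iio α))
        (isSub_CX (isLowerSet_Iic α)) hy hd
    · refine step_star (step_H hL β) (isSub_CX (isLowerSet_Iio β))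
        (isSub_CX (isLowerSet_Iic β)) ?_ ?_
      · exact fun i k => CX_mono (fun x hx => lt_of_le_of_lt hx hlt) (zd_mem hy hL i k)
      · refine lim_star (J := {γ : S // α ≤ γ ∧ γ < β}) (CC := fun j => CX lab (Iic j.1))
          (fun j => isSub_CX (isLowerSet_Iic j.1))
          (fun i j hij => CX_mono (Iic_subset_Iic.2 hij)) (isSub_CX (isLowerSet_Iio β))
          (fun j => CX_mono fun x hx => lt_of_le_of_lt hx j.2.2) ?_ (cof_Iio hlt) ?_ ?_
        · intro b hb h0
          obtain ⟨γ, h1, h2, c, hc, h3, h4⟩ := dense_Iio hlt hb h0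
          exact ⟨⟨γ, h1, h2⟩, c, hc, h3, h4⟩
        · exact fun j i k => CX_mono (Iic_subset_Iic.2 j.2.1) (zd_mem hy hL i k)
        · exact fun j => ih j.1 j.2.2 j.2.1

theorem star_univ (hL : HLab lab) (hS : Bdd1 S) {ι : Type} {α : S} {y : ι → ℕ → RO (PT lab)}
    (hy : ∀ i k, y i k ∈ CX lab (Iio α)) (hd : ∀ i j, i ≠ j → dif (y i) (y j) = ⊤) :
    Star (univ : Set (RO (PT lab))) (fun i => Zd (stg lab α) (y i)) := by
  refine lim_star (J := {γ : S // α ≤ γ}) (CC := fun j => CX lab (Iic j.1))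
    (fun j => isSub_CX (isLowerSet_Iic j.1))
    (fun i j hij => CX_mono (Iic_subset_Iic.2 hij)) isSub_univ (fun j => subset_univ _) ?_
    (Or.inr ?_) ?_ ?_
  · intro b _ h0
    obtain ⟨γ, h1, c, hc, h3, h4⟩ := dense_all α h0
    exact ⟨⟨γ, h1⟩, c, hc, h3, h4⟩
  · intro A _
    obtain ⟨γ, h1, h2⟩ := cof_all hS α A
    exact ⟨⟨γ, h1⟩, h2⟩
  · exact fun j i k => CX_mono (Iic_subset_Iic.2 j.2) (zd_mem hy hL i k)
  · exact fun j => star_Iic hL hy hd j.1 j.2

theorem modelQ_of (hL : HLab lab) (hS : Bdd1 S) : ModelQ (RO (PT lab)) where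
  dom := by
    intro f hf
    obtain ⟨α, hα⟩ := exists_bound hS (J := W1 × ℕ × ℕ) mk_W1_prod.le
      (fun x => f x.1 x.2.1 x.2.2)
    refine ⟨dv (stg lab α), dv_fun (step_H hL α), fun i => ?_⟩
    exact step_dom (step_H hL α) (isSub_CX (isLowerSet_Iio α)) (isSub_CX (isLowerSet_Iic α))
      (fun n k => hα (i, n, k)) (hf i)
  sep := by
    intro y hy
    obtain ⟨α, hα⟩ := exists_bound hS (J := W1 × ℕ) mk_W1_prod'.le (fun x => y x.1 x.2)
    refine ⟨dv (stg lab α), dv_fun (step_H hL α), fun E x => ?_⟩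
    have h1 := sep_of_star (step_H hL α)
      (star_univ hL hS (y := y) (fun i k => hα (i, k)) hy) E x
    by_contra hcon
    have h2 : {i | ¬ ls E ≤ ls fun m => E m ⊓ esc (dv (stg lab α)) x (y i) m} = Set.univ := by
      ext i
      simp only [mem_ofPred_eq, mem_univ, iff_true]
      exact fun h3 => hcon (h3.trans (le_iSup
        (fun i => ls fun m => E m ⊓ esc (dv (stg lab α)) x (y i) m) i))
    rw [h2] at h1
    exact not_countable_iff.2 (inferInstance : Uncountable W1) (countable_univ_iff.1 h1)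

theorem modelP_of {lab : S → W1 → List ℕ → ℕ → Set (Raw S W1)} (hP : PLab lab) (hS : Bdd1 S) :
    ModelP (RO (PT lab)) where
  ccc := ccb_PT
  pse := fun F hF => exists_pseudo hS mk_W1.le hP F hF

end

theorem exists_modelQ : ∃ (B : Type) (_ : CompleteBooleanAlgebra B) (_ : Nontrivial B),
    ModelQ B := by
  obtain ⟨S, N, _, _, _, lab, hL, hS⟩ := exists_HLab
  have : Nonempty (PT lab) := ⟨PT.triv lab⟩
  exact ⟨RO (PT lab), inferInstance, inferInstance, modelQ_of hL hS⟩

theorem exists_modelP : ∃ (B : Type) (_ : CompleteBooleanAlgebra B) (_ : Nontrivial B),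
    ModelP B := by
  obtain ⟨S, _, _, _, lab, hL, hS⟩ := exists_PLab
  have : Nonempty (PT lab) := ⟨PT.triv lab⟩
  exact ⟨RO (PT lab), inferInstance, inferInstance, modelP_of hL hS⟩

end Pool.Agent.LibFS55
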