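import Pool.Agent.LibFS55.Raw

/-! Restrictions and gluing. -/

set_option autoImplicit false

namespace Pool.Agent.LibFS55

open Pool.Agent.LibTk83 Set

variable {S N : Type} [LinearOrder S] [WellFoundedLT S]
  {lab : S → N → List ℕ → ℕ → Set (Raw S N)}

theorem R2_St_congr_aux {β : S} : ∀ {q q' p p' : Raw S N},
    (∀ γ ≤ β, q.s γ = q'.s γ ∧ q.A γ = q'.A γ) →
    p.s β = p'.s β → p.A β = p'.A β → St lab β q p → St lab β q' p' := by
  induction β using WellFoundedLT.induction with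
  | ind β ih =>
    intro q q' p p' hq hs hA h
    rw [St_iff] at h ⊢
    have h1 := hq β le_rfl
    rw [← hs, ← hA, ← h1.1, ← h1.2]
    refine ⟨h.1, h.2.1, fun n hn t k h2 h3 => ?_⟩
    obtain ⟨c, hc, hc'⟩ := h.2.2 n hn t k h2 h3
    exact ⟨c, hc, fun γ hγ => ih γ hγ (fun δ hδ => hq δ (hδ.trans hγ.le)) rfl rfl (hc' γ hγ)⟩

/-- `St` looks at the first condition up to `β` and at the second one at `β` only. -/
theorem St_congr {β : S} {q q' p p' : Raw S N} (hq : ∀ γ ≤ β, q.s γ = q'.s γ ∧ q.A γ = q'.A γ)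
    (hs : p.s β = p'.s β) (hA : p.A β = p'.A β) : St lab β q p ↔ St lab β q' p' :=
  ⟨R2_St_congr_aux hq hs hA,
    R2_St_congr_aux (fun γ hγ => ⟨(hq γ hγ).1.symm, (hq γ hγ).2.symm⟩) hs.symm hA.symm⟩

/-- If the stems are the same at `β` then `St` is the inclusion of the promises. -/
theorem St_of_eq {β : S} {q p : Raw S N} (hs : p.s β = q.s β) (hA : p.A β ⊆ q.A β) :
    St lab β q p := by
  rw [St_iff]
  refine ⟨hs ▸ List.prefix_rfl, hA, fun n _ t k h1 h2 => ?_⟩
  rw [← hs] at h2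
  have h3 := h1.length_le
  have h4 := h2.length_le
  simp at h4
  omega

theorem St_of_triv {β : S} {q p : Raw S N} (hs : p.s β = []) (hA : p.A β = ∅) :
    St lab β q p := by
  rw [St_iff, hs, hA]
  exact ⟨List.nil_prefix, Finset.empty_subset _, fun n hn => by simp at hn⟩

theorem PT.glue_s (X : Set S) (r p : PT lab) (β : S) [Decidable (β ∈ X)] :
    (PT.glue X r p).1.s β = if β ∈ X then r.1.s β else p.1.s β := by
  unfold PT.glue Raw.glue
  by_cases h : β ∈ X <;> simp [h]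

theorem PT.glue_A (X : Set S) (r p : PT lab) (β : S) [Decidable (β ∈ X)] :
    (PT.glue X r p).1.A β = if β ∈ X then r.1.A β else p.1.A β := by
  unfold PT.glue Raw.glue
  by_cases h : β ∈ X <;> simp [h]

theorem PT.res_s (X : Set S) (p : PT lab) (β : S) [Decidable (β ∈ X)] :
    (PT.res X p).1.s β = if β ∈ X then p.1.s β else [] := by
  unfold PT.res
  rw [PT.glue_s]
  rfl

theorem PT.res_A (X : Set S) (p : PT lab) (β : S) [Decidable (β ∈ X)] :
    (PT.res X p).1.A β = if β ∈ X then p.1.A β else ∅ := by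
  unfold PT.res
  rw [PT.glue_A]
  rfl

theorem R2_ext {p q : PT lab} (hs : ∀ β, p.1.s β = q.1.s β) (hA : ∀ β, p.1.A β = q.1.A β) :
    p = q := Subtype.ext (Raw.ext (funext hs) (funext hA))

theorem PT.supp_res (X : Set S) (p : PT lab) : (PT.res X p).1.supp = p.1.supp ∩ X := by
  classical
  ext β
  simp only [Raw.supp, Set.mem_inter_iff, Set.mem_ofPred_eq]
  rw [PT.res_s, PT.res_A]
  by_cases h : β ∈ X <;> simp [h]

theorem R2_not_mem_supp {p : PT lab} {β : S} (h : β ∉ p.1.supp) :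
    p.1.s β = [] ∧ p.1.A β = ∅ := by
  simp only [Raw.supp, Set.mem_ofPred_eq, not_or, not_not] at h
  exact h

theorem PT.res_eq_self {X : Set S} {p : PT lab} (h : p.1.supp ⊆ X) : PT.res X p = p := by
  classical
  refine R2_ext (fun β => ?_) (fun β => ?_)
  · rw [PT.res_s]
    by_cases hβ : β ∈ X
    · simp [hβ]
    · rw [if_neg hβ, (R2_not_mem_supp (fun h' => hβ (h h'))).1]
  · rw [PT.res_A]
    by_cases hβ : β ∈ X
    · simp [hβ]
    · rw [if_neg hβ, (R2_not_mem_supp (fun h' => hβ (h h'))).2]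

theorem PT.res_res {X Y : Set S} (h : X ⊆ Y) (p : PT lab) :
    PT.res X (PT.res Y p) = PT.res X p := by
  classical
  refine R2_ext (fun β => ?_) (fun β => ?_)
  · rw [PT.res_s, PT.res_s, PT.res_s]
    by_cases hβ : β ∈ X
    · simp [hβ, h hβ]
    · simp [hβ]
  · rw [PT.res_A, PT.res_A, PT.res_A]
    by_cases hβ : β ∈ X
    · simp [hβ, h hβ]
    · simp [hβ]

theorem PT.res_glue {X : Set S} (r p : PT lab) : PT.res X (PT.glue X r p) = PT.res X r := by
  classical
  refine R2_ext (fun β => ?_) (fun β => ?_)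
  · rw [PT.res_s, PT.res_s, PT.glue_s]
    by_cases hβ : β ∈ X
    · simp [hβ]
    · simp [hβ]
  · rw [PT.res_A, PT.res_A, PT.glue_A]
    by_cases hβ : β ∈ X
    · simp [hβ]
    · simp [hβ]

theorem PT.glue_le {X : Set S} (hX : IsLowerSet X) {r p : PT lab}
    (h : ∀ β ∈ X, St lab β r.1 p.1) : PT.glue X r p ≤ p := by
  classical
  intro β
  by_cases hβ : β ∈ X
  · refine (St_congr (p' := p.1) (fun γ hγ => ?_) rfl rfl).1 (h β hβ)
    have hγX : γ ∈ X := hX hγ hβ
    rw [PT.glue_s, PT.glue_A]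
    simp [hγX]
  · refine St_of_eq ?_ ?_
    · rw [PT.glue_s, if_neg hβ]
    · rw [PT.glue_A, if_neg hβ]

theorem PT.glue_le' {X : Set S} (hX : IsLowerSet X) {r p : PT lab}
    (h : r ≤ PT.res X p) : PT.glue X r p ≤ p := by
  classical
  refine PT.glue_le hX fun β hβ => ?_
  refine (St_congr (fun γ _ => ⟨rfl, rfl⟩) ?_ ?_).1 (h β)
  · rw [PT.res_s, if_pos hβ]
  · rw [PT.res_A, if_pos hβ]

theorem PT.glue_le_res {X : Set S} (hX : IsLowerSet X) (r p : PT lab) :
    PT.glue X r p ≤ PT.res X r := by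
  classical
  intro β
  by_cases hβ : β ∈ X
  · refine St_of_eq ?_ ?_
    · rw [PT.glue_s, PT.res_s, if_pos hβ, if_pos hβ]
    · rw [PT.glue_A, PT.res_A, if_pos hβ, if_pos hβ]
  · refine St_of_triv ?_ ?_
    · rw [PT.res_s, if_neg hβ]
    · rw [PT.res_A, if_neg hβ]

theorem PT.le_res (X : Set S) (p : PT lab) : p ≤ PT.res X p := by
  classical
  intro β
  by_cases hβ : β ∈ X
  · refine St_of_eq ?_ ?_
    · rw [PT.res_s, if_pos hβ]
    · rw [PT.res_A, if_pos hβ]
  · refine St_of_triv ?_ ?_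
    · rw [PT.res_s, if_neg hβ]
    · rw [PT.res_A, if_neg hβ]

theorem PT.res_le_res {X Y : Set S} (h : X ⊆ Y) (p : PT lab) : PT.res Y p ≤ PT.res X p := by
  rw [← PT.res_res h p]
  exact PT.le_res X _

theorem PT.res_mono {X : Set S} (hX : IsLowerSet X) {q p : PT lab} (h : q ≤ p) :
    PT.res X q ≤ PT.res X p := by
  classical
  intro β
  by_cases hβ : β ∈ X
  · refine (St_congr (fun γ hγ => ?_) ?_ ?_).1 (h β)
    · have hγX : γ ∈ X := hX hγ hβ
      rw [PT.res_s, PT.res_A, if_pos hγX, if_pos hγX]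
      exact ⟨rfl, rfl⟩
    · rw [PT.res_s, if_pos hβ]
    · rw [PT.res_A, if_pos hβ]
  · refine St_of_triv ?_ ?_
    · rw [PT.res_s, if_neg hβ]
    · rw [PT.res_A, if_neg hβ]

/-- If the support of `c` is in `X` then `q ≤ c` can be checked on `X`. -/
theorem PT.le_iff_res {X : Set S} (hX : IsLowerSet X) {q c : PT lab} (hc : c.1.supp ⊆ X) :
    q ≤ c ↔ PT.res X q ≤ c := by
  constructor
  · intro h
    have h1 := PT.res_mono hX h
    rwa [PT.res_eq_self hc] at h1
  · intro h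
    exact (PT.le_res X q).trans h

theorem PT.le_iff_LeB {β : S} {q c : PT lab} (hc : c.1.supp ⊆ Iio β) :
    q ≤ c ↔ LeB lab β q.1 c.1 := by
  constructor
  · intro h γ _
    exact h γ
  · intro h γ
    by_cases hγ : γ < β
    · exact h γ hγ
    · have h1 : γ ∉ c.1.supp := fun h' => hγ (hc h')
      exact St_of_triv (R2_not_mem_supp h1).1 (R2_not_mem_supp h1).2

theorem VB_iff {β : S} {r : Raw S N} :
    VB lab β r ↔ (∀ γ, ∀ n ∈ r.A γ, K lab γ n) ∧ r.supp ⊆ Iio β := by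
  constructor
  · rintro ⟨h1, h2⟩
    refine ⟨fun γ n hn => (h1 γ n hn).2, ?_⟩
    rintro γ (hγ | hγ)
    · exact h2 γ hγ
    · obtain ⟨n, hn⟩ := Finset.nonempty_iff_ne_empty.2 hγ
      exact (h1 γ n hn).1
  · rintro ⟨h1, h2⟩
    refine ⟨fun γ n hn => ⟨h2 (Or.inr (Finset.nonempty_iff_ne_empty.1 ⟨n, hn⟩)), h1 γ n hn⟩,
      fun γ hγ => h2 (Or.inl hγ)⟩

/-- A valid condition with support below `β` as an element of `PT lab`. -/
def VB.toPT {β : S} {r : Raw S N} (h : VB lab β r) : PT lab := ⟨r, fun γ n hn => (h.1 γ n hn).2⟩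

theorem PT.VB_res (β : S) (p : PT lab) : VB lab β (PT.res (Iio β) p).1 := by
  rw [VB_iff]
  refine ⟨(PT.res (Iio β) p).2, ?_⟩
  rw [PT.supp_res]
  exact inter_subset_right

theorem VB.mono {β γ : S} (h : β ≤ γ) {r : Raw S N} (hr : VB lab β r) : VB lab γ r := by
  rw [VB_iff] at hr ⊢
  exact ⟨hr.1, hr.2.trans (Iio_subset_Iio h)⟩

/-- Change the condition at the stage `α`. -/
theorem exists_upd (p : PT lab) (α : S) (t : List ℕ) (F : Finset N) (hF : ∀ n ∈ F, K lab α n) :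
    ∃ q : PT lab, q.1.s α = t ∧ q.1.A α = F ∧ ∀ β, β ≠ α → q.1.s β = p.1.s β ∧
      q.1.A β = p.1.A β := by
  classical
  refine ⟨⟨Raw.upd p.1 α t F, fun β n hn => ?_⟩, ?_, ?_, fun β hβ => ⟨?_, ?_⟩⟩
  · unfold Raw.upd at hn
    simp only at hn
    split_ifs at hn with h
    · rw [h]
      exact hF n hn
    · exact p.2 β n hn
  · simp [Raw.upd]
  · simp [Raw.upd]
  · simp [Raw.upd, hβ]
  · simp [Raw.upd, hβ]

end Pool.Agent.LibFS55
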