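import Pool.Agent.LibFS55.R2

/-! Extensions. -/

set_option autoImplicit false

namespace Pool.Agent.LibFS55

open Pool.Agent.LibTk83 Set

variable {S N : Type} [LinearOrder S] [WellFoundedLT S]
  {lab : S → N → List ℕ → ℕ → Set (Raw S N)}

theorem R3_perm_cof {β : S} (F : Finset N) (hF : ∀ n ∈ F, Cof lab β n) (t : List ℕ)
    {r : Raw S N} (hr : VB lab β r) : ∃ r', VB lab β r' ∧ LeB lab β r' r ∧
      ∃ m, ∀ k, m ≤ k → ∀ n ∈ F, ∃ c ∈ lab β n t k, LeB lab β r' c := by
  classical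
  induction F using Finset.induction_on with
  | empty => exact ⟨r, hr, LeB.refl β r, 0, fun k _ n hn => by simp at hn⟩
  | insert a F _ ih =>
    obtain ⟨r', h1, h2, m, hm⟩ := ih fun n hn => hF n (Finset.mem_insert_of_mem hn)
    obtain ⟨r'', h3, h4, m', hm'⟩ := hF a (Finset.mem_insert_self a F) t r' h1
    refine ⟨r'', h3, h4.trans h2, max m m', fun k hk n hn => ?_⟩
    rcases Finset.mem_insert.1 hn with rfl | hn
    · exact hm' k ((le_max_right _ _).trans hk)
    · obtain ⟨c, hc, hc'⟩ := hm k ((le_max_left _ _).trans hk) n hn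
      exact ⟨c, hc, h4.trans hc'⟩

theorem perm {β : S} (F : Finset N) (hF : ∀ n ∈ F, K lab β n) (t : List ℕ) {r : Raw S N}
    (hr : VB lab β r) (m : ℕ) : ∃ r', VB lab β r' ∧ LeB lab β r' r ∧
      ∃ k, m ≤ k ∧ ∀ n ∈ F, ∃ c ∈ lab β n t k, LeB lab β r' c := by
  by_cases h : Cen lab β
  · exact h.2 F t r hr m
  · obtain ⟨r', h1, h2, m', hm'⟩ := R3_perm_cof F (fun n hn => by
      rcases ((K_iff lab).1 (hF n hn)).2 with h' | h'
      · exact h'
      · exact absurd h' h) t hr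
    exact ⟨r', h1, h2, max m m', le_max_left _ _, hm' _ (le_max_right _ _)⟩

theorem ext_one (p : PT lab) (α : S) (m : ℕ) : ∃ q ≤ p, ∃ k, m ≤ k ∧
    q.1.s α = p.1.s α ++ [k] ∧ q.1.A α = p.1.A α := by
  classical
  obtain ⟨r', h1, h2, k, hk, h3⟩ := perm (p.1.A α) (p.2 α) (p.1.s α) (PT.VB_res α p) m
  have hα : α ∉ Iio α := lt_irrefl α
  obtain ⟨q, hq1, hq2, hq3⟩ := exists_upd (PT.glue (Iio α) h1.toPT p) α (p.1.s α ++ [k])
    (p.1.A α) (p.2 α)
  -- below `α` the condition `q` is `r'`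
  have hqr : ∀ γ, γ < α → q.1.s γ = r'.s γ ∧ q.1.A γ = r'.A γ := by
    intro γ hγ
    rw [(hq3 γ hγ.ne).1, (hq3 γ hγ.ne).2, PT.glue_s, PT.glue_A, if_pos (show γ ∈ Iio α from hγ),
      if_pos (show γ ∈ Iio α from hγ)]
    exact ⟨rfl, rfl⟩
  have hqp : ∀ γ, α < γ → q.1.s γ = p.1.s γ ∧ q.1.A γ = p.1.A γ := by
    intro γ hγ
    have hγ' : γ ∉ Iio α := fun h => lt_irrefl _ (hγ.trans h)
    rw [(hq3 γ hγ.ne').1, (hq3 γ hγ.ne').2, PT.glue_s, PT.glue_A, if_neg hγ', if_neg hγ']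
    exact ⟨rfl, rfl⟩
  have hLeB : ∀ c : Raw S N, LeB lab α r' c → LeB lab α q.1 c := by
    intro c hc γ hγ
    exact (St_congr (fun δ hδ => ⟨(hqr δ (hδ.trans_lt hγ)).1.symm,
      (hqr δ (hδ.trans_lt hγ)).2.symm⟩) rfl rfl).1 (hc γ hγ)
  refine ⟨q, fun β => ?_, k, hk, hq1, hq2⟩
  rcases lt_trichotomy β α with hβ | rfl | hβ
  · have h4 := hLeB _ h2 β hβ
    refine (St_congr (fun γ _ => ⟨rfl, rfl⟩) ?_ ?_).1 h4
    · rw [PT.res_s, if_pos (show β ∈ Iio α from hβ)]
    · rw [PT.res_A, if_pos (show β ∈ Iio α from hβ)]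
  · rw [St_iff]
    refine ⟨hq1 ▸ List.prefix_append _ _, hq2 ▸ subset_rfl, fun n hn t l ht1 ht2 => ?_⟩
    rw [hq1] at ht2
    have hlen := ht1.length_le
    have hlen2 := ht2.length_le
    simp at hlen2
    have ht3 : t = p.1.s β := by
      have h5 : t <+: p.1.s β ++ [k] := (List.prefix_append t [l]).trans ht2
      rcases List.prefix_concat_iff.1 h5 with h6 | h6
      · rw [h6] at hlen2
        simp at hlen2
      · exact (List.IsPrefix.eq_of_length h6 (by have := h6.length_le; omega))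
    subst ht3
    have ht4 : l = k := by
      have h5 := List.IsPrefix.eq_of_length ht2 (by simp)
      simpa using h5
    subst ht4
    obtain ⟨c, hc, hc'⟩ := h3 n hn
    exact ⟨c, hc, hLeB c hc'⟩
  · refine St_of_eq (hqp β hβ).1.symm ?_
    rw [(hqp β hβ).2]

theorem stg_iff {α : S} {t : List ℕ} {p : PT lab} : p ∈ stg lab α t ↔ t <+: p.1.s α := by
  constructor
  · intro h
    have h0 : ∀ q ≤ p, ∃ r ≤ q, t <+: r.1.s α := by
      intro q hq
      obtain ⟨r, hr, s, hs, hrs⟩ := RO.mem_gen.1 h q hq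
      exact ⟨r, hr, hs.trans ((St_iff lab).1 (hrs α)).1⟩
    obtain ⟨r, hr, hr'⟩ := h0 p le_rfl
    have h1 : p.1.s α <+: r.1.s α := ((St_iff lab).1 (hr α)).1
    rcases List.prefix_or_prefix_of_prefix hr' h1 with h2 | h2
    · exact h2
    · obtain ⟨u, hu⟩ := h2
      cases u with
      | nil =>
        rw [List.append_nil] at hu
        rw [hu]
      | cons a u =>
        exfalso
        obtain ⟨q, hq, k, hk, hq1, -⟩ := ext_one p α (a + 1)
        obtain ⟨r, hr, hr'⟩ := h0 q hq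
        have h3 : q.1.s α <+: r.1.s α := ((St_iff lab).1 (hr α)).1
        rw [hq1] at h3
        rw [← hu] at hr'
        have h4 : p.1.s α ++ [a] <+: r.1.s α := by
          refine List.IsPrefix.trans ?_ hr'
          exact ⟨u, by simp⟩
        rcases List.prefix_or_prefix_of_prefix h3 h4 with h5 | h5
        · have h6 := List.IsPrefix.eq_of_length h5 (by simp)
          have h7 : k = a := by simpa using h6
          omega
        · have h6 := List.IsPrefix.eq_of_length h5 (by simp)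
          have h7 : a = k := by simpa using h6
          omega
  · intro h
    rw [stg, RO.mem_gen]
    intro q hq
    refine ⟨q, le_rfl, q, ?_, le_rfl⟩
    exact h.trans ((St_iff lab).1 (hq α)).1

/-- Allowed promises can be added. -/
theorem add_promise (p : PT lab) (α : S) {n : N} (hn : K lab α n) :
    ∃ q ≤ p, n ∈ q.1.A α ∧ q.1.s α = p.1.s α := by
  classical
  obtain ⟨q, hq1, hq2, hq3⟩ := exists_upd p α (p.1.s α) (insert n (p.1.A α)) (fun n' hn' => by
    rcases Finset.mem_insert.1 hn' with rfl | hn'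
    · exact hn
    · exact p.2 α n' hn')
  refine ⟨q, fun β => ?_, ?_, hq1⟩
  · by_cases hβ : β = α
    · subst hβ
      refine St_of_eq hq1.symm ?_
      rw [hq2]
      exact Finset.subset_insert _ _
    · refine St_of_eq (hq3 β hβ).1.symm ?_
      rw [(hq3 β hβ).2]
  · rw [hq2]
    exact Finset.mem_insert_self _ _

/-- The values which are added obey the promises. -/
theorem obey {q p : PT lab} (h : q ≤ p) {α : S} {n : N} (hn : n ∈ p.1.A α) {t : List ℕ} {k : ℕ}
    (h1 : p.1.s α <+: t) (h2 : t ++ [k] <+: q.1.s α) :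
    ∃ c : PT lab, c.1 ∈ lab α n t k ∧ c.1.supp ⊆ Iio α ∧ q ≤ c := by
  obtain ⟨c, hc, hc'⟩ := ((St_iff lab).1 (h α)).2.2 n hn t k h1 h2
  have hV : VB lab α c := ((K_iff lab).1 (p.2 α n hn)).1 t k c hc
  have hs := (VB_iff.1 hV).2
  exact ⟨hV.toPT, hc, hs, (PT.le_iff_LeB (c := hV.toPT) hs).2 hc'⟩

end Pool.Agent.LibFS55
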