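import Pool.Agent.LibFS55.R2
import Pool.Agent.LibMA42.F4b

/-! The countable chain condition. -/

set_option autoImplicit false

namespace Pool.Agent.LibFS55

open Pool.Agent.LibTk83 Pool.Agent.LibMA42 Set

variable {S N : Type} [LinearOrder S] [WellFoundedLT S]
  {lab : S → N → List ℕ → ℕ → Set (Raw S N)}

omit [LinearOrder S] [WellFoundedLT S] in
private theorem R4_not_supp {p : Raw S N} {β : S} (h : β ∉ p.supp) : p.s β = [] ∧ p.A β = ∅ := by
  unfold Raw.supp at h
  simp only [Set.mem_ofPred_eq, not_or, not_not] at h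
  exact h

/-- Conditions with the same stems at the common stages are compatible. -/
theorem compat {p q : PT lab} (h : ∀ β ∈ p.1.supp, β ∈ q.1.supp → p.1.s β = q.1.s β) :
    ∃ r, r ≤ p ∧ r ≤ q := by
  classical
  let r₀ : Raw S N :=
    { s := fun β => if β ∈ p.1.supp then p.1.s β else q.1.s β
      A := fun β => p.1.A β ∪ q.1.A β
      fin := by
        refine (p.1.fin.union q.1.fin).subset fun β hβ => ?_
        by_contra hcon
        have h1 : β ∉ p.1.supp := fun h' => hcon (Or.inl h')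
        have h2 : β ∉ q.1.supp := fun h' => hcon (Or.inr h')
        obtain ⟨h3, h4⟩ := R4_not_supp h1
        obtain ⟨h5, h6⟩ := R4_not_supp h2
        simp only [Set.mem_ofPred_eq, if_neg h1, h4, h5, h6, Finset.empty_union, ne_eq,
          not_true_eq_false, or_self] at hβ }
  have hrK : ∀ β, ∀ n ∈ r₀.A β, K lab β n := by
    intro β n hn
    rcases Finset.mem_union.1 hn with h1 | h1
    · exact p.2 β n h1
    · exact q.2 β n h1
  refine ⟨⟨r₀, hrK⟩, fun β => ?_, fun β => ?_⟩
  · by_cases hβ : β ∈ p.1.supp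
    · refine St_of_eq ?_ Finset.subset_union_left
      change p.1.s β = if β ∈ p.1.supp then p.1.s β else q.1.s β
      rw [if_pos hβ]
    · obtain ⟨h3, h4⟩ := R4_not_supp hβ
      exact St_of_triv h3 h4
  · by_cases hβ : β ∈ q.1.supp
    · refine St_of_eq ?_ Finset.subset_union_right
      change q.1.s β = if β ∈ p.1.supp then p.1.s β else q.1.s β
      by_cases hβ' : β ∈ p.1.supp
      · rw [if_pos hβ', h β hβ' hβ]
      · rw [if_neg hβ']
    · obtain ⟨h3, h4⟩ := R4_not_supp hβ
      exact St_of_triv h3 h4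

theorem ccc_PT : CCC (PT lab) := by
  intro J hJ p
  have hu : ¬ (Set.univ : Set J).Countable := by
    rw [Set.countable_univ_iff, not_countable_iff]
    exact hJ
  obtain ⟨S', -, hS', -, h2⟩ := delta_homog (K := List ℕ) (Set.univ : Set J) hu
    (fun j => (p j).1.supp) (fun j => (p j).1.fin) (fun j x _ => (p j).1.s x)
  have hnt : S'.Nontrivial := by
    rw [← Set.not_subsingleton_iff]
    intro hss
    exact hS' hss.countable
  obtain ⟨a, ha, b, hb, hab⟩ := hnt
  obtain ⟨r, hra, hrb⟩ := compat (p := p a) (q := p b)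
    (fun β h3 h4 => h2 a ha b hb β β h3 h4 h3 h4)
  exact ⟨a, b, hab, r, hra, hrb⟩

theorem ccb_PT : CCB (RO (PT lab)) := by
  intro J x hx hd
  by_contra hJ
  rw [not_countable_iff] at hJ
  have h1 : ∀ j, ∃ p, p ∈ x j := fun j => RO.ne_bot_iff.1 (hx j)
  choose p hp using h1
  obtain ⟨i, j, hij, r, hri, hrj⟩ := ccc_PT J hJ p
  have h2 : r ∈ x i ⊓ x j := RO.mem_inf.2 ⟨RO.mem_of_le hri (hp i), RO.mem_of_le hrj (hp j)⟩
  rw [hd i j hij] at h2
  exact RO.not_mem_bot h2

end Pool.Agent.LibFS55
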