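import Pool.Agent.LibFS55.R3
import Pool.Agent.LibFS55.R5
import Pool.Agent.LibFS55.A4

/-! The function given by finitely many promises. -/

set_option autoImplicit false

namespace Pool.Agent.LibFS55

open Pool.Agent.LibTk83 Set Cardinal

variable {S N : Type} [LinearOrder S] [WellFoundedLT S]
  {lab : S → N → List ℕ → ℕ → Set (Raw S N)}

/-- The function given by a finite set `F` of promises. -/
theorem fn_promises (hL : HLab lab) {α : S} (F : Finset N) (hF : ∀ n ∈ F, K lab α n) :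
    Fn (CX lab (Iio α)) fun t k => ⨅ n ∈ F, RO.gen {p : PT lab | p.1 ∈ lab α n t k} := by
  have hX : IsLowerSet (Iio α) := isLowerSet_Iio α
  have hS := isSub_CX (lab := lab) hX
  have hV : ∀ n ∈ F, ∀ t k, ∀ c ∈ lab α n t k, VB lab α c := fun n hn =>
    ((K_iff lab).1 (hF n hn)).1
  refine ⟨fun t k => hS.iInf fun n => hS.iInf fun hn => gen_mem_CX hX fun c hc =>
    (VB_iff.1 (hV n hn t k c.1 hc)).2, ?_, ?_⟩
  · intro t k k' hkk
    refine iInf₂_mono fun n _ => ?_
    intro p hp q hq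
    obtain ⟨r, hr, s, hs, hrs⟩ := hp q hq
    exact ⟨r, hr, s, hL.mono α n t k k' hkk hs, hrs⟩
  · intro t
    rw [RO.eq_top_iff']
    intro p
    obtain ⟨r', hr', hle, k, -, hk⟩ := perm F hF t (PT.VB_res α p) 0
    have hsupp : (PT.res (Iio α) p).1.supp ⊆ Iio α := by
      rw [PT.supp_res]
      exact inter_subset_right
    have h1 : hr'.toPT ≤ PT.res (Iio α) p := (PT.le_iff_LeB hsupp).2 hle
    refine ⟨PT.glue (Iio α) hr'.toPT p, PT.glue_le' hX h1, ?_⟩
    refine RO.mem_iSup.2 fun q hq => ⟨q, le_rfl, k, ?_⟩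
    refine RO.mem_iInf.2 fun n => RO.mem_iInf.2 fun hn => ?_
    obtain ⟨c, hc, hrc⟩ := hk n hn
    have hcV := hV n hn t k c hc
    have h2 : hr'.toPT ≤ hcV.toPT := (PT.le_iff_LeB (VB_iff.1 hcV).2).2 hrc
    have h3 : PT.res (Iio α) hr'.toPT ≤ hcV.toPT :=
      (PT.le_iff_res hX (VB_iff.1 hcV).2).1 h2
    intro q' hq'
    exact ⟨q', le_rfl, hcV.toPT, hc,
      (hq'.trans hq).trans ((PT.glue_le_res hX _ p).trans h3)⟩

end Pool.Agent.LibFS55
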