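import Pool.Agent.LibFS55.R3
import Pool.Agent.LibFS55.R6
import Pool.Agent.LibFS55.A2

/-! The second catalogue. -/

set_option autoImplicit false

namespace Pool.Agent.LibFS55

open Pool.Agent.LibTk83 Set Cardinal

variable {S N : Type} [LinearOrder S] [WellFoundedLT S]
  {lab : S → N → List ℕ → ℕ → Set (Raw S N)}

theorem R9a_finite (A : Finset N) (G : N → Set (PT lab)) {r : PT lab}
    (h : ∀ n ∈ A, r ∈ RO.gen (G n)) : ∃ r' ≤ r, ∀ n ∈ A, ∃ c ∈ G n, r' ≤ c := by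
  classical
  induction A using Finset.induction_on with
  | empty => exact ⟨r, le_rfl, fun n hn => by simp at hn⟩
  | insert a A _ ih =>
    obtain ⟨r', hr', h1⟩ := ih fun n hn => h n (Finset.mem_insert_of_mem hn)
    obtain ⟨r'', hr'', c, hc, hc'⟩ := RO.mem_gen.1 (h a (Finset.mem_insert_self a A)) r' hr'
    refine ⟨r'', hr''.trans hr', fun n hn => ?_⟩
    rcases Finset.mem_insert.1 hn with rfl | hn
    · exact ⟨c, hc, hc'⟩
    · obtain ⟨d, hd, hd'⟩ := h1 n hn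
      exact ⟨d, hd, hr''.trans hd'⟩

theorem exists_stage (hS : Bdd1 S) (hN : #N ≤ Cardinal.aleph 1) (hP : PLab lab)
    (F : N → ℕ → RO (PT lab)) (hF : ∀ A : Finset N, ls (fun k => ⨅ n ∈ A, F n k) = ⊤) :
    ∃ β, (∀ n, K lab β n) ∧ ∀ n t k, (∀ c ∈ lab β n t k, t.length ≤ k) ∧
      RO.gen {p : PT lab | p.1 ∈ lab β n t k} ≤ F n k := by
  obtain ⟨β₀, hβ₀⟩ := exists_bound hS (J := N × ℕ) (by
    rw [Cardinal.mk_prod, Cardinal.lift_id, Cardinal.lift_id, Cardinal.mk_nat]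
    refine (mul_le_mul' hN (Cardinal.aleph0_le_aleph 1)).trans ?_
    exact (Cardinal.mul_eq_self (Cardinal.aleph0_le_aleph 1)).le) (fun j => F j.1 j.2)
  choose G hG1 hG2 hG3 using fun n k => exists_gen_raw (hβ₀ (n, k))
  obtain ⟨β, hβ, hlab⟩ := hP β₀ G hG1
  have hval : ∀ n' t k, ∀ c ∈ lab β n' t k, VB lab β c := by
    intro n' t k c hc
    rw [hlab] at hc
    exact (hG2 n' k c hc.2).mono hβ.le
  have hCen : Cen lab β := by
    refine ⟨hval, fun A t r hr m => ?_⟩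
    have h1 : hr.toPT ∈ ls (fun k => ⨅ n ∈ A, F n k) := by
      rw [hF A]
      exact RO.mem_top
    have h2 := ls_le (fun k => ⨅ n ∈ A, F n k) (max m t.length) h1
    obtain ⟨r₁, hr₁, k, h3⟩ := RO.mem_iSup.1 h2 _ le_rfl
    obtain ⟨r₂, hr₂, hk, h4⟩ := RO.mem_iSup.1 h3 _ le_rfl
    have h5 : ∀ n ∈ A, r₂ ∈ RO.gen {p : PT lab | p.1 ∈ G n k} := by
      intro n hn
      rw [hG3]
      rw [RO.mem_iInf] at h4
      have := h4 n
      rw [RO.mem_iInf] at this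
      exact this hn
    obtain ⟨r₃, hr₃, h6⟩ := R9a_finite A (fun n => {p : PT lab | p.1 ∈ G n k}) h5
    have hrs : hr.toPT.1.supp ⊆ Iio β := (VB_iff.1 hr).2
    have h7 : PT.res (Iio β) r₃ ≤ hr.toPT :=
      (PT.le_iff_res (isLowerSet_Iio β) hrs).1 ((hr₃.trans hr₂).trans hr₁)
    refine ⟨(PT.res (Iio β) r₃).1, PT.VB_res β r₃, fun γ _ => h7 γ, k,
      (le_max_left _ _).trans hk, fun n hn => ?_⟩
    obtain ⟨c, hc, hc'⟩ := h6 n hn
    have hcs : c.1.supp ⊆ Iio β := ((VB_iff.1 (hG2 n k c.1 hc)).2).trans (Iio_subset_Iio hβ.le)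
    have h8 : PT.res (Iio β) r₃ ≤ c := (PT.le_iff_res (isLowerSet_Iio β) hcs).1 hc'
    refine ⟨c.1, ?_, fun γ _ => h8 γ⟩
    rw [hlab]
    exact ⟨(le_max_right _ _).trans hk, hc⟩
  refine ⟨β, fun n => (K_iff lab).2 ⟨fun t k c hc => hval n t k c hc, Or.inr hCen⟩,
    fun n t k => ⟨fun c hc => ?_, ?_⟩⟩
  · rw [hlab] at hc
    exact hc.1
  · have h1 : RO.gen {p : PT lab | p.1 ∈ G n k} = F n k := hG3 n k
    rw [← h1]
    intro p hp q hq
    obtain ⟨r, hr, s, hs, hrs⟩ := RO.mem_gen.1 hp q hq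
    have hs' : s.1 ∈ lab β n t k := hs
    rw [hlab] at hs'
    exact ⟨r, hr, s, hs'.2, hrs⟩

end Pool.Agent.LibFS55
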