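import Pool.Agent.LibFS55.Bool

/-!
MP_1ca5ad_gt, the iteration.

`S` is the well-ordered set of the stages, `N` is the set of the promises, `lab β n t k` is the set of
the conditions which say that at stage `β` the promise `n` allows the value `k` at the node `t`.
-/

set_option autoImplicit false

namespace Pool.Agent.LibFS55

open Pool.Agent.LibTk83 Cardinal

/-- Raw conditions: at each stage a stem and a finite set of promises; almost all are trivial. -/
@[ext] structure Raw (S N : Type) where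
  s : S → List ℕ
  A : S → Finset N
  fin : {β | s β ≠ [] ∨ A β ≠ ∅}.Finite

namespace Raw

variable {S N : Type}

/-- The support. -/
def supp (p : Raw S N) : Set S := {β | p.s β ≠ [] ∨ p.A β ≠ ∅}

/-- The trivial condition. -/
def triv : Raw S N where
  s _ := []
  A _ := ∅
  fin := by simp

open Classical in
/-- `r` at the stages in `X`, `p` elsewhere. -/
noncomputable def glue (X : Set S) (r p : Raw S N) : Raw S N where
  s β := if β ∈ X then r.s β else p.s β
  A β := if β ∈ X then r.A β else p.A β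
  fin := by
    refine (r.fin.union p.fin).subset fun β hβ => ?_
    simp only [Set.mem_ofPred_eq] at hβ
    by_cases h : β ∈ X
    · simp only [h, if_true] at hβ
      exact Or.inl hβ
    · simp only [h, if_false] at hβ
      exact Or.inr hβ

open Classical in
/-- Change the condition at the stage `α`. -/
noncomputable def upd (p : Raw S N) (α : S) (t : List ℕ) (F : Finset N) : Raw S N where
  s β := if β = α then t else p.s β
  A β := if β = α then F else p.A β
  fin := by
    refine (p.fin.union (Set.finite_singleton α)).subset fun β hβ => ?_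
    simp only [Set.mem_ofPred_eq] at hβ
    by_cases h : β = α
    · exact Or.inr h
    · simp only [h, if_false] at hβ
      exact Or.inl hβ

end Raw

section

variable {S N : Type} [LinearOrder S] [WellFoundedLT S]
  (lab : S → N → List ℕ → ℕ → Set (Raw S N))

/-- The rule of the recursion for `St`. -/
def StF (β : S) (R : ∀ γ, γ < β → Raw S N → Raw S N → Prop) (q p : Raw S N) : Prop :=
  p.s β <+: q.s β ∧ p.A β ⊆ q.A β ∧
    ∀ n ∈ p.A β, ∀ t k, p.s β <+: t → t ++ [k] <+: q.s β →
      ∃ c ∈ lab β n t k, ∀ γ (h : γ < β), R γ h q c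

/-- `q` is stronger than `p` at the stage `β`. -/
def St : S → Raw S N → Raw S N → Prop := (wellFounded_lt (α := S)).fix (StF lab)

theorem St_iff {β : S} {q p : Raw S N} : St lab β q p ↔ p.s β <+: q.s β ∧ p.A β ⊆ q.A β ∧
    ∀ n ∈ p.A β, ∀ t k, p.s β <+: t → t ++ [k] <+: q.s β →
      ∃ c ∈ lab β n t k, ∀ γ, γ < β → St lab γ q c := by
  unfold St
  rw [WellFounded.fix_eq]
  rfl

/-- `q` is stronger than `p` at the stages below `β`. -/
def LeB (β : S) (q p : Raw S N) : Prop := ∀ γ, γ < β → St lab γ q p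

/-- The rule for the validity below `β`. -/
def VF (β : S) (R : ∀ γ, γ < β → N → Prop) (r : Raw S N) : Prop :=
  (∀ γ, ∀ n ∈ r.A γ, ∃ h : γ < β, R γ h n) ∧ ∀ γ, r.s γ ≠ [] → γ < β

/-- The rule of the recursion for `K`. -/
def KF (β : S) (R : ∀ γ, γ < β → N → Prop) (n : N) : Prop :=
  (∀ t k, ∀ c ∈ lab β n t k, VF β R c) ∧
  ((∀ t r, VF β R r → ∃ r', VF β R r' ∧ LeB lab β r' r ∧
      ∃ m, ∀ k, m ≤ k → ∃ c ∈ lab β n t k, LeB lab β r' c) ∨
    ((∀ n' t k, ∀ c ∈ lab β n' t k, VF β R c) ∧
      ∀ (F : Finset N) t r, VF β R r → ∀ m, ∃ r', VF β R r' ∧ LeB lab β r' r ∧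
        ∃ k, m ≤ k ∧ ∀ n' ∈ F, ∃ c ∈ lab β n' t k, LeB lab β r' c))

/-- The promise `n` can be used at the stage `β`. -/
def K : S → N → Prop := (wellFounded_lt (α := S)).fix (KF lab)

/-- `r` is a valid condition with support below `β`. -/
def VB (β : S) (r : Raw S N) : Prop :=
  (∀ γ, ∀ n ∈ r.A γ, γ < β ∧ K lab γ n) ∧ ∀ γ, r.s γ ≠ [] → γ < β

/-- It is forced that almost all `k` are allowed by `n` at `t`. -/
def Cof (β : S) (n : N) : Prop :=
  ∀ t r, VB lab β r → ∃ r', VB lab β r' ∧ LeB lab β r' r ∧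
    ∃ m, ∀ k, m ≤ k → ∃ c ∈ lab β n t k, LeB lab β r' c

/-- All labels of the stage are valid, and it is forced that each finite set of promises allows
arbitrarily large values. -/
def Cen (β : S) : Prop :=
  (∀ n' t k, ∀ c ∈ lab β n' t k, VB lab β c) ∧
    ∀ (F : Finset N) t r, VB lab β r → ∀ m, ∃ r', VB lab β r' ∧ LeB lab β r' r ∧
      ∃ k, m ≤ k ∧ ∀ n' ∈ F, ∃ c ∈ lab β n' t k, LeB lab β r' c

theorem K_iff {β : S} {n : N} : K lab β n ↔
    (∀ t k, ∀ c ∈ lab β n t k, VB lab β c) ∧ (Cof lab β n ∨ Cen lab β) := by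
  have h1 : ∀ r, VF β (fun γ _ => K lab γ) r ↔ VB lab β r := by
    intro r
    unfold VF VB
    refine and_congr (forall_congr' fun γ => forall₂_congr fun n _ => ?_) Iff.rfl
    exact ⟨fun ⟨h, h'⟩ => ⟨h, h'⟩, fun ⟨h, h'⟩ => ⟨h, h'⟩⟩
  have h2 : K lab β = KF lab β (fun γ _ => K lab γ) := by
    unfold K
    exact WellFounded.fix_eq _ _ _
  rw [h2]
  unfold KF Cof Cen
  simp only [h1]

/-- The conditions. -/
def PT : Type := {p : Raw S N // ∀ β, ∀ n ∈ p.A β, K lab β n}

variable {lab}

theorem St_refl (β : S) (p : Raw S N) : St lab β p p := by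
  rw [St_iff]
  refine ⟨List.prefix_rfl, subset_rfl, fun n _ t k h1 h2 => ?_⟩
  have h3 := h1.length_le
  have h4 := h2.length_le
  simp at h4
  omega

theorem St_trans {β : S} {q p r : Raw S N} (hr : ∀ γ, γ ≤ β → St lab γ r q)
    (hq : St lab β q p) : St lab β r p := by
  induction β using WellFoundedLT.induction generalizing p with
  | ind β ih =>
    have hrβ := (St_iff lab).1 (hr β le_rfl)
    have hqβ := (St_iff lab).1 hq
    rw [St_iff]
    refine ⟨hqβ.1.trans hrβ.1, hqβ.2.1.trans hrβ.2.1, fun n hn t k h1 h2 => ?_⟩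
    by_cases h3 : q.s β <+: t
    · exact hrβ.2.2 n (hqβ.2.1 hn) t k h3 h2
    · have h4 : t ++ [k] <+: q.s β := by
        rcases List.prefix_or_prefix_of_prefix h2 hrβ.1 with h5 | h5
        · exact h5
        · rcases List.prefix_concat_iff.1 h5 with h6 | h6
          · rw [h6]
          · exact absurd h6 h3
      obtain ⟨c, hc, hc'⟩ := hqβ.2.2 n hn t k h1 h4
      refine ⟨c, hc, fun γ hγ => ?_⟩
      exact ih γ hγ (fun δ hδ => hr δ (hδ.trans hγ.le)) (hc' γ hγ)

instance : Preorder (PT lab) where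
  le q p := ∀ β, St lab β q.1 p.1
  le_refl p β := St_refl β p.1
  le_trans r q p h h' β := St_trans (fun γ _ => h γ) (h' β)

theorem PT.le_def {q p : PT lab} : q ≤ p ↔ ∀ β, St lab β q.1 p.1 := Iff.rfl

theorem LeB.refl (β : S) (p : Raw S N) : LeB lab β p p := fun γ _ => St_refl γ p

theorem LeB.trans {β : S} {r q p : Raw S N} (h : LeB lab β r q) (h' : LeB lab β q p) :
    LeB lab β r p := fun γ hγ => St_trans (fun δ hδ => h δ (hδ.trans_lt hγ)) (h' γ hγ)

/-- `r` at the stages in `X`, `p` elsewhere. -/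
noncomputable def PT.glue (X : Set S) (r p : PT lab) : PT lab :=
  ⟨Raw.glue X r.1 p.1, fun β n hn => by
    unfold Raw.glue at hn
    simp only at hn
    split_ifs at hn
    · exact r.2 β n hn
    · exact p.2 β n hn⟩

variable (lab) in
/-- The trivial condition. -/
def PT.triv : PT lab := ⟨Raw.triv, fun β n hn => by simp [Raw.triv] at hn⟩

/-- The restriction of `p` to `X`. -/
noncomputable def PT.res (X : Set S) (p : PT lab) : PT lab := PT.glue X p (PT.triv lab)

variable (lab) in
/-- The algebra of the names with support in `X`. -/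
def CX (X : Set S) : Set (RO (PT lab)) := {b | ∀ p ∈ b, PT.res X p ∈ b}

variable (lab) in
/-- Truth value of: `t` is an initial segment of the generic real of the stage `α`. -/
def stg (α : S) (t : List ℕ) : RO (PT lab) := RO.gen {p | t <+: p.1.s α}

end

/-- The catalogue for the consistency of Q1: all names of functions from the nodes to `ℕ`. -/
structure HLab {S N : Type} (lab : S → N → List ℕ → ℕ → Set (Raw S N)) : Prop where
  mono : ∀ β n t k k', k ≤ k' → lab β n t k ⊆ lab β n t k'
  surj : ∀ (β : S) (G : List ℕ → ℕ → Set (Raw S N)), (∀ t k, (G t k).Countable) →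
    ∃ n, ∀ t k, lab β n t k = {c | ∃ k', k' ≤ k ∧ c ∈ G t k'}

/-- The catalogue for the consistency of the negation of Q1: each family of names of subsets of `ℕ`
with index set `N` occurs at arbitrarily large stages. -/
def PLab {S N : Type} [LinearOrder S] (lab : S → N → List ℕ → ℕ → Set (Raw S N)) : Prop :=
  ∀ (β₀ : S) (G : N → ℕ → Set (Raw S N)), (∀ n k, (G n k).Countable) →
    ∃ β, β₀ < β ∧ ∀ n t k, lab β n t k = {c | t.length ≤ k ∧ c ∈ G n k}

/-- Each set of at most `ℵ₁` stages is bounded. -/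
def Bdd1 (S : Type) [LinearOrder S] : Prop :=
  ∀ X : Set S, #X ≤ Cardinal.aleph 1 → ∃ β, ∀ γ ∈ X, γ < β

end Pool.Agent.LibFS55
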