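import Pool.Agent.LibTk83.Sent

/-!
The truth values, in the Boolean-valued universe `V^B`, of two sentences about families of subsets
of `ω` and of functions from `ω` to `ω`.

All quantifiers range over the whole universe `V^B`; the only primitive predicates are membership
and equality. For natural numbers (finite ordinals) `m ≤ n` means: not `n ∈ m`.
-/

set_option autoImplicit false

universe u

namespace Pool.Agent.LibFS55

open Pool.Agent.LibPlas90 Pool.Agent.LibPlas90.BSet Pool.Agent.LibTk83

variable {B : Type u} [CompleteBooleanAlgebra B]

/-- `S` is an ordinal all of whose elements are countable: it is a transitive set of countable sets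
which is linearly ordered by membership. -/
noncomputable def isOrd (S w : BSet B) : B :=
  (all S fun x => sub x S ⊓ embeds x w) ⊓
    all S fun x => all S fun y => mem x y ⊔ eq x y ⊔ mem y x

/-- `f` is a family of functions from `w` to `w`, indexed by `S`: for `i ∈ S` and `n ∈ w` there is
exactly one `k ∈ w` with `(i, n, k) ∈ f`. -/
noncomputable def isFam (f S w : BSet B) : B :=
  all S fun i => all w fun n => ex w fun k => rel3 f i n k ⊓ all w fun l => rel3 f i n l ⇨ eq l k

/-- Each family of functions from `w` to `w`, indexed by `S`, is dominated by one function `g` from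
`w` to `w`: `f(i)(n) ≤ g(n)` for each `i ∈ S` and almost all `n`. -/
noncomputable def isDom (S w : BSet B) : B :=
  ⨅ f : BSet B, isFam f S w ⇨ ⨆ g : BSet B, isMap g w w ⊓
    all S fun i => ex w fun m => all w fun n => (mem n m)ᶜ ⇨
      all w fun k => all w fun l => rel3 f i n k ⊓ rel g n l ⇨ (mem l k)ᶜ

/-- `y(i)` and `x(m, j)` do not have the same elements below `d(m)`, where `y(i)` is the set of the
`k` with `(i, k) ∈ y` and `x(m, j)` is the set of the `k` with `(m, j, k) ∈ x`. -/
noncomputable def isDiff (y x d i m j w : BSet B) : B :=
  ex w fun l => rel d m l ⊓ ex w fun k => mem k l ⊓ (equiv (rel y i k) (rel3 x m j k))ᶜ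

/-- For each family `y` of different subsets of `w`, indexed by `S`, there is a function `d` from
`w` to `w` such that for each infinite subset `E` of `w` and each family `x` of subsets of `w`,
indexed by the pairs of elements of `w`, there is `i ∈ S` such that for infinitely many `m ∈ E`
the set `y(i)` differs below `d(m)` from all the sets `x(m, j)` with `j ≤ m`. -/
noncomputable def isSep (S w : BSet B) : B :=
  ⨅ y : BSet B,
    (all S fun i => all S fun j => (eq i j)ᶜ ⇨ ex w fun k => (equiv (rel y i k) (rel y j k))ᶜ) ⇨
    ⨆ d : BSet B, isMap d w w ⊓ ⨅ E : BSet B, ⨅ x : BSet B,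
      (all w fun m => ex w fun n => (mem n m)ᶜ ⊓ mem n E) ⇨
      ex S fun i => all w fun n => ex w fun m => (mem m n)ᶜ ⊓ mem m E ⊓
        all w fun j => (mem m j)ᶜ ⇨ isDiff y x d i m j w

variable (B) in
/-- The truth value in `V^B` of the sentence: there is an ordinal `S`, all of whose elements are
countable, with the properties `isDom` and `isSep`. -/
noncomputable def sentence1 : B :=
  ⨆ w : BSet B, ⨆ S : BSet B, isOmega w ⊓ isOrd S w ⊓ isDom S w ⊓ isSep S w

/-- For each family `F` of subsets of `w`, indexed by `S`, all of whose finite subfamilies have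
infinite intersections, there is an infinite subset `P` of `w` which is almost contained in each
member of the family. -/
noncomputable def isPse (S w : BSet B) : B :=
  ⨅ F : BSet B,
    (⨅ A : BSet B, sub A S ⊓ isFin A ⇨
      all w fun m => ex w fun k => (mem k m)ᶜ ⊓ all A fun i => rel F i k) ⇨
    ⨆ P : BSet B, (all w fun m => ex w fun k => (mem k m)ᶜ ⊓ mem k P) ⊓
      all S fun i => ex w fun m => all w fun k => (mem k m)ᶜ ⊓ mem k P ⇨ rel F i k

variable (B) in
/-- The truth value in `V^B` of the sentence: there is an uncountable set `S` with the property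
`isPse`. -/
noncomputable def sentence2 : B :=
  ⨆ w : BSet B, ⨆ S : BSet B, isOmega w ⊓ (embeds S w)ᶜ ⊓ isPse S w

end Pool.Agent.LibFS55
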