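import Pool.Agent.LibFS55.Sent
import Pool.Agent.LibFS55.Bool
import Pool.Agent.LibNC21.Base
import Pool.Agent.LibSAD21.Interp

/-! Natural deduction, quantifiers over the natural numbers and over the index set. -/

set_option autoImplicit false

namespace Pool.Agent.LibFS55

open Pool.Agent.LibPlas90 Pool.Agent.LibPlas90.BSet Pool.Agent.LibTk83 Pool.Agent.LibNC21

variable {B : Type} [CompleteBooleanAlgebra B]

theorem Ext_isDiff_1 (y x d m j w : BSet B) : Ext (fun i => isDiff y x d i m j w) := by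
  unfold isDiff ex equiv
  solve_by_elim (transparency := .reducible) (maxDepth := 100) only [Ext.const, Ext.mem_left,
    Ext.mem_right, Ext.eq_left, Ext.eq_right, Ext.rel1, Ext.rel2, Ext.rel3_1, Ext.rel3_2,
    Ext.rel3_3, Ext_embeds_left, Ext_sub_left, Ext.iInf, Ext.iSup, Ext.inf, Ext.sup, Ext.himp,
    Ext.compl]

theorem Ext_isDiff_2 (y x d i j w : BSet B) : Ext (fun m => isDiff y x d i m j w) := by
  unfold isDiff ex equiv
  solve_by_elim (transparency := .reducible) (maxDepth := 100) only [Ext.const, Ext.mem_left,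
    Ext.mem_right, Ext.eq_left, Ext.eq_right, Ext.rel1, Ext.rel2, Ext.rel3_1, Ext.rel3_2,
    Ext.rel3_3, Ext_embeds_left, Ext_sub_left, Ext.iInf, Ext.iSup, Ext.inf, Ext.sup, Ext.himp,
    Ext.compl]

theorem Ext_isDiff_3 (y x d i m w : BSet B) : Ext (fun j => isDiff y x d i m j w) := by
  unfold isDiff ex equiv
  solve_by_elim (transparency := .reducible) (maxDepth := 100) only [Ext.const, Ext.mem_left,
    Ext.mem_right, Ext.eq_left, Ext.eq_right, Ext.rel1, Ext.rel2, Ext.rel3_1, Ext.rel3_2,
    Ext.rel3_3, Ext_embeds_left, Ext_sub_left, Ext.iInf, Ext.iSup, Ext.inf, Ext.sup, Ext.himp,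
    Ext.compl]

end Pool.Agent.LibFS55
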