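import Pool.Agent.LibFS55.V1
import Pool.Agent.LibFS55.W1

/-! The index set. -/

set_option autoImplicit false

namespace Pool.Agent.LibFS55

open Pool.Agent.LibPlas90 Pool.Agent.LibPlas90.BSet Pool.Agent.LibTk83 Pool.Agent.LibNC21

variable {B : Type} [CompleteBooleanAlgebra B]

theorem V2_sub (i : W1) : sub (chk i : BSet B) (ck B W1) = ⊤ := by
  rw [← top_le_iff]
  unfold sub
  refine F.all_intro fun x d _ hx => ?_
  exact F.mem_chk_cases hx fun j _ d' _ h => F.mem_l (F.symm h) (F.mem_chk_ck j)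

open Classical in
theorem V2_embeds (i : W1) : embeds (chk i : BSet B) (ck B ℕ) = ⊤ := by
  have hc : Countable {j : W1 // j < i} := (W1_Iio i).to_subtype
  obtain ⟨e, he⟩ := hc.exists_injective_nat
  rw [← top_le_iff, chk_eq]
  refine embeds_of_BInj (r := fun j n => if e j = n then ⊤ else ⊥) ?_
  constructor
  · intro j
    refine le_iSup_of_le (e j) ?_
    simp
  · intro j j' n
    by_cases h : j = j'
    · subst h
      exact inf_le_right
    · have h1 : eq (chk j.1 : BSet B) (chk j'.1) = ⊥ := eq_chk fun h2 => h (Subtype.ext h2)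
      rw [h1]
      simp
  · intro j n n' h
    by_cases h1 : e j = n
    · have h2 : e j ≠ n' := fun h2 => h (h1.symm.trans h2)
      simp [h2]
    · simp [h1]
  · intro j j' n
    by_cases h1 : e j = n
    · by_cases h2 : e j' = n
      · have h3 : j = j' := he (h1.trans h2.symm)
        subst h3
        rw [eq_refl]
        exact le_top
      · simp [h2]
    · simp [h1]

theorem isOrd_ck : isOrd (ck B W1) (ck B ℕ) = ⊤ := by
  rw [← top_le_iff]
  unfold isOrd
  refine le_inf ?_ ?_
  · rw [all_ck (by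
        solve_by_elim (transparency := .reducible) (maxDepth := 100) only [Ext.const,
          Ext.mem_left, Ext.mem_right, Ext.eq_left, Ext.eq_right, Ext.rel1, Ext.rel2,
          Ext.rel3_1, Ext.rel3_2, Ext.rel3_3, Ext_embeds_left, Ext_sub_left, Ext.iInf, Ext.iSup,
          Ext.inf, Ext.sup, Ext.himp, Ext.compl])]
    refine le_iInf fun i => ?_
    rw [V2_sub, V2_embeds, inf_top_eq]
  · rw [all_ck (by
        unfold all
        solve_by_elim (transparency := .reducible) (maxDepth := 100) only [Ext.const,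
          Ext.mem_left, Ext.mem_right, Ext.eq_left, Ext.eq_right, Ext.rel1, Ext.rel2,
          Ext.rel3_1, Ext.rel3_2, Ext.rel3_3, Ext_embeds_left, Ext_sub_left, Ext.iInf, Ext.iSup,
          Ext.inf, Ext.sup, Ext.himp, Ext.compl])]
    refine le_iInf fun i => ?_
    rw [all_ck (by
          solve_by_elim (transparency := .reducible) (maxDepth := 100) only [Ext.const,
            Ext.mem_left, Ext.mem_right, Ext.eq_left, Ext.eq_right, Ext.rel1, Ext.rel2,
            Ext.rel3_1, Ext.rel3_2, Ext.rel3_3, Ext_embeds_left, Ext_sub_left, Ext.iInf,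
            Ext.iSup, Ext.inf, Ext.sup, Ext.himp, Ext.compl])]
    refine le_iInf fun j => ?_
    rcases lt_trichotomy i j with h | h | h
    · rw [mem_chk_of_lt h]
      simp
    · subst h
      rw [eq_refl]
      simp
    · rw [mem_chk_of_lt h]
      simp

theorem embeds_W1 (h : CCB B) : embeds (ck B W1) (ck B ℕ) = ⊥ := by
  refine Pool.Agent.LibSAD21.embeds_ck_eq_bot fun x hx => ?_
  have h1 : ∀ k, {ξ | x k ξ ≠ ⊥}.Countable := fun k => by
    rw [← Set.countable_coe_iff]
    exact h _ (fun ξ : {ξ // x k ξ ≠ ⊥} => x k ξ.1) (fun ξ => ξ.2)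
      fun ξ η hne => hx k ξ.1 η.1 fun h2 => hne (Subtype.ext h2)
  have h2 : (⋃ k, {ξ | x k ξ ≠ ⊥}).Countable := Set.countable_iUnion h1
  obtain ⟨ξ, hξ⟩ : ∃ ξ, ξ ∉ ⋃ k, {ξ | x k ξ ≠ ⊥} := by
    by_contra hcon
    push Not at hcon
    exact Set.not_countable_univ (h2.mono fun ξ _ => hcon ξ)
  refine le_bot_iff.1 ((iInf_le _ ξ).trans (iSup_le fun k => ?_))
  by_contra h3
  exact hξ (Set.mem_iUnion.2 ⟨k, fun h4 => h3 h4.le⟩)

end Pool.Agent.LibFS55
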