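import Pool.Agent.LibFS55.V1

/-! Families of functions; domination. -/

set_option autoImplicit false

namespace Pool.Agent.LibFS55

open Pool.Agent.LibPlas90 Pool.Agent.LibPlas90.BSet Pool.Agent.LibTk83 Pool.Agent.LibNC21

variable {B : Type} [CompleteBooleanAlgebra B]

theorem V3_val {f : BSet B} {c : B} (h : c ≤ isFam f (ck B W1) (ck B ℕ)) (i : W1) (n : ℕ) :
    c ≤ ⨆ k : ℕ, rel3 f (chk i) (chk n) (chk k) := by
  have h1 := F.all_elim (F.all_elim h (F.mem_chk_ck i)) (F.mem_chk_ck n)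
  refine F.ex_cases h1 fun k0 d hd hk0 h2 => F.ck_cases hk0 fun k d1 hd1 hk => ?_
  refine le_iSup_of_le k ?_
  exact F.ext (Ext.rel3_3 f _ _) hk (hd1.trans (h2.trans inf_le_left))

theorem V3_func {f : BSet B} {c : B} (h : c ≤ isFam f (ck B W1) (ck B ℕ)) (i : W1) (n k l : ℕ)
    (hkl : k ≠ l) (h1 : c ≤ rel3 f (chk i) (chk n) (chk k))
    (h2 : c ≤ rel3 f (chk i) (chk n) (chk l)) : c ≤ ⊥ := by
  have h3 := F.all_elim (F.all_elim h (F.mem_chk_ck i)) (F.mem_chk_ck n)
  refine F.ex_cases h3 fun k0 d hd _ h4 => ?_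
  have h5 : d ≤ eq (chk k) k0 :=
    F.mp (F.all_elim (h4.trans inf_le_right) (F.mem_chk_ck k)) (hd.trans h1)
  have h6 : d ≤ eq (chk l) k0 :=
    F.mp (F.all_elim (h4.trans inf_le_right) (F.mem_chk_ck l)) (hd.trans h2)
  exact F.eq_chk_elim (F.trans h5 (F.symm h6)) hkl

/-- The name `x` below `c`, and `0` outside of `c`. -/
noncomputable def mixF (c : B) (x : ℕ → ℕ → B) (n k : ℕ) : B :=
  (c ⊓ x n k) ⊔ (cᶜ ⊓ if k = 0 then ⊤ else ⊥)

theorem mixF_le {c d : B} {x : ℕ → ℕ → B} {n k : ℕ} (h : d ≤ c) (h' : d ≤ mixF c x n k) :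
    d ≤ x n k := by
  refine F.or_cases h' (fun e _ h2 => h2.trans inf_le_right) (fun e he h2 => ?_)
  exact F.absurd (he.trans h) (h2.trans inf_le_left)

theorem mixF_fun {c : B} {x : ℕ → ℕ → B} (h1 : ∀ n, c ≤ ⨆ k, x n k)
    (h2 : ∀ n k l, k ≠ l → c ⊓ x n k ⊓ x n l ≤ ⊥) : Fun (mixF c x) where
  tot n := by
    rw [← top_le_iff]
    refine F.em c (fun d _ hd => ?_) (fun d _ hd => ?_)
    · refine F.cases (hd.trans (h1 n)) fun k e he hk => le_iSup_of_le k ?_
      exact le_sup_of_le_left (le_inf (he.trans hd) hk)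
    · refine le_iSup_of_le 0 (le_sup_of_le_right ?_)
      simpa using hd
  disj n k l hkl := by
    rw [← le_bot_iff]
    refine F.or_cases (inf_le_left : _ ≤ mixF c x n k) (fun d hd h3 => ?_) (fun d hd h3 => ?_)
    · have h4 := mixF_le (h3.trans inf_le_left) (hd.trans inf_le_right)
      exact (le_inf (le_inf (h3.trans inf_le_left) (h3.trans inf_le_right)) h4).trans
        (h2 n k l hkl)
    · refine F.or_cases (hd.trans inf_le_right : d ≤ mixF c x n l) (fun e he h4 => ?_)
        (fun e he h4 => ?_)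
      · exact F.absurd (h4.trans inf_le_left) ((he.trans h3).trans inf_le_left)
      · by_cases hk : k = 0
        · have hl : l ≠ 0 := fun hl => hkl (hk.trans hl.symm)
          refine (h4.trans inf_le_right).trans ?_
          simp [hl]
        · refine ((he.trans h3).trans inf_le_right).trans ?_
          simp [hk]

theorem V3_compl_mem {n m : ℕ} (h : m ≤ n) : (mem (chk n : BSet B) (chk m))ᶜ = ⊤ := by
  rw [mem_chk_chk_of_not (not_lt.2 h), compl_bot]

theorem V3_not_compl_mem {n m : ℕ} (h : n < m) : (mem (chk n : BSet B) (chk m))ᶜ = ⊥ := by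
  rw [mem_chk_of_lt h, compl_top]

theorem V3_le {c : B} {n m : ℕ} (h : c ≤ (mem (chk n : BSet B) (chk m))ᶜ) (hc : c ≠ ⊥) : m ≤ n := by
  by_contra h1
  rw [V3_not_compl_mem (not_le.1 h1)] at h
  exact hc (le_bot_iff.1 h)

theorem isDom_ck (hD : ∀ f : W1 → ℕ → ℕ → B, (∀ i, Fun (f i)) →
    ∃ g, Fun g ∧ ∀ i, leF (f i) g = ⊤) : isDom (ck B W1) (ck B ℕ) = ⊤ := by
  rw [← top_le_iff]
  unfold isDom
  refine le_iInf fun f => F.intro fun c _ hc => ?_
  obtain ⟨g, hg, hle⟩ := hD
    (fun i => mixF c (fun n k => rel3 f (chk i) (chk n) (chk k)))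
    (fun i => mixF_fun (fun n => V3_val hc i n) fun n k l hkl =>
      V3_func ((inf_le_left.trans inf_le_left).trans hc) i n k l hkl
        (inf_le_left.trans inf_le_right) inf_le_right)
  refine le_iSup_of_le (relN chk chk g) (le_inf
    (F.top (Pool.Agent.LibSAD21.isMap_relN g hg.tot hg.disj)) ?_)
  rw [all_ck (by
        unfold all ex
        solve_by_elim (transparency := .reducible) (maxDepth := 100) only [Ext.const,
          Ext.mem_left, Ext.mem_right, Ext.eq_left, Ext.eq_right, Ext.rel1, Ext.rel2,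
          Ext.rel3_1, Ext.rel3_2, Ext.rel3_3, Ext_embeds_left, Ext_sub_left, Ext.iInf, Ext.iSup,
          Ext.inf, Ext.sup, Ext.himp, Ext.compl])]
  refine le_iInf fun i => ?_
  rw [ex_ck (by
        unfold all
        solve_by_elim (transparency := .reducible) (maxDepth := 100) only [Ext.const,
          Ext.mem_left, Ext.mem_right, Ext.eq_left, Ext.eq_right, Ext.rel1, Ext.rel2,
          Ext.rel3_1, Ext.rel3_2, Ext.rel3_3, Ext_embeds_left, Ext_sub_left, Ext.iInf, Ext.iSup,
          Ext.inf, Ext.sup, Ext.himp, Ext.compl])]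
  have h1 : c ≤ leF (mixF c (fun n k => rel3 f (chk i) (chk n) (chk k))) g := F.top (hle i)
  refine F.cases h1 fun m d hd hm => le_iSup_of_le m ?_
  rw [all_ck (by
        unfold all
        solve_by_elim (transparency := .reducible) (maxDepth := 100) only [Ext.const,
          Ext.mem_left, Ext.mem_right, Ext.eq_left, Ext.eq_right, Ext.rel1, Ext.rel2,
          Ext.rel3_1, Ext.rel3_2, Ext.rel3_3, Ext_embeds_left, Ext_sub_left, Ext.iInf, Ext.iSup,
          Ext.inf, Ext.sup, Ext.himp, Ext.compl])]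
  refine le_iInf fun n => F.intro fun d1 hd1 hn => ?_
  rw [all_ck (by
        unfold all
        solve_by_elim (transparency := .reducible) (maxDepth := 100) only [Ext.const,
          Ext.mem_left, Ext.mem_right, Ext.eq_left, Ext.eq_right, Ext.rel1, Ext.rel2,
          Ext.rel3_1, Ext.rel3_2, Ext.rel3_3, Ext_embeds_left, Ext_sub_left, Ext.iInf, Ext.iSup,
          Ext.inf, Ext.sup, Ext.himp, Ext.compl])]
  refine le_iInf fun k => ?_
  rw [all_ck (by
        solve_by_elim (transparency := .reducible) (maxDepth := 100) only [Ext.const,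
          Ext.mem_left, Ext.mem_right, Ext.eq_left, Ext.eq_right, Ext.rel1, Ext.rel2,
          Ext.rel3_1, Ext.rel3_2, Ext.rel3_3, Ext_embeds_left, Ext_sub_left, Ext.iInf, Ext.iSup,
          Ext.inf, Ext.sup, Ext.himp, Ext.compl])]
  refine le_iInf fun l => F.intro fun d2 hd2 h2 => ?_
  by_cases hkl : k ≤ l
  · rw [V3_compl_mem hkl]
    exact le_top
  by_cases hd20 : d2 = ⊥
  · rw [hd20]
    exact bot_le
  have hmn : m ≤ n := V3_le (hd2.trans hn) hd20
  have h3 : d2 ≤ rel3 f (chk i) (chk n) (chk k) := h2.trans inf_le_left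
  have h4 : d2 ≤ g n l := by
    have h5 := h2.trans inf_le_right
    rwa [Pool.Agent.LibSAD21.rel_chk] at h5
  have h6 := (hd2.trans hd1).trans (hm.trans (iInf₂_le n hmn))
  refine F.cases h6 fun k' e he h7 => F.cases h7 fun l' e1 he1 h8 => F.cases h8 fun hkl' e2 he2 h9 => ?_
  have hec : e2 ≤ d2 := he2.trans (he1.trans he)
  by_cases hl : l' = l
  · subst hl
    by_cases hk : k' = k
    · exact absurd (hk ▸ hkl') hkl
    · have h10 := mixF_le (hec.trans (hd2.trans (hd1.trans hd))) (h9.trans inf_le_left)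
      exact (V3_func ((hec.trans (hd2.trans (hd1.trans hd))).trans hc) i n k' k hk h10
        (hec.trans h3)).trans bot_le
  · have h10 : e2 ≤ g n l' ⊓ g n l := le_inf (h9.trans inf_le_right) (hec.trans h4)
    rw [hg.disj n l' l hl] at h10
    exact h10.trans bot_le

end Pool.Agent.LibFS55
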