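import Pool.Agent.LibFS55.V3
import Pool.Agent.LibFS55.W1

/-! Separation. -/

set_option autoImplicit false

namespace Pool.Agent.LibFS55

open Pool.Agent.LibPlas90 Pool.Agent.LibPlas90.BSet Pool.Agent.LibTk83 Pool.Agent.LibNC21

variable {B : Type} [CompleteBooleanAlgebra B]

theorem V4_inj : ∃ e : W1 → Set ℕ, Function.Injective e := by
  have h : Cardinal.mk W1 ≤ Cardinal.mk (Set ℕ) := by
    rw [mk_W1, Cardinal.mk_set, Cardinal.mk_nat, Cardinal.two_power_aleph0]
    exact Cardinal.aleph_one_le_continuum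
  obtain ⟨f⟩ := (Cardinal.le_def _ _).1 h
  exact ⟨f, f.injective⟩

open Classical in
/-- The name `x` below `c`, and the set `e` outside of `c`. -/
noncomputable def mixS (c : B) (x : ℕ → B) (e : Set ℕ) (k : ℕ) : B :=
  (c ⊓ x k) ⊔ (cᶜ ⊓ if k ∈ e then ⊤ else ⊥)

theorem mixS_le {c d : B} {x : ℕ → B} {e : Set ℕ} {k : ℕ} (h : d ≤ c) (h' : d ≤ mixS c x e k) :
    d ≤ x k := by
  refine F.or_cases h' (fun e _ h2 => h2.trans inf_le_right) (fun e he h2 => ?_)
  exact F.absurd (he.trans h) (h2.trans inf_le_left)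

theorem le_mixS {c d : B} {x : ℕ → B} {e : Set ℕ} {k : ℕ} (h : d ≤ c) (h' : d ≤ x k) :
    d ≤ mixS c x e k := le_sup_of_le_left (le_inf h h')

theorem mixS_compl_le {c d : B} {x : ℕ → B} {e : Set ℕ} {k : ℕ} (h : d ≤ c)
    (h' : d ≤ (mixS c x e k)ᶜ) : d ≤ (x k)ᶜ :=
  F.not_intro fun _ hf h1 => F.absurd (le_mixS (hf.trans h) h1) (hf.trans h')

theorem le_mixS_compl {c d : B} {x : ℕ → B} {e : Set ℕ} {k : ℕ} (h : d ≤ c)
    (h' : d ≤ (x k)ᶜ) : d ≤ (mixS c x e k)ᶜ :=
  F.not_intro fun _ hf h1 => F.absurd (mixS_le (hf.trans h) h1) (hf.trans h')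

theorem V4_equiv_le {a b : B} : (equiv a b)ᶜ ≤ a ⊓ bᶜ ⊔ aᶜ ⊓ b := by
  unfold equiv
  rw [compl_inf]
  refine sup_le ?_ ?_
  · refine le_sup_of_le_left ?_
    rw [himp_eq, compl_sup, compl_compl, inf_comm]
  · refine le_sup_of_le_right ?_
    rw [himp_eq, compl_sup, compl_compl]

theorem V4_le_equiv {a b : B} : a ⊓ bᶜ ⊔ aᶜ ⊓ b ≤ (equiv a b)ᶜ := by
  refine F.not_intro fun d hd h => ?_
  refine F.or_cases hd (fun e he h1 => ?_) (fun e he h1 => ?_)
  · exact F.absurd (F.mp ((he.trans h).trans inf_le_left) (h1.trans inf_le_left))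
      (h1.trans inf_le_right)
  · exact F.absurd (F.mp ((he.trans h).trans inf_le_right) (h1.trans inf_le_right))
      (h1.trans inf_le_left)

theorem V4_dif {y : BSet B} {c : B} (h : c ≤ all (ck B W1) fun i => all (ck B W1) fun j =>
    (eq i j)ᶜ ⇨ ex (ck B ℕ) fun k => (equiv (rel y i k) (rel y j k))ᶜ) {e : W1 → Set ℕ}
    (he : Function.Injective e) (i j : W1) (hij : i ≠ j) :
    dif (mixS c (fun k => rel y (chk i) (chk k)) (e i))
      (mixS c (fun k => rel y (chk j) (chk k)) (e j)) = ⊤ := by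
  rw [← top_le_iff]
  unfold dif
  refine F.em c (fun d _ hd => ?_) (fun d _ hd => ?_)
  · have h1 := F.all_elim (F.all_elim (hd.trans h) (F.mem_chk_ck i)) (F.mem_chk_ck j)
    have h2 := F.mp h1 (F.top (by rw [eq_chk hij, compl_bot]))
    refine F.ex_cases h2 fun k0 d1 hd1 hk0 h3 => F.ck_cases hk0 fun k d2 hd2 hk => ?_
    have h4 : d2 ≤ (equiv (rel y (chk i) (chk k)) (rel y (chk j) (chk k)))ᶜ :=
      F.ext (φ := fun k => (equiv (rel y (chk i) k) (rel y (chk j) k))ᶜ)
        (by
              unfold equiv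
              solve_by_elim (transparency := .reducible) (maxDepth := 100) only [Ext.const,
                Ext.mem_left, Ext.mem_right, Ext.eq_left, Ext.eq_right, Ext.rel1, Ext.rel2,
                Ext.rel3_1, Ext.rel3_2, Ext.rel3_3, Ext_embeds_left, Ext_sub_left, Ext.iInf,
                Ext.iSup, Ext.inf, Ext.sup, Ext.himp, Ext.compl]) hk (hd2.trans h3)
    have hc : d2 ≤ c := (hd2.trans hd1).trans hd
    refine le_iSup_of_le k ?_
    refine F.or_cases (h4.trans V4_equiv_le) (fun f hf h5 => ?_) (fun f hf h5 => ?_)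
    · exact le_sup_of_le_left (le_inf (le_mixS (hf.trans hc) (h5.trans inf_le_left))
        (le_mixS_compl (hf.trans hc) (h5.trans inf_le_right)))
    · exact le_sup_of_le_right (le_inf (le_mixS_compl (hf.trans hc) (h5.trans inf_le_left))
        (le_mixS (hf.trans hc) (h5.trans inf_le_right)))
  · have h1 : e i ≠ e j := fun h2 => hij (he h2)
    have h2 : ∃ k, ¬ (k ∈ e i ↔ k ∈ e j) := by
      by_contra hcon
      push Not at hcon
      exact h1 (Set.ext hcon)
    obtain ⟨k, hk⟩ := h2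
    refine le_iSup_of_le k ?_
    have h3 : ∀ i, k ∈ e i → d ≤ mixS c (fun k => rel y (chk i) (chk k)) (e i) k := fun i hi => by
      refine le_sup_of_le_right (le_inf hd ?_)
      simp [hi]
    have h4 : ∀ i, k ∉ e i → d ≤ (mixS c (fun k => rel y (chk i) (chk k)) (e i) k)ᶜ :=
      fun i hi => by
        refine F.not_intro fun f hf h5 => F.or_cases h5 (fun g hg h6 => ?_) (fun g hg h6 => ?_)
        · exact F.absurd (h6.trans inf_le_left) (hg.trans (hf.trans hd))
        · refine (h6.trans inf_le_right).trans ?_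
          simp [hi]
    by_cases hi : k ∈ e i
    · have hj : k ∉ e j := fun hj => hk ⟨fun _ => hj, fun _ => hi⟩
      exact le_sup_of_le_left (le_inf (h3 i hi) (h4 j hj))
    · have hj : k ∈ e j := by
        by_contra hj
        exact hk ⟨fun h => absurd h hi, fun h => absurd h hj⟩
      exact le_sup_of_le_right (le_inf (h4 i hi) (h3 j hj))

theorem V4_ls {E : BSet B} {c : B}
    (h : c ≤ all (ck B ℕ) fun m => ex (ck B ℕ) fun n => (mem n m)ᶜ ⊓ mem n E) :
    c ≤ ls fun m => mem (chk m) E := by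
  unfold ls
  refine le_iInf fun m => ?_
  refine F.ex_cases (F.all_elim h (F.mem_chk_ck m)) fun n0 e he hn0 h2 =>
    F.ck_cases hn0 fun n e1 he1 hn => ?_
  have h3 : e1 ≤ (mem (chk n) (chk m))ᶜ ⊓ mem (chk n) E :=
    F.ext (φ := fun n => (mem n (chk m))ᶜ ⊓ mem n E) (by
          solve_by_elim (transparency := .reducible) (maxDepth := 100) only [Ext.const,
            Ext.mem_left, Ext.mem_right, Ext.eq_left, Ext.eq_right, Ext.rel1, Ext.rel2,
            Ext.rel3_1, Ext.rel3_2, Ext.rel3_3, Ext_embeds_left, Ext_sub_left, Ext.iInf,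
            Ext.iSup, Ext.inf, Ext.sup, Ext.himp, Ext.compl]) hn (he1.trans h2)
  by_cases h4 : e1 = ⊥
  · rw [h4]
    exact bot_le
  exact le_iSup_of_le n (le_iSup_of_le (V3_le (h3.trans inf_le_left) h4) (h3.trans inf_le_right))

theorem isSep_ck (hS : ∀ y : W1 → ℕ → B, (∀ i j, i ≠ j → dif (y i) (y j) = ⊤) → ∃ d, Fun d ∧
    ∀ (E : ℕ → B) (x : ℕ → ℕ → ℕ → B), ls E ≤ ⨆ i, ls fun m => E m ⊓ esc d x (y i) m) :
    isSep (ck B W1) (ck B ℕ) = ⊤ := by
  obtain ⟨e, he⟩ := V4_inj
  rw [← top_le_iff]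
  unfold isSep
  refine le_iInf fun y => F.intro fun c _ hc => ?_
  obtain ⟨d, hd, hsep⟩ := hS (fun i => mixS c (fun k => rel y (chk i) (chk k)) (e i))
    (fun i j hij => V4_dif hc he i j hij)
  refine le_iSup_of_le (relN chk chk d) (le_inf
    (F.top (Pool.Agent.LibSAD21.isMap_relN d hd.tot hd.disj)) ?_)
  refine le_iInf fun E => le_iInf fun x => F.intro fun c1 hc1 hE => ?_
  have h2 := (V4_ls hE).trans (hsep (fun m => mem (chk m) E)
    (fun m j k => rel3 x (chk m) (chk j) (chk k)))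
  refine F.cases h2 fun i c2 hc2 h3 => ?_
  rw [ex_ck (by
        unfold all ex isDiff ex equiv
        solve_by_elim (transparency := .reducible) (maxDepth := 100) only [Ext.const,
          Ext.mem_left, Ext.mem_right, Ext.eq_left, Ext.eq_right, Ext.rel1, Ext.rel2,
          Ext.rel3_1, Ext.rel3_2, Ext.rel3_3, Ext_embeds_left, Ext_sub_left, Ext.iInf, Ext.iSup,
          Ext.inf, Ext.sup, Ext.himp, Ext.compl])]
  refine le_iSup_of_le i ?_
  rw [all_ck (by
        unfold all ex isDiff ex equiv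
        solve_by_elim (transparency := .reducible) (maxDepth := 100) only [Ext.const,
          Ext.mem_left, Ext.mem_right, Ext.eq_left, Ext.eq_right, Ext.rel1, Ext.rel2,
          Ext.rel3_1, Ext.rel3_2, Ext.rel3_3, Ext_embeds_left, Ext_sub_left, Ext.iInf, Ext.iSup,
          Ext.inf, Ext.sup, Ext.himp, Ext.compl])]
  refine le_iInf fun n => ?_
  rw [ex_ck (by
        unfold all isDiff ex equiv
        solve_by_elim (transparency := .reducible) (maxDepth := 100) only [Ext.const,
          Ext.mem_left, Ext.mem_right, Ext.eq_left, Ext.eq_right, Ext.rel1, Ext.rel2,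
          Ext.rel3_1, Ext.rel3_2, Ext.rel3_3, Ext_embeds_left, Ext_sub_left, Ext.iInf, Ext.iSup,
          Ext.inf, Ext.sup, Ext.himp, Ext.compl])]
  refine F.cases (h3.trans (iInf_le _ n)) fun m c3 hc3 h4 => F.cases h4 fun hnm c4 hc4 h5 =>
    le_iSup_of_le m (le_inf (le_inf (F.top (V3_compl_mem hnm)) (h5.trans inf_le_left)) ?_)
  rw [all_ck (by
        unfold isDiff ex equiv
        solve_by_elim (transparency := .reducible) (maxDepth := 100) only [Ext.const,
          Ext.mem_left, Ext.mem_right, Ext.eq_left, Ext.eq_right, Ext.rel1, Ext.rel2,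
          Ext.rel3_1, Ext.rel3_2, Ext.rel3_3, Ext_embeds_left, Ext_sub_left, Ext.iInf, Ext.iSup,
          Ext.inf, Ext.sup, Ext.himp, Ext.compl])]
  refine le_iInf fun j => F.intro fun c5 hc5 hj => ?_
  by_cases hc50 : c5 = ⊥
  · rw [hc50]
    exact bot_le
  have hjm : j ≤ m := V3_le hj hc50
  have h6 := (hc5.trans (h5.trans inf_le_right)).trans (iInf₂_le j hjm)
  have hcc : c5 ≤ c := hc5.trans (hc4.trans (hc3.trans (hc2.trans hc1)))
  unfold isDiff
  rw [ex_ck (by
        unfold ex equiv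
        solve_by_elim (transparency := .reducible) (maxDepth := 100) only [Ext.const,
          Ext.mem_left, Ext.mem_right, Ext.eq_left, Ext.eq_right, Ext.rel1, Ext.rel2,
          Ext.rel3_1, Ext.rel3_2, Ext.rel3_3, Ext_embeds_left, Ext_sub_left, Ext.iInf, Ext.iSup,
          Ext.inf, Ext.sup, Ext.himp, Ext.compl])]
  refine F.cases h6 fun l c6 hc6 h7 => le_iSup_of_le l (le_inf ?_ ?_)
  · rw [Pool.Agent.LibSAD21.rel_chk]
    exact h7.trans inf_le_left
  rw [ex_ck (by
        unfold equiv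
        solve_by_elim (transparency := .reducible) (maxDepth := 100) only [Ext.const,
          Ext.mem_left, Ext.mem_right, Ext.eq_left, Ext.eq_right, Ext.rel1, Ext.rel2,
          Ext.rel3_1, Ext.rel3_2, Ext.rel3_3, Ext_embeds_left, Ext_sub_left, Ext.iInf, Ext.iSup,
          Ext.inf, Ext.sup, Ext.himp, Ext.compl])]
  refine F.cases (h7.trans inf_le_right) fun k c7 hc7 h8 => F.cases h8 fun hk c8 hc8 h9 =>
    le_iSup_of_le k (le_inf (F.mem_chk_of_lt hk) ?_)
  have hc8c : c8 ≤ c := (hc8.trans (hc7.trans hc6)).trans hcc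
  refine le_trans ?_ V4_le_equiv
  refine F.or_cases h9 (fun f hf h10 => ?_) (fun f hf h10 => ?_)
  · exact le_sup_of_le_left (le_inf (mixS_le (hf.trans hc8c) (h10.trans inf_le_left))
      (h10.trans inf_le_right))
  · exact le_sup_of_le_right (le_inf (mixS_compl_le (hf.trans hc8c) (h10.trans inf_le_left))
      (h10.trans inf_le_right))

end Pool.Agent.LibFS55
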