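import Pool.Agent.LibFS55.V2
import Pool.Agent.LibFS55.V4

/-! Pseudointersections; the two sentences. -/

set_option autoImplicit false

namespace Pool.Agent.LibFS55

open Pool.Agent.LibPlas90 Pool.Agent.LibPlas90.BSet Pool.Agent.LibTk83 Pool.Agent.LibNC21

variable {B : Type} [CompleteBooleanAlgebra B]

theorem V5_sub (A : Finset W1) : sub (fsub chk A : BSet B) (ck B W1) = ⊤ := by
  rw [← top_le_iff]
  unfold sub
  refine F.all_intro fun x d _ hx => ?_
  rw [mem_fsub] at hx
  exact F.cases hx fun i d1 _ h1 => F.cases h1 fun _ d2 _ h2 =>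
    F.mem_l (F.symm h2) (F.mem_chk_ck i)

theorem V5_ls {Fm : BSet B} {c : B} (h : c ≤ ⨅ A : BSet B, sub A (ck B W1) ⊓ isFin A ⇨
    all (ck B ℕ) fun m => ex (ck B ℕ) fun k => (mem k m)ᶜ ⊓ all A fun i => rel Fm i k)
    (A : Finset W1) :
    ls (fun k => ⨅ i ∈ A, mixS c (fun k => rel Fm (chk i) (chk k)) Set.univ k) = ⊤ := by
  rw [← top_le_iff]
  unfold ls
  refine le_iInf fun m => F.em c (fun d _ hd => ?_) (fun d _ hd => ?_)
  · have h1 := F.mp ((hd.trans h).trans (iInf_le _ (fsub chk A)))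
      (le_inf (F.top (V5_sub A)) (F.top (isFin_fsub chk A)))
    refine F.ex_cases (F.all_elim h1 (F.mem_chk_ck m)) fun k0 d1 hd1 hk0 h2 =>
      F.ck_cases hk0 fun k d2 hd2 hk => ?_
    have h3 : d2 ≤ (mem (chk k) (chk m))ᶜ ⊓ all (fsub chk A) fun i => rel Fm i (chk k) :=
      F.ext (φ := fun k => (mem k (chk m))ᶜ ⊓ all (fsub chk A) fun i => rel Fm i k)
        (by
              unfold all
              solve_by_elim (transparency := .reducible) (maxDepth := 100) only [Ext.const,
                Ext.mem_left, Ext.mem_right, Ext.eq_left, Ext.eq_right, Ext.rel1, Ext.rel2,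
                Ext.rel3_1, Ext.rel3_2, Ext.rel3_3, Ext_embeds_left, Ext_sub_left, Ext.iInf,
                Ext.iSup, Ext.inf, Ext.sup, Ext.himp, Ext.compl]) hk (hd2.trans h2)
    by_cases h4 : d2 = ⊥
    · rw [h4]
      exact bot_le
    refine le_iSup_of_le k (le_iSup_of_le (V3_le (h3.trans inf_le_left) h4) ?_)
    refine le_iInf fun i => le_iInf fun hi => le_mixS ((hd2.trans hd1).trans hd) ?_
    exact F.all_elim (φ := fun i => rel Fm i (chk k)) (x := chk i) (h3.trans inf_le_right)
      (F.top (mem_chk_fsub_of_mem hi))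
  · refine le_iSup_of_le m (le_iSup_of_le le_rfl ?_)
    refine le_iInf fun i => le_iInf fun _ => le_sup_of_le_right (le_inf hd ?_)
    simp

theorem isPse_ck (hP : ∀ F : W1 → ℕ → B, (∀ A : Finset W1, ls (fun k => ⨅ i ∈ A, F i k) = ⊤) →
    ∃ P : ℕ → B, ls P = ⊤ ∧ ∀ i, li (fun k => P k ⇨ F i k) = ⊤) :
    isPse (ck B W1) (ck B ℕ) = ⊤ := by
  rw [← top_le_iff]
  unfold isPse
  refine le_iInf fun Fm => F.intro fun c _ hc => ?_
  obtain ⟨P, h1, h2⟩ := hP (fun i => mixS c (fun k => rel Fm (chk i) (chk k)) Set.univ)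
    (fun A => V5_ls hc A)
  refine le_iSup_of_le (mk ℕ chk P) (le_inf (F.top ?_) ?_)
  · rw [← h1, all_ck (by
        unfold ex
        solve_by_elim (transparency := .reducible) (maxDepth := 100) only [Ext.const,
          Ext.mem_left, Ext.mem_right, Ext.eq_left, Ext.eq_right, Ext.rel1, Ext.rel2,
          Ext.rel3_1, Ext.rel3_2, Ext.rel3_3, Ext_embeds_left, Ext_sub_left, Ext.iInf, Ext.iSup,
          Ext.inf, Ext.sup, Ext.himp, Ext.compl])]
    unfold ls
    refine iInf_congr fun m => ?_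
    rw [ex_ck (by
          solve_by_elim (transparency := .reducible) (maxDepth := 100) only [Ext.const,
            Ext.mem_left, Ext.mem_right, Ext.eq_left, Ext.eq_right, Ext.rel1, Ext.rel2,
            Ext.rel3_1, Ext.rel3_2, Ext.rel3_3, Ext_embeds_left, Ext_sub_left, Ext.iInf,
            Ext.iSup, Ext.inf, Ext.sup, Ext.himp, Ext.compl])]
    refine iSup_congr fun k => ?_
    rw [Pool.Agent.LibSAD21.mem_mk_chk]
    by_cases h : m ≤ k
    · rw [V3_compl_mem h]
      simp [h]
    · rw [V3_not_compl_mem (not_le.1 h)]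
      simp [h]
  · rw [all_ck (by
        unfold ex all
        solve_by_elim (transparency := .reducible) (maxDepth := 100) only [Ext.const,
          Ext.mem_left, Ext.mem_right, Ext.eq_left, Ext.eq_right, Ext.rel1, Ext.rel2,
          Ext.rel3_1, Ext.rel3_2, Ext.rel3_3, Ext_embeds_left, Ext_sub_left, Ext.iInf, Ext.iSup,
          Ext.inf, Ext.sup, Ext.himp, Ext.compl])]
    refine le_iInf fun i => ?_
    rw [ex_ck (by
          unfold all
          solve_by_elim (transparency := .reducible) (maxDepth := 100) only [Ext.const,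
            Ext.mem_left, Ext.mem_right, Ext.eq_left, Ext.eq_right, Ext.rel1, Ext.rel2,
            Ext.rel3_1, Ext.rel3_2, Ext.rel3_3, Ext_embeds_left, Ext_sub_left, Ext.iInf,
            Ext.iSup, Ext.inf, Ext.sup, Ext.himp, Ext.compl])]
    have h3 : c ≤ li fun k => P k ⇨ mixS c (fun k => rel Fm (chk i) (chk k)) Set.univ k :=
      F.top (h2 i)
    unfold li at h3
    refine F.cases h3 fun m d hd h4 => le_iSup_of_le m ?_
    rw [all_ck (by
          solve_by_elim (transparency := .reducible) (maxDepth := 100) only [Ext.const,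
            Ext.mem_left, Ext.mem_right, Ext.eq_left, Ext.eq_right, Ext.rel1, Ext.rel2,
            Ext.rel3_1, Ext.rel3_2, Ext.rel3_3, Ext_embeds_left, Ext_sub_left, Ext.iInf,
            Ext.iSup, Ext.inf, Ext.sup, Ext.himp, Ext.compl])]
    refine le_iInf fun k => F.intro fun d1 hd1 h5 => ?_
    rw [Pool.Agent.LibSAD21.mem_mk_chk] at h5
    by_cases h6 : d1 = ⊥
    · rw [h6]
      exact bot_le
    have hmk : m ≤ k := V3_le (h5.trans inf_le_left) h6
    exact mixS_le (hd1.trans hd) (F.mp (hd1.trans (h4.trans (iInf₂_le k hmk)))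
      (h5.trans inf_le_right))

theorem sentence1_eq_top (M : ModelQ B) : sentence1 B = ⊤ := by
  rw [← top_le_iff]
  unfold sentence1
  refine le_iSup_of_le (ck B ℕ) (le_iSup_of_le (ck B W1) ?_)
  rw [isOmega_ck, isOrd_ck, isDom_ck M.dom, isSep_ck M.sep]
  simp

theorem sentence2_eq_top (M : ModelP B) : sentence2 B = ⊤ := by
  rw [← top_le_iff]
  unfold sentence2
  refine le_iSup_of_le (ck B ℕ) (le_iSup_of_le (ck B W1) ?_)
  rw [isOmega_ck, embeds_W1 M.ccc, isPse_ck M.pse]
  simp

end Pool.Agent.LibFS55
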